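import Mathlib

/-! Project H452-CHI: definitions and task statements (S19717, chromatic number of `W`-random
graphs). Every task is a `def TaskX : Prop`; prove `theorem taskX : TaskX` in a new file. -/

set_option autoImplicit false
open MeasureTheory Filter Topology

namespace Pool.Agent.H452R3.CHI

open Classical in
/-- sum of `a i j` over the pairs `i < j` in `K` -/
noncomputable def sm {n : ℕ} (a : Fin n → Fin n → ℝ) (K : Finset (Fin n)) : ℝ :=
  ∑ i ∈ K, ∑ j ∈ K, if i < j then a i j else 0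

/-- `I` is independent in `G` -/
def indep {n : ℕ} (G : SimpleGraph (Fin n)) (I : Finset (Fin n)) : Prop :=
  ∀ i ∈ I, ∀ j ∈ I, ¬ G.Adj i j

open Classical in
/-- weight of `G` when the pair `i < j` is a non-edge with probability `exp (- a i j)` -/
noncomputable def wt {n : ℕ} (a : Fin n → Fin n → ℝ) (G : SimpleGraph (Fin n)) : ℝ :=
  ∏ i : Fin n, ∏ j : Fin n,
    if i < j then (if G.Adj i j then 1 - Real.exp (- a i j) else Real.exp (- a i j)) else 1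

open Classical in
/-- probability of the event `A` -/
noncomputable def Pr {n : ℕ} (a : Fin n → Fin n → ℝ) (A : SimpleGraph (Fin n) → Prop) : ℝ :=
  ∑ G : SimpleGraph (Fin n), if A G then wt a G else 0

open Classical in
/-- weight of a subset `T` of `E` in the product model with presence probabilities `p` -/
noncomputable def pw {E : Type} [Fintype E] (p : E → ℝ) (T : Finset E) : ℝ :=
  ∏ e : E, if e ∈ T then p e else 1 - p e

open Classical in
/-- Task Janson: Janson's inequality for finite product measures.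
Proof (Boppana-Spencer): for `S : Finset ι` let `C_S = {T | T meets F i for all i in S}`; show by
induction on `S` that `P(C_S) <= exp(-mu_S + Delta_S/2)`. Step `S -> insert k S`:
`P(C_{insert k S}) = P(C_S) - P(C_S and A)`, `A = {T disjoint from F k}`. With `N` the `j in S` with
`F j` disjoint from `F k`, `D` the others: `P(C_S and A) >= P(C_N and A) - sum_{j in D} P(C_N and A and B_j)`
(`B_j = {T disjoint from F j}`), `P(C_N and A) = P(C_N) P(A)` (independence: disjoint coordinates) and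
`P(C_N and A and B_j) <= P(C_N) P(A and B_j)` (Harris: Mathlib's `fkg` on the lattice `Finset E`),
so `P(C_S and A) >= P(C_S) (P(A) - sum_{j in D} P(A and B_j))` (trivial if the bracket is negative);
finish with `1 - y <= exp (-y)`. `P(T disjoint from F) = prod_{e in F} (1 - p e)`. -/
def TaskJanson : Prop :=
  ∀ (E : Type) [Fintype E] (p : E → ℝ), (∀ e, 0 ≤ p e) → (∀ e, p e ≤ 1) →
  ∀ (ι : Type) [Fintype ι] (F : ι → Finset E),
    ∑ T : Finset E, (if ∀ i, ¬ Disjoint T (F i) then pw p T else 0)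
      ≤ Real.exp (- ∑ i, ∏ e ∈ F i, (1 - p e)
          + (1 / 2) * ∑ i, ∑ j,
              if i ≠ j ∧ ¬ Disjoint (F i) (F j) then ∏ e ∈ F i ∪ F j, (1 - p e) else 0)

open Classical in
/-- Task GJ: weighted Janson inequality in the random graph. From TaskJanson with
`E = {p : Fin n × Fin n // p.1 < p.2} ⊕ {I // I ∈ 𝓕}`, presence probabilities `1 - exp (-a i j)` on
the pairs and `1 - q I` on the extra coordinates, and `F I` = pairs inside `I` together with the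
extra coordinate `I`. (`I`, `J` share a pair iff `2 ≤ (I ∩ J).card`; the pairs inside `I` or `J`
have `a`-sum `sm a I + sm a J - sm a (I ∩ J)`.) The event (no `I ∈ 𝓕` independent) is contained in
(all `F I` are met). -/
def TaskGJ : Prop :=
  ∀ (n : ℕ) (a : Fin n → Fin n → ℝ), (∀ i j, 0 ≤ a i j) →
  ∀ (𝓕 : Finset (Finset (Fin n))) (q : Finset (Fin n) → ℝ), (∀ I, 0 ≤ q I) → (∀ I ∈ 𝓕, q I ≤ 1) →
    Pr a (fun G => ∀ I ∈ 𝓕, ¬ indep G I)
      ≤ Real.exp (- ∑ I ∈ 𝓕, q I * Real.exp (- sm a I)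
          + (1 / 2) * ∑ I ∈ 𝓕, ∑ J ∈ 𝓕,
              if 2 ≤ (I ∩ J).card then
                q I * q J * Real.exp (- sm a I - sm a J + sm a (I ∩ J)) else 0)

open Classical in
/-- Task J: existence of an independent member of a well spread family, with tiny failure
probability. Use TaskGJ (hypothesis) with `q I = t * exp (sm a I) / 𝓕.card`, `t = n^(8/5)`.
`q I ≤ 1`: by (iii) with `K = I`, `1 ≤ 2 (Λ/n)^|I| |𝓕|`, and `sm a I ≤ (1-ε)|I| log n`,
`|I| ≥ 4/ε`. Second sum `≤ t^2 / |𝓕| * max_I Σ_{K ⊆ I, |K| ≥ 2} exp (sm a K) 2 (Λ/n)^|K|`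
`≤ 2 t^2 Σ_{2 ≤ k ≤ m} (m Λ/n)^k min (exp (M k^2/2), n^((1-ε)k))`, and every term is
`≤ n^(-9/5)` for `log n ≥ L0` (cases `k = 2`; `M k/2 ≤ 0.2 log n`; `M k/2 > 0.2 log n`). -/
def TaskJ : Prop :=
  ∀ (M ε : ℝ), 0 < M → 0 < ε → ε < 1 → ∃ L0 : ℝ, ∀ n : ℕ, L0 ≤ Real.log n →
  ∀ (a : Fin n → Fin n → ℝ), (∀ i j, 0 ≤ a i j) → (∀ i j, a i j ≤ M) →
  ∀ (𝓕 : Finset (Finset (Fin n))) (Λ : ℝ) (m : ℕ), 𝓕.Nonempty → 1 ≤ Λ →
    (m : ℝ) * Λ ≤ (Real.log n) ^ 6 →
    (∀ I ∈ 𝓕, 4 / ε ≤ (I.card : ℝ)) → (∀ I ∈ 𝓕, I.card ≤ m) →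
    (∀ I ∈ 𝓕, ∀ K ⊆ I, sm a K ≤ (1 - ε) * K.card * Real.log n) →
    (∀ K : Finset (Fin n), ((𝓕.filter (fun J => K ⊆ J)).card : ℝ)
      ≤ 2 * (Λ / n) ^ K.card * 𝓕.card) →
    Pr a (fun G => ∀ I ∈ 𝓕, ¬ indep G I) ≤ Real.exp (- (n : ℝ) ^ (8 / 5 : ℝ) / 2)

open Classical in
/-- the family of sets meeting every `U a` in exactly `m a` points (and contained in the union) -/
noncomputable def fam {n q : ℕ} (U : Fin q → Finset (Fin n)) (m : Fin q → ℕ) :
    Finset (Finset (Fin n)) :=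
  Finset.univ.filter (fun I => (∀ c, (I ∩ U c).card = m c) ∧ I ⊆ Finset.univ.biUnion U)

open Classical in
/-- Task Count: the family `fam U m` is nonempty and spread. Induction on `K`: if `v ∈ U c`,
`v ∉ K`, then by swapping `v` with another point of `U c \ K` all
`#{I ∈ fam | K ∪ {v'} ⊆ I}`, `v' ∈ U c \ K`, are equal, and their sum is
`(m c - |K ∩ U c|) #{I ∈ fam | K ⊆ I}`; `(m-k)/(u-k) ≤ m/u ≤ θ`. -/
def TaskCount : Prop :=
  ∀ (n q : ℕ) (U : Fin q → Finset (Fin n)) (m : Fin q → ℕ) (θ : ℝ),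
    (∀ c d, c ≠ d → Disjoint (U c) (U d)) → (∀ c, m c ≤ (U c).card) →
    (∀ c, (m c : ℝ) ≤ θ * (U c).card) → 0 ≤ θ →
    (fam U m).Nonempty ∧
    ∀ K : Finset (Fin n), (((fam U m).filter (fun I => K ⊆ I)).card : ℝ)
      ≤ θ ^ K.card * (fam U m).card

open Classical in
/-- Task FM (first moment): union bound `Σ_J exp (- sm a J)`, with
`Pr a (indep J) = exp (- sm a J) ≤ n^(-(1+ε)|J|)` for the `J` in question and
`Σ_{J ≠ ∅} c^|J| = (1+c)^n - 1 ≤ exp (n c) - 1`. -/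
def TaskFM : Prop :=
  ∀ (n : ℕ) (a : Fin n → Fin n → ℝ) (ε : ℝ), 1 ≤ n → 0 < ε → (∀ i j, 0 ≤ a i j) →
    Pr a (fun G => ∃ J : Finset (Fin n), J.Nonempty ∧ indep G J ∧
      (1 + ε) * J.card * Real.log n < sm a J) ≤ Real.exp ((n : ℝ) ^ (-ε)) - 1

/-- `max over nonempty J ⊆ I of 2 * sm a J / |J|` -/
noncomputable def Bv {n : ℕ} (a : Fin n → Fin n → ℝ) (I : Finset (Fin n)) : ℝ :=
  ⨆ J : {J : Finset (Fin n) // J ⊆ I ∧ J.Nonempty}, 2 * sm a J.1 / J.1.card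

open Classical in
/-- the functional `F` of a colouring `p` -/
noncomputable def Fp {n : ℕ} (a : Fin n → Fin n → ℝ) (M : ℝ) (p : Fin n → Fin n) : ℝ :=
  (1 / (n : ℝ)) * ∑ l : Fin n,
    if (Finset.univ.filter (fun i => p i = l)).Nonempty then
      M + Bv a (Finset.univ.filter (fun i => p i = l)) else 0

/-- minimum of `F` over all colourings -/
noncomputable def Fstar {n : ℕ} (a : Fin n → Fin n → ℝ) (M : ℝ) : ℝ :=
  ⨅ p : Fin n → Fin n, Fp a M p

/-- Task FS: comparison of `Fstar` with the chromatic number, for one fixed graph. Take an optimal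
colouring of `G` (`G.chromaticNumber.toNat ≤ n` colours, embed the colours in `Fin n`), each class
is independent, so is each subset. -/
def TaskFS : Prop :=
  ∀ (n : ℕ) (a : Fin n → Fin n → ℝ) (M c : ℝ) (G : SimpleGraph (Fin n)), 1 ≤ n →
    (∀ i j, 0 ≤ a i j) → 0 ≤ M → 0 ≤ c →
    (∀ J : Finset (Fin n), J.Nonempty → indep G J → sm a J ≤ c * J.card) →
    Fstar a M ≤ (2 * c + M) * (G.chromaticNumber.toNat : ℝ) / n

/-- cell index of `x` in the grid with `q` cells -/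
noncomputable def cidx (q : ℕ) (x : ℝ) : ℕ := ⌊(q : ℝ) * x⌋₊

/-- Task Step: approximation in `L^1` by step functions on a grid. (Approximate by a continuous
compactly supported function, `MeasureTheory.Integrable.exists_hasCompactSupport_integral_sub_le`
or similar on `ℝ × ℝ`, use uniform continuity, clamp to `[0, M]`, symmetrise.) -/
def TaskStep : Prop :=
  ∀ (g : ℝ → ℝ → ℝ) (M : ℝ), Measurable (Function.uncurry g) → (∀ x y, g x y = g y x) →
    (∀ x y, 0 ≤ g x y) → (∀ x y, g x y ≤ M) → ∀ ε : ℝ, 0 < ε →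
    ∃ q : ℕ, 1 ≤ q ∧ ∃ γ : ℕ → ℕ → ℝ, (∀ i j, γ i j = γ j i) ∧ (∀ i j, 0 ≤ γ i j) ∧
      (∀ i j, γ i j ≤ M) ∧
      ∫ x in Set.Icc (0:ℝ) 1, (∫ y in Set.Icc (0:ℝ) 1, |g x y - γ (cidx q x) (cidx q y)|) ≤ ε

/-- the law of the types -/
noncomputable def typ (n : ℕ) : Measure (Fin n → ℝ) :=
  Measure.pi (fun _ : Fin n => (volume : Measure ℝ).restrict (Set.Icc (0:ℝ) 1))

open Classical in
/-- Task Cells (Chebyshev or any law of large numbers): all cells have nearly the expected number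
of types. -/
def TaskCells : Prop :=
  ∀ (q : ℕ) (δ θ : ℝ), 1 ≤ q → 0 < δ → 0 < θ → ∃ n0 : ℕ, ∀ n : ℕ, n0 ≤ n →
    typ n {x | ∃ c : Fin q,
      ((Finset.univ.filter (fun i => cidx q (x i) = c.1)).card : ℝ) < (1 - δ) * n / q}
      ≤ ENNReal.ofReal θ

open Classical in
/-- Task Bad (Markov): few pairs where `g` is far from the step function. -/
def TaskBad : Prop :=
  ∀ (g : ℝ → ℝ → ℝ) (M : ℝ) (γ : ℕ → ℕ → ℝ) (q : ℕ) (ρ η β : ℝ),
    Measurable (Function.uncurry g) → (∀ x y, 0 ≤ g x y) → (∀ x y, g x y ≤ M) →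
    (∀ i j, 0 ≤ γ i j) → (∀ i j, γ i j ≤ M) →
    ∫ x in Set.Icc (0:ℝ) 1, (∫ y in Set.Icc (0:ℝ) 1, |g x y - γ (cidx q x) (cidx q y)|) ≤ ρ →
    0 < η → 0 < β → ∀ n : ℕ, 1 ≤ n →
    typ n {x | β * (n : ℝ) ^ 2 < ((Finset.univ.filter (fun e : Fin n × Fin n =>
        e.1 ≠ e.2 ∧ η < |g (x e.1) (x e.2) - γ (cidx q (x e.1)) (cidx q (x e.2))|)).card : ℝ)}
      ≤ ENNReal.ofReal (ρ / (η * β))

/-- Task Vertex: a quadratic form that is convex in each coordinate attains its maximum over the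
cube at the vertices. -/
def TaskVertex : Prop :=
  ∀ (ι : Type) [Fintype ι] (r : ι → ℝ) (Γ : ι → ι → ℝ) (c e : ℝ), (∀ i, 0 ≤ r i) →
    (∀ i, 0 ≤ Γ i i) →
    (∀ S : Finset ι, ∑ i ∈ S, ∑ j ∈ S, r i * r j * Γ i j ≤ c * ∑ i ∈ S, r i + e) →
    ∀ s : ι → ℝ, (∀ i, 0 ≤ s i) → (∀ i, s i ≤ 1) →
      ∑ i, ∑ j, s i * s j * (r i * r j * Γ i j) ≤ c * ∑ i, s i * r i + e

/-- the set whose supremum is `φ μ` -/
def phiSet (g : ℝ → ℝ → ℝ) (μ : Measure ℝ) : Set ℝ :=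
  {r : ℝ | ∃ S : Set ℝ, MeasurableSet S ∧ 0 < μ S ∧
        r = (μ S).toReal⁻¹ * ∫ x in S, (∫ y in S, g x y ∂μ) ∂μ}

/-- the set whose infimum is `Φ` -/
def PhiSet (g : ℝ → ℝ → ℝ) : Set ℝ :=
  {t : ℝ | ∃ k : ℕ, ∃ ν : Fin k → Measure ℝ, ∃ α : Fin k → ℝ,
        (∀ i, IsProbabilityMeasure (ν i)) ∧ (∀ i, ν i (Set.Icc (0:ℝ) 1)ᶜ = 0) ∧
        (∀ i, 0 ≤ α i) ∧ ∑ i, α i = 1 ∧
        ∑ i, ENNReal.ofReal (α i) • ν i = volume.restrict (Set.Icc (0:ℝ) 1) ∧
        t = ∑ i, α i * sSup (phiSet g (ν i))}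

/-- Task L1: `Φ ≤ E Fstar` for every `n`. Hypotheses TaskStep, TaskVertex may be used.
Given `ρ > 0` take `q, γ` from TaskStep. For a cell tuple `c : Fin n → Fin q` let `p_c` be a
colouring attaining `Fstar (fun i j => γ (c i) (c j)) M`; for a nonempty class `I` of `p_c` let
`μ_{I,c} = (1/|I|) Σ_{i ∈ I} q • volume.restrict (cell (c i))`, weight `q^(-n) |I|/n`. These
measures average to `volume.restrict (Icc 0 1)`, and for measurable `S`, with
`s_i = q vol (S ∩ cell (c i)) ∈ [0,1]`, `σ = Σ s_i`: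
`|I|^2 ∫∫_{S×S} g dμ^2 ≤ Σ_{i≠j∈I} s_i s_j γ_ij + Σ_{i≠j∈I} e_ij + M σ`
(`e_ij = q^2 ∫∫_{cell c_i × cell c_j} |g - γ_ij|`), TaskVertex bounds the first sum by
`Bv * σ`; for `σ ≤ 1` use `|I|^2 ∫∫ ≤ M σ^2` instead. So
`sSup (phiSet g μ_{I,c}) ≤ (1/|I|) (M + Bv + Σ_{i≠j∈I} e_ij)`. Averaging, the error is at most
`n * ρ`, and `Fstar` at the step matrix differs from `Fstar` at `g (x i) (x j)` by at most
`(2/n) Σ_{i<j} |g - γ|`, expectation `≤ n ρ`. -/
def TaskL1 : Prop :=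
  ∀ (g : ℝ → ℝ → ℝ) (M : ℝ), Measurable (Function.uncurry g) → (∀ x y, g x y = g y x) →
    (∀ x y, 0 ≤ g x y) → (∀ x y, g x y ≤ M) → ∀ n : ℕ, 1 ≤ n →
    sInf (PhiSet g) ≤ ∫ x, Fstar (fun i j => g (x i) (x j)) M ∂(typ n)

end Pool.Agent.H452R3.CHI
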