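import Pool.Agent.H452R3.CHI.Stmts

set_option autoImplicit false
open MeasureTheory Filter Topology

namespace Pool.Agent.H452R3.CHI.L1

open Classical in
lemma two_sm_le_Bv {n : ℕ} (a : Fin n → Fin n → ℝ) (I J : Finset (Fin n)) (hJ : J ⊆ I)
    (hne : J.Nonempty) : 2 * sm a J ≤ Bv a I * J.card := by
  have h : 2 * sm a J / J.card ≤ Bv a I := by
    unfold Bv
    exact le_ciSup (f := fun J : {J : Finset (Fin n) // J ⊆ I ∧ J.Nonempty} =>
      2 * sm a J.1 / J.1.card) (Set.finite_range _).bddAbove ⟨J, hJ, hne⟩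
  have hc : (0:ℝ) < J.card := by exact_mod_cast hne.card_pos
  rwa [div_le_iff₀ hc] at h

lemma sm_nonneg {n : ℕ} (a : Fin n → Fin n → ℝ) (ha : ∀ i j, 0 ≤ a i j) (J : Finset (Fin n)) :
    0 ≤ sm a J := by
  unfold sm
  refine Finset.sum_nonneg fun i _ => Finset.sum_nonneg fun j _ => ?_
  split_ifs
  · exact ha i j
  · exact le_rfl

lemma sm_mono {n : ℕ} (a : Fin n → Fin n → ℝ) (ha : ∀ i j, 0 ≤ a i j) {J I : Finset (Fin n)}
    (h : J ⊆ I) : sm a J ≤ sm a I := by
  unfold sm
  have h1 : ∀ i j, 0 ≤ (if i < j then a i j else 0) := by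
    intro i j
    split_ifs
    · exact ha i j
    · exact le_rfl
  refine (Finset.sum_le_sum fun i _ =>
    Finset.sum_le_sum_of_subset_of_nonneg h (fun j _ _ => h1 i j)).trans ?_
  exact Finset.sum_le_sum_of_subset_of_nonneg h
    (fun i _ _ => Finset.sum_nonneg fun j _ => h1 i j)

lemma Bv_nonneg {n : ℕ} (a : Fin n → Fin n → ℝ) (ha : ∀ i j, 0 ≤ a i j) (I : Finset (Fin n)) :
    0 ≤ Bv a I := by
  unfold Bv
  refine Real.iSup_nonneg fun J => ?_
  have := sm_nonneg a ha J.1
  positivity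

lemma sm_le_add {n : ℕ} (a b : Fin n → Fin n → ℝ) (J : Finset (Fin n)) :
    sm a J ≤ sm b J + sm (fun i j => |a i j - b i j|) J := by
  unfold sm
  rw [← Finset.sum_add_distrib]
  refine Finset.sum_le_sum fun i _ => ?_
  rw [← Finset.sum_add_distrib]
  refine Finset.sum_le_sum fun j _ => ?_
  split_ifs
  · linarith [le_abs_self (a i j - b i j)]
  · simp

lemma Bv_le_add {n : ℕ} (a b : Fin n → Fin n → ℝ) (hb : ∀ i j, 0 ≤ b i j)
    (I : Finset (Fin n)) :
    Bv a I ≤ Bv b I + 2 * sm (fun i j => |a i j - b i j|) I := by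
  have hd : ∀ i j, (0:ℝ) ≤ (fun i j => |a i j - b i j|) i j := fun i j => abs_nonneg _
  have h0 := sm_nonneg _ hd I
  have h1 := Bv_nonneg b hb I
  conv_lhs => unfold Bv
  refine Real.iSup_le (fun J => ?_) (by positivity)
  obtain ⟨J, hJ, hne⟩ := J
  have hc : (0:ℝ) < J.card := by exact_mod_cast hne.card_pos
  have hc1 : (1:ℝ) ≤ J.card := by exact_mod_cast hne.card_pos
  show 2 * sm a J / J.card ≤ _
  rw [div_le_iff₀ hc]
  have h2 := two_sm_le_Bv b I J hJ hne
  have h3 := sm_le_add a b J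
  have h4 := sm_mono _ hd hJ
  have h5 : 2 * sm (fun i j => |a i j - b i j|) I ≤ 2 * sm (fun i j => |a i j - b i j|) I * J.card := by
    nlinarith
  linarith [add_mul (Bv b I) (2 * sm (fun i j => |a i j - b i j|) I) (J.card : ℝ)]

open Classical in
lemma sum_classes_le {n : ℕ} (f : Fin n → Fin n → ℝ) (hf : ∀ i j, 0 ≤ f i j)
    (p : Fin n → Fin n) :
    ∑ l : Fin n, ∑ i ∈ Finset.univ.filter (fun i => p i = l),
      ∑ j ∈ Finset.univ.filter (fun i => p i = l), f i j ≤ ∑ i, ∑ j, f i j := by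
  have h1 : ∀ l : Fin n, ∑ i ∈ Finset.univ.filter (fun i => p i = l),
      ∑ j ∈ Finset.univ.filter (fun i => p i = l), f i j
      ≤ ∑ i ∈ Finset.univ.filter (fun i => p i = l), ∑ j, f i j := by
    intro l
    refine Finset.sum_le_sum fun i _ => ?_
    exact Finset.sum_le_sum_of_subset_of_nonneg (Finset.filter_subset _ _) (fun j _ _ => hf i j)
  refine (Finset.sum_le_sum fun l _ => h1 l).trans ?_
  rw [Finset.sum_fiberwise]

open Classical in
lemma Fp_le_add {n : ℕ} (a b : Fin n → Fin n → ℝ) (hb : ∀ i j, 0 ≤ b i j) (M : ℝ)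
    (p : Fin n → Fin n) :
    Fp a M p ≤ Fp b M p + (1 / (n:ℝ)) * (2 * sm (fun i j => |a i j - b i j|) Finset.univ) := by
  have hd : ∀ i j, (0:ℝ) ≤ (if i < j then |a i j - b i j| else 0 : ℝ) := by
    intro i j
    split_ifs
    · exact abs_nonneg _
    · exact le_rfl
  have h1 := sum_classes_le (fun i j => if i < j then |a i j - b i j| else 0) hd p
  unfold Fp
  rw [← mul_add]
  refine mul_le_mul_of_nonneg_left ?_ (by positivity)
  have h2 : ∑ l : Fin n, sm (fun i j => |a i j - b i j|) (Finset.univ.filter (fun i => p i = l))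
      ≤ sm (fun i j => |a i j - b i j|) Finset.univ := by
    unfold sm
    exact h1
  have h3 : (∑ l : Fin n,
      if (Finset.univ.filter (fun i => p i = l)).Nonempty then
        M + Bv a (Finset.univ.filter (fun i => p i = l)) else 0)
      ≤ (∑ l : Fin n, if (Finset.univ.filter (fun i => p i = l)).Nonempty then
        M + Bv b (Finset.univ.filter (fun i => p i = l)) else 0)
        + 2 * ∑ l : Fin n, sm (fun i j => |a i j - b i j|)
            (Finset.univ.filter (fun i => p i = l)) := by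
    rw [Finset.mul_sum, ← Finset.sum_add_distrib]
    refine Finset.sum_le_sum fun l _ => ?_
    have h4 := Bv_le_add a b hb (Finset.univ.filter (fun i => p i = l))
    have h5 := sm_nonneg (fun i j => |a i j - b i j|) (fun i j => abs_nonneg _)
      (Finset.univ.filter (fun i => p i = l))
    split_ifs
    · linarith
    · linarith
  linarith

lemma Fstar_le {n : ℕ} (a : Fin n → Fin n → ℝ) (M : ℝ) (p : Fin n → Fin n) :
    Fstar a M ≤ Fp a M p := by
  unfold Fstar
  exact ciInf_le (Set.finite_range _).bddBelow p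

lemma Fstar_le_add {n : ℕ} (a b : Fin n → Fin n → ℝ) (hb : ∀ i j, 0 ≤ b i j) (M : ℝ) :
    Fstar a M ≤ Fstar b M +
      (1 / (n:ℝ)) * (2 * sm (fun i j => |a i j - b i j|) Finset.univ) := by
  haveI : Nonempty (Fin n → Fin n) := ⟨id⟩
  rw [← sub_le_iff_le_add]
  refine le_ciInf fun p => ?_
  have h1 := Fp_le_add a b hb M p
  have h2 := Fstar_le a M p
  linarith

lemma exists_Fstar_eq {n : ℕ} (a : Fin n → Fin n → ℝ) (M : ℝ) :
    ∃ p : Fin n → Fin n, Fp a M p = Fstar a M := by
  haveI : Nonempty (Fin n → Fin n) := ⟨id⟩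
  exact exists_eq_ciInf_of_finite

lemma sm_le_const {n : ℕ} (a : Fin n → Fin n → ℝ) (M : ℝ) (hM : 0 ≤ M) (ha : ∀ i j, a i j ≤ M) :
    sm a Finset.univ ≤ n * n * M := by
  unfold sm
  calc ∑ i : Fin n, ∑ j : Fin n, (if i < j then a i j else 0)
      ≤ ∑ i : Fin n, ∑ j : Fin n, M := by
        refine Finset.sum_le_sum fun i _ => Finset.sum_le_sum fun j _ => ?_
        split_ifs
        · exact ha i j
        · exact hM
    _ = n * n * M := by simp [mul_assoc]

/-- a bound on `Fstar` -/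
lemma abs_Fstar_le {n : ℕ} (a : Fin n → Fin n → ℝ) (M : ℝ) (hM : 0 ≤ M)
    (h0 : ∀ i j, 0 ≤ a i j) (ha : ∀ i j, a i j ≤ M) :
    |Fstar a M| ≤ |Fstar (n := n) (fun _ _ => 0) M| + (1 / (n:ℝ)) * (2 * (n * n * M)) := by
  have h1 := Fstar_le_add a (fun _ _ => 0) (fun _ _ => le_rfl) M
  have h2 := Fstar_le_add (fun _ _ => 0) a h0 M
  have h3 : sm (fun i j => |a i j - (0:ℝ)|) Finset.univ ≤ n * n * M := by
    refine sm_le_const _ M hM ?_
    intro i j
    rw [sub_zero, abs_of_nonneg (h0 i j)]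
    exact ha i j
  have h4 : sm (fun i j => |(0:ℝ) - a i j|) Finset.univ ≤ n * n * M := by
    refine sm_le_const _ M hM ?_
    intro i j
    rw [zero_sub, abs_neg, abs_of_nonneg (h0 i j)]
    exact ha i j
  have h5 : (1 / (n:ℝ)) * (2 * sm (fun i j => |a i j - (0:ℝ)|) Finset.univ)
      ≤ (1 / (n:ℝ)) * (2 * (n * n * M)) := by
    refine mul_le_mul_of_nonneg_left ?_ (by positivity)
    linarith
  have h6 : (1 / (n:ℝ)) * (2 * sm (fun i j => |(0:ℝ) - a i j|) Finset.univ)
      ≤ (1 / (n:ℝ)) * (2 * (n * n * M)) := by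
    refine mul_le_mul_of_nonneg_left ?_ (by positivity)
    linarith
  rw [abs_le]
  constructor
  · have := neg_abs_le (Fstar (n := n) (fun _ _ => 0) M)
    linarith
  · have := le_abs_self (Fstar (n := n) (fun _ _ => 0) M)
    linarith

open Classical in
lemma measurable_Fstar {n : ℕ} {Ω : Type*} [MeasurableSpace Ω] (A : Ω → Fin n → Fin n → ℝ)
    (hA : ∀ i j, Measurable (fun x => A x i j)) (M : ℝ) :
    Measurable (fun x => Fstar (A x) M) := by
  have hsm : ∀ J : Finset (Fin n), Measurable (fun x => sm (A x) J) := by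
    intro J
    unfold sm
    refine Finset.measurable_sum _ fun i _ => Finset.measurable_sum _ fun j _ => ?_
    split_ifs
    · exact hA i j
    · exact measurable_const
  have hBv : ∀ I : Finset (Fin n), Measurable (fun x => Bv (A x) I) := by
    intro I
    unfold Bv
    refine Measurable.iSup fun J => ?_
    exact ((hsm J.1).const_mul 2).div_const _
  unfold Fstar
  refine Measurable.iInf fun p => ?_
  unfold Fp
  refine Measurable.const_mul (Finset.measurable_sum _ fun l _ => ?_) _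
  split_ifs
  · exact (hBv _).const_add M
  · exact measurable_const

end Pool.Agent.H452R3.CHI.L1
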