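import Pool.Agent.H452R3.CHI.L1A

set_option autoImplicit false
open MeasureTheory Filter Topology

namespace Pool.Agent.H452R3.CHI.L1

/-- joint law of two coordinates -/
lemma map_pair {n : ℕ} (μ : Fin n → Measure ℝ) [∀ i, IsProbabilityMeasure (μ i)] {i j : Fin n}
    (hij : i ≠ j) :
    (Measure.pi μ).map (fun x => (x i, x j)) = (μ i).prod (μ j) := by
  have h1 : ProbabilityTheory.iIndepFun (fun (i : Fin n) (ω : Fin n → ℝ) => ω i)
      (Measure.pi μ) := by
    have := ProbabilityTheory.iIndepFun_pi (μ := μ) (X := fun _ (x : ℝ) => x)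
      (fun i => aemeasurable_id)
    exact this
  have h2 := h1.indepFun hij
  rw [ProbabilityTheory.indepFun_iff_map_prod_eq_prod_map_map
    (measurable_pi_apply i).aemeasurable (measurable_pi_apply j).aemeasurable] at h2
  have h3 : ∀ i : Fin n, (Measure.pi μ).map (fun x => x i) = μ i := fun i =>
    (measurePreserving_eval μ i).map_eq
  rw [h3 i, h3 j] at h2
  exact h2

lemma integral_pair {n : ℕ} (μ : Fin n → Measure ℝ) [∀ i, IsProbabilityMeasure (μ i)]
    {i j : Fin n} (hij : i ≠ j) (f : ℝ → ℝ → ℝ) (hf : Measurable (Function.uncurry f)) (B : ℝ)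
    (hB : ∀ x y, |f x y| ≤ B) :
    ∫ x, f (x i) (x j) ∂(Measure.pi μ) = ∫ x, ∫ y, f x y ∂(μ j) ∂(μ i) := by
  have h1 : ∫ x, f (x i) (x j) ∂(Measure.pi μ)
      = ∫ z, Function.uncurry f z ∂((Measure.pi μ).map (fun x => (x i, x j))) := by
    rw [integral_map]
    · rfl
    · exact ((measurable_pi_apply i).prodMk (measurable_pi_apply j)).aemeasurable
    · exact hf.aestronglyMeasurable
  rw [h1, map_pair μ hij, integral_prod]
  · rfl
  · exact Integrable.of_bound hf.aestronglyMeasurable B
      (Filter.Eventually.of_forall fun z => by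
        rw [Real.norm_eq_abs]; exact hB z.1 z.2)

/-- the measure `(1/|I|) Σ_{i ∈ I} U i` -/
noncomputable def av {n : ℕ} (U : Fin n → Measure ℝ) (I : Finset (Fin n)) : Measure ℝ :=
  (I.card : ENNReal)⁻¹ • ∑ i ∈ I, U i

lemma av_prob {n : ℕ} (U : Fin n → Measure ℝ) [∀ i, IsProbabilityMeasure (U i)]
    (I : Finset (Fin n)) (hI : I.Nonempty) : IsProbabilityMeasure (av U I) := by
  constructor
  unfold av
  rw [Measure.smul_apply, Measure.finsetSum_apply]
  simp only [measure_univ, Finset.sum_const, nsmul_eq_mul, mul_one, smul_eq_mul]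
  refine ENNReal.inv_mul_cancel ?_ ?_
  · exact_mod_cast hI.card_pos.ne'
  · exact ENNReal.natCast_ne_top _

lemma av_apply {n : ℕ} (U : Fin n → Measure ℝ) [∀ i, IsProbabilityMeasure (U i)]
    (I : Finset (Fin n)) (S : Set ℝ) :
    ((av U I) S).toReal = (I.card : ℝ)⁻¹ * ∑ i ∈ I, ((U i) S).toReal := by
  unfold av
  rw [Measure.smul_apply, Measure.finsetSum_apply, smul_eq_mul, ENNReal.toReal_mul,
    ENNReal.toReal_inv, ENNReal.toReal_natCast, ENNReal.toReal_sum]
  intro i _
  exact measure_ne_top _ _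

lemma integral_av {n : ℕ} (U : Fin n → Measure ℝ) [∀ i, IsProbabilityMeasure (U i)]
    (I : Finset (Fin n)) (S : Set ℝ) (hS : MeasurableSet S) (f : ℝ → ℝ) (hf : Measurable f)
    (B : ℝ) (hB : ∀ x, |f x| ≤ B) :
    ∫ x in S, f x ∂(av U I) = (I.card : ℝ)⁻¹ * ∑ i ∈ I, ∫ x in S, f x ∂(U i) := by
  rw [← integral_indicator hS]
  unfold av
  rw [integral_smul_measure, integral_finsetSum_measure]
  · rw [ENNReal.toReal_inv, ENNReal.toReal_natCast, smul_eq_mul]
    congr 1
    refine Finset.sum_congr rfl fun i _ => ?_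
    rw [integral_indicator hS]
  · intro i _
    refine Integrable.indicator ?_ hS
    exact Integrable.of_bound hf.aestronglyMeasurable B
      (Filter.Eventually.of_forall fun x => by rw [Real.norm_eq_abs]; exact hB x)

lemma meas_inner (g : ℝ → ℝ → ℝ) (hg : Measurable (Function.uncurry g)) (μ : Measure ℝ)
    [IsFiniteMeasure μ] (S : Set ℝ) : Measurable (fun x => ∫ y in S, g x y ∂μ) :=
  (hg.stronglyMeasurable.integral_prod_right (ν := μ.restrict S)).measurable

lemma abs_inner_le (g : ℝ → ℝ → ℝ) (M : ℝ) (h0 : ∀ x y, 0 ≤ g x y) (hM : ∀ x y, g x y ≤ M)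
    (μ : Measure ℝ) [IsProbabilityMeasure μ] (S : Set ℝ) (x : ℝ) :
    |∫ y in S, g x y ∂μ| ≤ M := by
  have hM0 : 0 ≤ M := (h0 0 0).trans (hM 0 0)
  have h1 : ‖∫ y in S, g x y ∂μ‖ ≤ M * (μ.real S) := by
    refine norm_setIntegral_le_of_norm_le_const (measure_lt_top _ _) ?_
    intro y _
    rw [Real.norm_eq_abs, abs_of_nonneg (h0 x y)]
    exact hM x y
  rw [Real.norm_eq_abs] at h1
  have h2 : μ.real S ≤ 1 := measureReal_le_one
  nlinarith [measureReal_nonneg (μ := μ) (s := S)]

lemma double_av {n : ℕ} (U : Fin n → Measure ℝ) [∀ i, IsProbabilityMeasure (U i)]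
    (I : Finset (Fin n)) (hI : I.Nonempty) (S : Set ℝ) (hS : MeasurableSet S)
    (g : ℝ → ℝ → ℝ) (hg : Measurable (Function.uncurry g))
    (M : ℝ) (h0 : ∀ x y, 0 ≤ g x y) (hM : ∀ x y, g x y ≤ M) :
    ∫ x in S, (∫ y in S, g x y ∂(av U I)) ∂(av U I)
      = (I.card : ℝ)⁻¹ * ((I.card : ℝ)⁻¹ *
        ∑ i ∈ I, ∑ j ∈ I, ∫ x in S, (∫ y in S, g x y ∂(U j)) ∂(U i)) := by
  haveI := av_prob U I hI
  have hgx : ∀ x, Measurable (g x) := fun x => hg.comp (measurable_const.prodMk measurable_id)
  rw [integral_av U I S hS _ (meas_inner g hg _ S) M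
    (fun x => abs_inner_le g M h0 hM _ S x)]
  congr 1
  rw [Finset.mul_sum]
  refine Finset.sum_congr rfl fun i _ => ?_
  have h1 : ∀ x, ∫ y in S, g x y ∂(av U I) = (I.card : ℝ)⁻¹ * ∑ j ∈ I, ∫ y in S, g x y ∂(U j) :=
    fun x => integral_av U I S hS (g x) (hgx x) M
      (fun y => by rw [abs_of_nonneg (h0 x y)]; exact hM x y)
  simp only [h1]
  rw [integral_const_mul, integral_finset_sum]
  intro j _
  exact Integrable.of_bound (meas_inner g hg _ S).aestronglyMeasurable M
      (Filter.Eventually.of_forall fun x => by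
        rw [Real.norm_eq_abs]; exact abs_inner_le g M h0 hM _ S x)

lemma rect_le_const (μ ν : Measure ℝ) [IsProbabilityMeasure μ] [IsProbabilityMeasure ν]
    (g : ℝ → ℝ → ℝ) (hg : Measurable (Function.uncurry g))
    (M : ℝ) (h0 : ∀ x y, 0 ≤ g x y) (hM : ∀ x y, g x y ≤ M) (S : Set ℝ) :
    ∫ x in S, (∫ y in S, g x y ∂ν) ∂μ ≤ (μ S).toReal * (ν S).toReal * M := by
  have hgx : ∀ x, Measurable (g x) := fun x => hg.comp (measurable_const.prodMk measurable_id)
  have h1 : ∀ x, ∫ y in S, g x y ∂ν ≤ (ν S).toReal * M := by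
    intro x
    calc ∫ y in S, g x y ∂ν ≤ ∫ y in S, M ∂ν := by
          refine integral_mono ?_ (integrable_const _) (fun y => hM x y)
          exact Integrable.of_bound (hgx x).aestronglyMeasurable M
            (Filter.Eventually.of_forall fun y => by
              rw [Real.norm_eq_abs, abs_of_nonneg (h0 x y)]; exact hM x y)
      _ = (ν S).toReal * M := by
          rw [setIntegral_const]; rfl
  calc ∫ x in S, (∫ y in S, g x y ∂ν) ∂μ ≤ ∫ x in S, ((ν S).toReal * M) ∂μ := by
        refine integral_mono ?_ (integrable_const _) (fun x => h1 x)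
        exact Integrable.of_bound (meas_inner g hg _ S).aestronglyMeasurable M
          (Filter.Eventually.of_forall fun x => by
            rw [Real.norm_eq_abs]; exact abs_inner_le g M h0 hM _ S x)
    _ = (μ S).toReal * (ν S).toReal * M := by
        rw [setIntegral_const, smul_eq_mul, mul_assoc]; rfl

lemma rect_le_step (μ ν : Measure ℝ) [IsProbabilityMeasure μ] [IsProbabilityMeasure ν]
    (g : ℝ → ℝ → ℝ) (hg : Measurable (Function.uncurry g))
    (M : ℝ) (h0 : ∀ x y, 0 ≤ g x y) (hM : ∀ x y, g x y ≤ M) (S : Set ℝ) (a : ℝ) (ha0 : 0 ≤ a)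
    (haM : a ≤ M) :
    ∫ x in S, (∫ y in S, g x y ∂ν) ∂μ ≤ (μ S).toReal * (ν S).toReal * a
      + ∫ x, (∫ y, |g x y - a| ∂ν) ∂μ := by
  have hgx : ∀ x, Measurable (g x) := fun x => hg.comp (measurable_const.prodMk measurable_id)
  have hd : Measurable (Function.uncurry (fun x y => |g x y - a|)) :=
    (hg.sub_const a).abs
  have hdx : ∀ x, Measurable (fun y => |g x y - a|) := fun x =>
    hd.comp (measurable_const.prodMk measurable_id)
  have hd0 : ∀ x y, 0 ≤ |g x y - a| := fun x y => abs_nonneg _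
  have hdM : ∀ x y, |g x y - a| ≤ M := by
    intro x y
    rw [abs_le]
    constructor
    · linarith [h0 x y]
    · linarith [hM x y]
  have i1 : ∀ (η : Measure ℝ) [IsFiniteMeasure η] (x : ℝ), Integrable (fun y => |g x y - a|) η :=
    fun η _ x => Integrable.of_bound (hdx x).aestronglyMeasurable M
      (Filter.Eventually.of_forall fun y => by
        rw [Real.norm_eq_abs, abs_of_nonneg (hd0 x y)]; exact hdM x y)
  have i2 : ∀ (η : Measure ℝ) [IsFiniteMeasure η], Integrable (fun x => ∫ y, |g x y - a| ∂ν) η := by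
    intro η _
    have hm := meas_inner (fun x y => |g x y - a|) hd ν Set.univ
    simp only [Measure.restrict_univ] at hm
    refine Integrable.of_bound hm.aestronglyMeasurable M
      (Filter.Eventually.of_forall fun x => ?_)
    rw [Real.norm_eq_abs]
    have := abs_inner_le (fun x y => |g x y - a|) M hd0 hdM ν Set.univ x
    simpa only [Measure.restrict_univ] using this
  have h1 : ∀ x, ∫ y in S, g x y ∂ν ≤ (ν S).toReal * a + ∫ y, |g x y - a| ∂ν := by
    intro x
    calc ∫ y in S, g x y ∂ν ≤ ∫ y in S, (a + |g x y - a|) ∂ν := by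
          refine integral_mono ?_ ((integrable_const _).add (i1 _ x))
            (fun y => by have := le_abs_self (g x y - a); show g x y ≤ a + |g x y - a|; linarith)
          exact Integrable.of_bound (hgx x).aestronglyMeasurable M
            (Filter.Eventually.of_forall fun y => by
              rw [Real.norm_eq_abs, abs_of_nonneg (h0 x y)]; exact hM x y)
      _ = (ν S).toReal * a + ∫ y in S, |g x y - a| ∂ν := by
          rw [integral_add (integrable_const _) (i1 _ x), setIntegral_const]; rfl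
      _ ≤ (ν S).toReal * a + ∫ y, |g x y - a| ∂ν := by
          have := setIntegral_le_integral (s := S) (i1 ν x)
            (Filter.Eventually.of_forall fun y => hd0 x y)
          linarith
  calc ∫ x in S, (∫ y in S, g x y ∂ν) ∂μ
      ≤ ∫ x in S, ((ν S).toReal * a + ∫ y, |g x y - a| ∂ν) ∂μ := by
        refine integral_mono ?_ ((integrable_const _).add (i2 _)) (fun x => h1 x)
        exact Integrable.of_bound (meas_inner g hg _ S).aestronglyMeasurable M
          (Filter.Eventually.of_forall fun x => by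
            rw [Real.norm_eq_abs]; exact abs_inner_le g M h0 hM _ S x)
    _ = (μ S).toReal * (ν S).toReal * a + ∫ x in S, (∫ y, |g x y - a| ∂ν) ∂μ := by
        rw [integral_add (integrable_const _) (i2 _), setIntegral_const, smul_eq_mul, mul_assoc]; rfl
    _ ≤ (μ S).toReal * (ν S).toReal * a + ∫ x, (∫ y, |g x y - a| ∂ν) ∂μ := by
        have := setIntegral_le_integral (s := S) (i2 μ)
          (Filter.Eventually.of_forall fun x => integral_nonneg fun y => hd0 x y)
        linarith

end Pool.Agent.H452R3.CHI.L1
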