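import Pool.Agent.H452R3.CHI.L1B

set_option autoImplicit false
open MeasureTheory Filter Topology

namespace Pool.Agent.H452R3.CHI.L1

open Classical in
lemma sum_ne_eq {n : ℕ} (a : Fin n → Fin n → ℝ) (hs : ∀ i j, a i j = a j i)
    (K : Finset (Fin n)) :
    ∑ i ∈ K, ∑ j ∈ K, (if i ≠ j then a i j else 0) = 2 * sm a K := by
  have h1 : ∀ i j : Fin n, (if i ≠ j then a i j else 0)
      = (if i < j then a i j else 0) + (if j < i then a j i else 0) := by
    intro i j
    rcases lt_trichotomy i j with h | h | h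
    · rw [if_pos h.ne, if_pos h, if_neg h.not_gt, add_zero]
    · subst h
      simp
    · rw [if_pos h.ne', if_neg h.not_gt, if_pos h, zero_add, hs]
  simp only [h1, Finset.sum_add_distrib]
  rw [two_mul]
  unfold sm
  congr 1
  rw [Finset.sum_comm]

open Classical in
/-- the quadratic form bound from TaskVertex -/
lemma quad_le (hV : TaskVertex) {n : ℕ} (I : Finset (Fin n)) (a : Fin n → Fin n → ℝ)
    (ha : ∀ i j, 0 ≤ a i j) (hs : ∀ i j, a i j = a j i) (s : Fin n → ℝ) (s0 : ∀ i, 0 ≤ s i)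
    (s1 : ∀ i, s i ≤ 1) :
    ∑ i ∈ I, ∑ j ∈ I, (if i ≠ j then s i * s j * a i j else 0) ≤ Bv a I * ∑ i ∈ I, s i := by
  have hB := Bv_nonneg a ha I
  have key := hV (Fin n) (fun _ => 1)
    (fun i j => if i ∈ I ∧ j ∈ I ∧ i ≠ j then a i j else 0) (Bv a I) 0
    (fun _ => zero_le_one) (fun i => by simp) ?_
    (fun i => if i ∈ I then s i else 0)
    (fun i => by show 0 ≤ (if i ∈ I then s i else 0); split_ifs; exacts [s0 i, le_rfl])
    (fun i => by show (if i ∈ I then s i else 0) ≤ 1; split_ifs; exacts [s1 i, zero_le_one])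
  · have h1 : ∑ i ∈ I, ∑ j ∈ I, (if i ≠ j then s i * s j * a i j else 0)
        = ∑ i : Fin n, ∑ j : Fin n, (if i ∈ I then s i else 0) * (if j ∈ I then s j else 0) *
          (1 * 1 * (if i ∈ I ∧ j ∈ I ∧ i ≠ j then a i j else 0)) := by
      have h4 : ∀ i j : Fin n, (if i ∈ I then s i else 0) * (if j ∈ I then s j else 0) *
          (1 * 1 * (if i ∈ I ∧ j ∈ I ∧ i ≠ j then a i j else 0))
          = if i ∈ I then (if j ∈ I then (if i ≠ j then s i * s j * a i j else 0) else 0) else 0 := by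
        intro i j
        by_cases h5 : i ∈ I <;> by_cases h6 : j ∈ I <;> by_cases h7 : i ≠ j <;>
          simp [h5, h6, h7]
      simp only [h4]
      have h8 : ∀ i : Fin n, ∑ j : Fin n,
          (if i ∈ I then (if j ∈ I then (if i ≠ j then s i * s j * a i j else 0) else 0) else 0)
          = if i ∈ I then ∑ j : Fin n, (if j ∈ I then (if i ≠ j then s i * s j * a i j else 0) else 0) else 0 := by
        intro i
        split_ifs
        · rfl
        · simp
      simp only [h8, Finset.sum_ite_mem, Finset.univ_inter]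
    have h2 : ∑ i ∈ I, s i = ∑ i : Fin n, (if i ∈ I then s i else 0) * 1 := by
      simp
    rw [h1, h2]
    linarith
  · intro S
    have h3 : ∑ i ∈ S, ∑ j ∈ S, (1:ℝ) * 1 * (if i ∈ I ∧ j ∈ I ∧ i ≠ j then a i j else 0)
        = 2 * sm a (S ∩ I) := by
      rw [← sum_ne_eq a hs]
      have h4 : ∀ i j : Fin n, (1:ℝ) * 1 * (if i ∈ I ∧ j ∈ I ∧ i ≠ j then a i j else 0)
          = if i ∈ I then (if j ∈ I then (if i ≠ j then a i j else 0) else 0) else 0 := by
        intro i j
        by_cases h5 : i ∈ I <;> by_cases h6 : j ∈ I <;> by_cases h7 : i ≠ j <;>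
          simp [h5, h6, h7]
      simp only [h4]
      have h8 : ∀ i : Fin n, ∑ j ∈ S,
          (if i ∈ I then (if j ∈ I then (if i ≠ j then a i j else 0) else 0) else 0)
          = if i ∈ I then ∑ j ∈ S, (if j ∈ I then (if i ≠ j then a i j else 0) else 0) else 0 := by
        intro i
        split_ifs
        · rfl
        · simp
      simp only [h8, Finset.sum_ite_mem]
    rw [h3]
    rcases (S ∩ I).eq_empty_or_nonempty with he | hne
    · rw [he]
      have : sm a ∅ = 0 := by simp [sm]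
      rw [this]
      have : 0 ≤ ∑ i ∈ S, (1:ℝ) := Finset.sum_nonneg fun _ _ => zero_le_one
      nlinarith
    · have h5 := two_sm_le_Bv a I (S ∩ I) Finset.inter_subset_right hne
      have h6 : ((S ∩ I).card : ℝ) ≤ ∑ i ∈ S, (1:ℝ) := by
        rw [Finset.sum_const, nsmul_eq_mul, mul_one]
        exact_mod_cast Finset.card_le_card Finset.inter_subset_left
      nlinarith

open Classical in
lemma phi_le (hV : TaskVertex) {n : ℕ} (g : ℝ → ℝ → ℝ) (M : ℝ)
    (hg : Measurable (Function.uncurry g)) (h0 : ∀ x y, 0 ≤ g x y) (hM : ∀ x y, g x y ≤ M)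
    (U : Fin n → Measure ℝ) [∀ i, IsProbabilityMeasure (U i)] (I : Finset (Fin n))
    (hI : I.Nonempty) (a : Fin n → Fin n → ℝ) (ha : ∀ i j, 0 ≤ a i j) (haM : ∀ i j, a i j ≤ M)
    (hs : ∀ i j, a i j = a j i) (e : Fin n → Fin n → ℝ)
    (he : ∀ i j, ∫ x, (∫ y, |g x y - a i j| ∂(U j)) ∂(U i) = e i j) :
    sSup (phiSet g (av U I)) ≤
      (I.card : ℝ)⁻¹ * (M + Bv a I + ∑ i ∈ I, ∑ j ∈ I, if i ≠ j then e i j else 0) := by
  have hM0 : 0 ≤ M := (h0 0 0).trans (hM 0 0)
  have hB := Bv_nonneg a ha I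
  have he0 : ∀ i j, 0 ≤ e i j := by
    intro i j
    rw [← he]
    exact integral_nonneg fun x => integral_nonneg fun y => abs_nonneg _
  have hm : (0:ℝ) < I.card := by exact_mod_cast hI.card_pos
  set E := ∑ i ∈ I, ∑ j ∈ I, (if i ≠ j then e i j else 0) with hE
  have hE0 : 0 ≤ E := by
    refine Finset.sum_nonneg fun i _ => Finset.sum_nonneg fun j _ => ?_
    split_ifs
    · exact he0 i j
    · exact le_rfl
  refine Real.sSup_le ?_ (by positivity)
  rintro r ⟨S, hS, hpos, rfl⟩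
  have hav := av_prob U I hI
  rw [double_av U I hI S hS g hg M h0 hM, av_apply]
  set s : Fin n → ℝ := fun i => ((U i) S).toReal with hsdef
  set σ := ∑ i ∈ I, s i with hσ
  have s0 : ∀ i, 0 ≤ s i := fun i => ENNReal.toReal_nonneg
  have s1 : ∀ i, s i ≤ 1 := fun i => measureReal_le_one (μ := U i) (s := S)
  have hσpos : 0 < σ := by
    have h1 : 0 < ((av U I) S).toReal :=
      ENNReal.toReal_pos hpos.ne' (measure_ne_top _ _)
    rw [av_apply] at h1
    have h2 : 0 < (I.card : ℝ)⁻¹ := by positivity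
    exact (mul_pos_iff_of_pos_left h2).1 h1
  set G : Fin n → Fin n → ℝ := fun i j => ∫ x in S, (∫ y in S, g x y ∂(U j)) ∂(U i) with hG
  have hG1 : ∀ i j, G i j ≤ s i * s j * M := fun i j => rect_le_const (U i) (U j) g hg M h0 hM S
  have hG2 : ∀ i j, G i j ≤ s i * s j * a i j + e i j := by
    intro i j
    have := rect_le_step (U i) (U j) g hg M h0 hM S (a i j) (ha i j) (haM i j)
    rw [he] at this
    exact this
  have goal1 : ∑ i ∈ I, ∑ j ∈ I, G i j ≤ σ * (M + Bv a I + E) := by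
    rcases le_or_gt σ 1 with h | h
    · have h1 : ∑ i ∈ I, ∑ j ∈ I, G i j ≤ ∑ i ∈ I, ∑ j ∈ I, s i * s j * M :=
        Finset.sum_le_sum fun i _ => Finset.sum_le_sum fun j _ => hG1 i j
      have h2 : ∑ i ∈ I, ∑ j ∈ I, s i * s j * M = σ * σ * M := by
        rw [hσ, Finset.sum_mul_sum, Finset.sum_mul]
        refine Finset.sum_congr rfl fun i _ => ?_
        rw [Finset.sum_mul]
      have h3 : σ * σ * M ≤ σ * M := by nlinarith [mul_nonneg hσpos.le hM0]
      have h4 : 0 ≤ σ * (Bv a I + E) := by positivity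
      nlinarith
    · have h1 : ∑ i ∈ I, ∑ j ∈ I, G i j
          ≤ ∑ i ∈ I, ∑ j ∈ I, ((if i ≠ j then s i * s j * a i j else 0)
            + (if i ≠ j then e i j else 0) + (if i = j then s i * M else 0)) := by
        refine Finset.sum_le_sum fun i _ => Finset.sum_le_sum fun j _ => ?_
        by_cases hij : i = j
        · subst hij
          simp only [ne_eq, not_true_eq_false, if_false, if_true, zero_add]
          refine (hG1 i i).trans ?_
          have := mul_nonneg (s0 i) hM0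
          nlinarith [s1 i]
        · simp only [ne_eq, hij, not_false_eq_true, if_true, if_false, add_zero]
          exact hG2 i j
      have h2 : ∑ i ∈ I, ∑ j ∈ I, ((if i ≠ j then s i * s j * a i j else 0)
            + (if i ≠ j then e i j else 0) + (if i = j then s i * M else 0))
          = ∑ i ∈ I, ∑ j ∈ I, (if i ≠ j then s i * s j * a i j else 0) + E + σ * M := by
        simp only [Finset.sum_add_distrib]
        congr 1
        rw [hσ, Finset.sum_mul]
        refine Finset.sum_congr rfl fun i hi => ?_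
        rw [Finset.sum_ite_eq, if_pos hi]
      have h3 := quad_le hV I a ha hs s s0 s1
      have h4 : E ≤ σ * E := by nlinarith
      calc ∑ i ∈ I, ∑ j ∈ I, G i j ≤ Bv a I * σ + E + σ * M := by linarith
        _ ≤ σ * (M + Bv a I + E) := by nlinarith
  calc ((I.card : ℝ)⁻¹ * σ)⁻¹ * ((I.card : ℝ)⁻¹ * ((I.card : ℝ)⁻¹ * ∑ i ∈ I, ∑ j ∈ I, G i j))
      = (I.card : ℝ)⁻¹ * (σ⁻¹ * ∑ i ∈ I, ∑ j ∈ I, G i j) := by
        field_simp
    _ ≤ (I.card : ℝ)⁻¹ * (M + Bv a I + E) := by
        refine mul_le_mul_of_nonneg_left ?_ (by positivity)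
        rw [inv_mul_le_iff₀ hσpos]
        exact goal1

lemma sSup_phiSet_nonneg (g : ℝ → ℝ → ℝ) (h0 : ∀ x y, 0 ≤ g x y) (μ : Measure ℝ) :
    0 ≤ sSup (phiSet g μ) := by
  refine Real.sSup_nonneg ?_
  rintro r ⟨S, _, _, rfl⟩
  exact mul_nonneg (by positivity) (integral_nonneg fun x => integral_nonneg fun y => h0 x y)

lemma PhiSet_bddBelow (g : ℝ → ℝ → ℝ) (h0 : ∀ x y, 0 ≤ g x y) : BddBelow (PhiSet g) := by
  refine ⟨0, ?_⟩
  rintro t ⟨k, ν, α, _, _, hα, _, _, rfl⟩
  exact Finset.sum_nonneg fun i _ => mul_nonneg (hα i) (sSup_phiSet_nonneg g h0 _)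

/-- membership in `PhiSet` for a general finite index type -/
lemma mem_PhiSet {ι : Type*} [Fintype ι] (g : ℝ → ℝ → ℝ) (ν : ι → Measure ℝ) (α : ι → ℝ)
    (h1 : ∀ i, IsProbabilityMeasure (ν i)) (h2 : ∀ i, ν i (Set.Icc (0:ℝ) 1)ᶜ = 0)
    (h3 : ∀ i, 0 ≤ α i) (h4 : ∑ i, α i = 1)
    (h5 : ∑ i, ENNReal.ofReal (α i) • ν i = volume.restrict (Set.Icc (0:ℝ) 1)) :
    ∑ i, α i * sSup (phiSet g (ν i)) ∈ PhiSet g := by
  classical
  let e := Fintype.equivFin ι
  refine ⟨Fintype.card ι, fun k => ν (e.symm k), fun k => α (e.symm k), fun k => h1 _,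
    fun k => h2 _, fun k => h3 _, ?_, ?_, ?_⟩
  · rw [← h4]
    exact Equiv.sum_comp e.symm α
  · rw [← h5]
    exact Equiv.sum_comp e.symm (fun i => ENNReal.ofReal (α i) • ν i)
  · exact (Equiv.sum_comp e.symm (fun i => α i * sSup (phiSet g (ν i)))).symm

end Pool.Agent.H452R3.CHI.L1
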