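import Pool.Agent.H452R3.CHI.L1C

set_option autoImplicit false
open MeasureTheory Filter Topology

namespace Pool.Agent.H452R3.CHI.L1

/-- the cell `[k/q, (k+1)/q)` -/
def cell (q : ℕ) (k : ℕ) : Set ℝ := Set.Ico ((k:ℝ) / q) (((k:ℝ) + 1) / q)

lemma mem_cell {q : ℕ} (hq : 1 ≤ q) (k : ℕ) (x : ℝ) :
    x ∈ cell q k ↔ 0 ≤ x ∧ cidx q x = k := by
  have hq0 : (0:ℝ) < q := by exact_mod_cast hq
  unfold cell cidx
  rw [Set.mem_Ico, div_le_iff₀ hq0, lt_div_iff₀ hq0]
  constructor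
  · rintro ⟨h1, h2⟩
    have h3 : 0 ≤ x := by
      by_contra h
      push Not at h
      have : x * q < 0 := mul_neg_of_neg_of_pos h hq0
      have : (0:ℝ) ≤ k := Nat.cast_nonneg k
      linarith
    refine ⟨h3, ?_⟩
    rw [Nat.floor_eq_iff (by positivity)]
    constructor <;> linarith [mul_comm x (q:ℝ)]
  · rintro ⟨h3, h4⟩
    rw [Nat.floor_eq_iff (by positivity)] at h4
    constructor <;> linarith [mul_comm x (q:ℝ), h4.1, h4.2]

lemma meas_cell (q k : ℕ) : MeasurableSet (cell q k) := measurableSet_Ico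

lemma cell_disjoint {q : ℕ} (hq : 1 ≤ q) {k l : ℕ} (h : k ≠ l) : Disjoint (cell q k) (cell q l) := by
  rw [Set.disjoint_left]
  intro x h1 h2
  rw [mem_cell hq] at h1 h2
  exact h (h1.2.symm.trans h2.2)

lemma iUnion_cell {q : ℕ} (hq : 1 ≤ q) : (⋃ k : Fin q, cell q k) = Set.Ico (0:ℝ) 1 := by
  have hq0 : (0:ℝ) < q := by exact_mod_cast hq
  ext x
  rw [Set.mem_iUnion, Set.mem_Ico]
  constructor
  · rintro ⟨k, hk⟩
    have h1 := (mem_cell hq k x).1 hk
    refine ⟨h1.1, ?_⟩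
    have h2 := hk.2
    have h3 : ((k:ℝ) + 1) / q ≤ 1 := by
      rw [div_le_one hq0]
      exact_mod_cast k.2
    linarith
  · rintro ⟨h1, h2⟩
    have h3 : cidx q x < q := by
      unfold cidx
      rw [Nat.floor_lt (by positivity)]
      nlinarith
    exact ⟨⟨cidx q x, h3⟩, (mem_cell hq _ x).2 ⟨h1, rfl⟩⟩

/-- uniform measure on a cell -/
noncomputable def Uc (q k : ℕ) : Measure ℝ := (q : ENNReal) • volume.restrict (cell q k)

lemma vol_cell {q : ℕ} (hq : 1 ≤ q) (k : ℕ) : volume (cell q k) = (q : ENNReal)⁻¹ := by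
  have hq0 : (0:ℝ) < q := by exact_mod_cast hq
  unfold cell
  rw [Real.volume_Ico]
  have : ((k:ℝ) + 1) / q - k / q = (q:ℝ)⁻¹ := by field_simp; ring
  rw [this, ENNReal.ofReal_inv_of_pos hq0, ENNReal.ofReal_natCast]

lemma Uc_prob {q : ℕ} (hq : 1 ≤ q) (k : ℕ) : IsProbabilityMeasure (Uc q k) := by
  constructor
  unfold Uc
  rw [Measure.smul_apply, Measure.restrict_apply_univ, vol_cell hq, smul_eq_mul]
  refine ENNReal.mul_inv_cancel ?_ (ENNReal.natCast_ne_top _)
  exact_mod_cast (Nat.pos_of_ne_zero (by omega)).ne'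

lemma Uc_ae {q : ℕ} (hq : 1 ≤ q) (k : ℕ) : ∀ᵐ x ∂(Uc q k), cidx q x = k := by
  have h1 : ∀ᵐ x ∂(volume.restrict (cell q k)), cidx q x = k := by
    rw [ae_restrict_iff' (meas_cell q k)]
    exact Filter.Eventually.of_forall fun x hx => ((mem_cell hq k x).1 hx).2
  unfold Uc
  exact Measure.ae_smul_measure h1 _

lemma Uc_compl {q : ℕ} (hq : 1 ≤ q) (k : Fin q) : Uc q k (Set.Icc (0:ℝ) 1)ᶜ = 0 := by
  unfold Uc
  rw [Measure.smul_apply, Measure.restrict_apply measurableSet_Icc.compl]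
  have : (Set.Icc (0:ℝ) 1)ᶜ ∩ cell q k = ∅ := by
    rw [Set.eq_empty_iff_forall_notMem]
    rintro x ⟨h1, h2⟩
    have h3 : x ∈ ⋃ k : Fin q, cell q k := Set.mem_iUnion.2 ⟨k, h2⟩
    rw [iUnion_cell hq] at h3
    exact h1 ⟨h3.1, h3.2.le⟩
  rw [this]
  simp

lemma sum_Uc {q : ℕ} (hq : 1 ≤ q) (S : Set ℝ) :
    ∑ k : Fin q, (q : ENNReal)⁻¹ * Uc q k S = (volume.restrict (Set.Icc (0:ℝ) 1)) S := by
  have h1 : ∀ k : Fin q, (q : ENNReal)⁻¹ * Uc q k S = (volume.restrict (cell q k)) S := by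
    intro k
    unfold Uc
    rw [Measure.smul_apply, smul_eq_mul, ← mul_assoc, ENNReal.inv_mul_cancel, one_mul]
    · exact_mod_cast (Nat.pos_of_ne_zero (by omega)).ne'
    · exact ENNReal.natCast_ne_top _
  simp only [h1]
  have h2 : (volume : Measure ℝ).restrict (Set.Icc (0:ℝ) 1) = volume.restrict (Set.Ico (0:ℝ) 1) :=
    (Measure.restrict_congr_set Ico_ae_eq_Icc).symm
  rw [h2, ← iUnion_cell hq, Measure.restrict_iUnion, Measure.sum_fintype, Measure.finsetSum_apply]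
  · intro k l hkl
    exact cell_disjoint hq (fun h => hkl (Fin.ext h))
  · exact fun k => meas_cell q k

/-- decomposition of the law of the types into cells -/
lemma typ_eq {q : ℕ} (hq : 1 ≤ q) (n : ℕ) :
    typ n = ∑ c : Fin n → Fin q, ((q : ENNReal)⁻¹) ^ n • Measure.pi (fun i => Uc q (c i)) := by
  have hU : ∀ k, IsProbabilityMeasure (Uc q k) := Uc_prob hq
  unfold typ
  refine Measure.pi_eq fun s hs => ?_
  rw [Measure.finsetSum_apply]
  have h1 : ∀ c : Fin n → Fin q,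
      (((q : ENNReal)⁻¹) ^ n • Measure.pi (fun i => Uc q (c i))) (Set.univ.pi s)
      = ∏ i, ((q : ENNReal)⁻¹ * Uc q (c i) (s i)) := by
    intro c
    rw [Measure.smul_apply, Measure.pi_pi, smul_eq_mul, Finset.prod_mul_distrib]
    simp
  simp only [h1]
  have h2 := Finset.prod_univ_sum (fun _ : Fin n => (Finset.univ : Finset (Fin q)))
    (fun (i : Fin n) (k : Fin q) => (q : ENNReal)⁻¹ * Uc q k (s i))
  rw [Fintype.piFinset_univ] at h2
  rw [← h2]
  refine Finset.prod_congr rfl fun i _ => ?_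
  exact sum_Uc hq (s i)

lemma integral_typ {q : ℕ} (hq : 1 ≤ q) (n : ℕ) (F : (Fin n → ℝ) → ℝ) (hF : Measurable F) (B : ℝ)
    (hB : ∀ x, |F x| ≤ B) :
    ∫ x, F x ∂(typ n) = ∑ c : Fin n → Fin q, ((q:ℝ)⁻¹) ^ n *
      ∫ x, F x ∂(Measure.pi (fun i => Uc q (c i))) := by
  have hU : ∀ k, IsProbabilityMeasure (Uc q k) := Uc_prob hq
  have hqt : ((q : ENNReal)⁻¹) ^ n ≠ ⊤ := by
    refine ENNReal.pow_ne_top ?_
    rw [ENNReal.inv_ne_top]
    exact_mod_cast (Nat.pos_of_ne_zero (by omega)).ne'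
  rw [typ_eq hq n, integral_finsetSum_measure]
  · refine Finset.sum_congr rfl fun c _ => ?_
    rw [integral_smul_measure, ENNReal.toReal_pow, ENNReal.toReal_inv, ENNReal.toReal_natCast,
      smul_eq_mul]
  · intro c _
    refine Integrable.smul_measure ?_ hqt
    exact Integrable.of_bound hF.aestronglyMeasurable B
      (Filter.Eventually.of_forall fun x => by rw [Real.norm_eq_abs]; exact hB x)

/-- the marginal: averaging the cells of one coordinate -/
lemma marginal {q : ℕ} (hq : 1 ≤ q) (n : ℕ) (i : Fin n) (S : Set ℝ) (hS : MeasurableSet S) :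
    ∑ c : Fin n → Fin q, ((q : ENNReal)⁻¹) ^ n * Uc q (c i) S
      = (volume.restrict (Set.Icc (0:ℝ) 1)) S := by
  have hU : ∀ k, IsProbabilityMeasure (Uc q k) := Uc_prob hq
  haveI : IsProbabilityMeasure ((volume : Measure ℝ).restrict (Set.Icc (0:ℝ) 1)) := by
    constructor
    simp
  have h1 := (measurePreserving_eval
    (fun _ : Fin n => (volume : Measure ℝ).restrict (Set.Icc (0:ℝ) 1)) i).measure_preimage
    hS.nullMeasurableSet
  rw [← h1]
  change _ = (typ n) _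
  rw [typ_eq hq n, Measure.finsetSum_apply]
  refine Finset.sum_congr rfl fun c _ => ?_
  rw [Measure.smul_apply, smul_eq_mul]
  congr 1
  exact ((measurePreserving_eval (fun i => Uc q (c i)) i).measure_preimage
    hS.nullMeasurableSet).symm

end Pool.Agent.H452R3.CHI.L1
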