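import Mathlib
import Pool.Agent.H452R3.CHI.Stmts

/-! Project H452-CHI, task Count: double counting for sets with prescribed intersection sizes. -/

set_option autoImplicit false

namespace Pool.Agent.H452R3.CHI

open Classical in
lemma tc_mem_fam {n q : ℕ} (U : Fin q → Finset (Fin n)) (m : Fin q → ℕ) (I : Finset (Fin n)) :
    I ∈ fam U m ↔ (∀ c, (I ∩ U c).card = m c) ∧ I ⊆ Finset.univ.biUnion U := by
  unfold fam
  rw [Finset.mem_filter]
  simp

open Classical in
lemma tc_nonempty {n q : ℕ} (U : Fin q → Finset (Fin n)) (m : Fin q → ℕ)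
    (hd : ∀ c d, c ≠ d → Disjoint (U c) (U d)) (hm : ∀ c, m c ≤ (U c).card) :
    (fam U m).Nonempty := by
  choose J hJ1 hJ2 using fun c => Finset.exists_subset_card_eq (hm c)
  refine ⟨Finset.univ.biUnion J, (tc_mem_fam U m _).2 ⟨?_, ?_⟩⟩
  · intro c
    rw [← hJ2 c]
    congr 1
    ext x
    rw [Finset.mem_inter, Finset.mem_biUnion]
    constructor
    · rintro ⟨⟨d, _, hxd⟩, hxc⟩
      by_cases hcd : c = d
      · subst hcd; exact hxd
      · exact absurd (hJ1 d hxd) (Finset.disjoint_left.1 (hd c d hcd) hxc)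
    · intro hx
      exact ⟨⟨c, Finset.mem_univ _, hx⟩, hJ1 c hx⟩
  · exact Finset.biUnion_mono fun c _ => hJ1 c

/-- a permutation that preserves all the sets preserves the family -/
lemma tc_perm_fam {n q : ℕ} (U : Fin q → Finset (Fin n)) (m : Fin q → ℕ) (σ : Equiv.Perm (Fin n))
    (hσ : ∀ d, (U d).map σ.toEmbedding = U d) (I : Finset (Fin n)) (hI : I ∈ fam U m) :
    I.map σ.toEmbedding ∈ fam U m := by
  classical
  rw [tc_mem_fam] at hI ⊢
  refine ⟨fun c => ?_, ?_⟩
  · rw [← hI.1 c]
    conv_lhs => rw [← hσ c]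
    rw [← Finset.map_inter, Finset.card_map]
  · intro x hx
    rw [Finset.mem_map] at hx
    obtain ⟨y, hy, rfl⟩ := hx
    have h1 := hI.2 hy
    rw [Finset.mem_biUnion] at h1 ⊢
    obtain ⟨d, hd, hyd⟩ := h1
    refine ⟨d, hd, ?_⟩
    rw [← hσ d]
    exact Finset.mem_map_of_mem _ hyd

lemma tc_swap_map {n q : ℕ} (U : Fin q → Finset (Fin n))
    (hd : ∀ c d, c ≠ d → Disjoint (U c) (U d)) (c : Fin q) (v w : Fin n) (hv : v ∈ U c)
    (hw : w ∈ U c) (d : Fin q) : (U d).map (Equiv.swap v w).toEmbedding = U d := by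
  classical
  ext x
  rw [Finset.mem_map_equiv, Equiv.symm_swap]
  by_cases hcd : c = d
  · subst hcd
    by_cases h1 : x = v
    · subst h1; simp [hv, hw]
    · by_cases h2 : x = w
      · subst h2; simp [hv, hw]
      · rw [Equiv.swap_apply_of_ne_of_ne h1 h2]
  · have hvd : v ∉ U d := Finset.disjoint_left.1 (hd c d hcd) hv
    have hwd : w ∉ U d := Finset.disjoint_left.1 (hd c d hcd) hw
    by_cases h1 : x = v
    · subst h1; simp [hvd, hwd]
    · by_cases h2 : x = w
      · subst h2; simp [hvd, hwd]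
      · rw [Equiv.swap_apply_of_ne_of_ne h1 h2]

open Classical in
lemma tc_swap_le {n q : ℕ} (U : Fin q → Finset (Fin n)) (m : Fin q → ℕ)
    (hd : ∀ c d, c ≠ d → Disjoint (U c) (U d)) (c : Fin q) (v w : Fin n) (hv : v ∈ U c)
    (hw : w ∈ U c) (K : Finset (Fin n)) (hvK : v ∉ K) (hwK : w ∉ K) :
    ((fam U m).filter (fun I => insert v K ⊆ I)).card
      ≤ ((fam U m).filter (fun I => insert w K ⊆ I)).card := by
  apply Finset.card_le_card_of_injOn (fun I => I.map (Equiv.swap v w).toEmbedding)
  · intro I hI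
    rw [Finset.mem_coe, Finset.mem_filter] at hI ⊢
    refine ⟨tc_perm_fam U m _ (tc_swap_map U hd c v w hv hw) I hI.1, ?_⟩
    intro x hx
    rw [Finset.mem_map_equiv, Equiv.symm_swap]
    rw [Finset.mem_insert] at hx
    rcases hx with rfl | hx
    · rw [Equiv.swap_apply_right]
      exact hI.2 (Finset.mem_insert_self _ _)
    · have h1 : x ≠ v := fun h => hvK (h ▸ hx)
      have h2 : x ≠ w := fun h => hwK (h ▸ hx)
      rw [Equiv.swap_apply_of_ne_of_ne h1 h2]
      exact hI.2 (Finset.mem_insert_of_mem hx)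
  · intro I _ J _ hIJ
    exact Finset.map_injective _ hIJ

open Classical in
lemma tc_double {n q : ℕ} (U : Fin q → Finset (Fin n)) (m : Fin q → ℕ)
    (hd : ∀ c d, c ≠ d → Disjoint (U c) (U d)) (c : Fin q) (v : Fin n) (hv : v ∈ U c)
    (K : Finset (Fin n)) (hvK : v ∉ K) :
    (U c \ K).card * ((fam U m).filter (fun I => insert v K ⊆ I)).card
      = (m c - (K ∩ U c).card) * ((fam U m).filter (fun I => K ⊆ I)).card := by
  have h1 : ∑ w ∈ U c \ K, ((fam U m).filter (fun I => insert w K ⊆ I)).card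
      = (U c \ K).card * ((fam U m).filter (fun I => insert v K ⊆ I)).card := by
    rw [Finset.sum_const_nat]
    intro w hw
    rw [Finset.mem_sdiff] at hw
    exact le_antisymm (tc_swap_le U m hd c w v hw.1 hv K hw.2 hvK)
      (tc_swap_le U m hd c v w hv hw.1 K hvK hw.2)
  rw [← h1]
  have h2 : ∀ w ∈ U c \ K, ((fam U m).filter (fun I => insert w K ⊆ I)).card
      = ∑ I ∈ (fam U m).filter (fun I => K ⊆ I), if w ∈ I then 1 else 0 := by
    intro w _
    rw [← Finset.card_filter, Finset.filter_filter]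
    congr 1
    apply Finset.filter_congr
    intro I _
    rw [Finset.insert_subset_iff]
    tauto
  rw [Finset.sum_congr rfl h2, Finset.sum_comm]
  rw [mul_comm, ← smul_eq_mul, ← Finset.sum_const]
  apply Finset.sum_congr rfl
  intro I hI
  rw [Finset.mem_filter, tc_mem_fam] at hI
  rw [← Finset.card_filter, ← hI.1.1 c]
  have h3 : (U c \ K).filter (fun w => w ∈ I) = (I ∩ U c) \ (K ∩ U c) := by
    ext x
    simp only [Finset.mem_filter, Finset.mem_sdiff, Finset.mem_inter]
    tauto
  rw [h3, Finset.card_sdiff_of_subset]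
  exact Finset.inter_subset_inter_right hI.2

open Classical in
lemma tc_step {n q : ℕ} (U : Fin q → Finset (Fin n)) (m : Fin q → ℕ) (θ : ℝ)
    (hd : ∀ c d, c ≠ d → Disjoint (U c) (U d)) (hm : ∀ c, m c ≤ (U c).card)
    (hθ : ∀ c, (m c : ℝ) ≤ θ * (U c).card) (hθ0 : 0 ≤ θ)
    (K : Finset (Fin n)) (v : Fin n) (hvK : v ∉ K) :
    (((fam U m).filter (fun I => insert v K ⊆ I)).card : ℝ)
      ≤ θ * (((fam U m).filter (fun I => K ⊆ I)).card : ℝ) := by
  by_cases hv : ∃ c, v ∈ U c
  · obtain ⟨c, hv⟩ := hv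
    by_cases hne : ((fam U m).filter (fun I => K ⊆ I)).Nonempty
    · obtain ⟨I, hI⟩ := hne
      rw [Finset.mem_filter, tc_mem_fam] at hI
      have hk : (K ∩ U c).card ≤ m c := by
        rw [← hI.1.1 c]
        exact Finset.card_le_card (Finset.inter_subset_inter_right hI.2)
      have hu : (U c \ K).card + (K ∩ U c).card = (U c).card := by
        rw [Finset.inter_comm]
        exact Finset.card_sdiff_add_card_inter _ _
      have hpos : 0 < (U c \ K).card := Finset.card_pos.2 ⟨v, Finset.mem_sdiff.2 ⟨hv, hvK⟩⟩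
      have hdc := tc_double U m hd c v hv K hvK
      have hdc' : ((U c \ K).card : ℝ) * (((fam U m).filter (fun I => insert v K ⊆ I)).card : ℝ)
          = ((m c : ℝ) - ((K ∩ U c).card : ℝ)) * (((fam U m).filter (fun I => K ⊆ I)).card : ℝ) := by
        rw [← Nat.cast_sub hk]
        exact_mod_cast hdc
      have hposR : (0 : ℝ) < ((U c \ K).card : ℝ) := by exact_mod_cast hpos
      have huR : ((U c \ K).card : ℝ) + ((K ∩ U c).card : ℝ) = ((U c).card : ℝ) := by
        exact_mod_cast hu
      have hmR : (m c : ℝ) ≤ ((U c).card : ℝ) := by exact_mod_cast hm c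
      have hle : (m c : ℝ) - ((K ∩ U c).card : ℝ) ≤ θ * ((U c \ K).card : ℝ) := by
        have h1 := hθ c
        have h2 : (0 : ℝ) ≤ ((K ∩ U c).card : ℝ) := Nat.cast_nonneg _
        rcases le_total θ 1 with h | h
        · have e : θ * ((U c \ K).card : ℝ) = θ * ((U c).card : ℝ) - θ * ((K ∩ U c).card : ℝ) := by
            rw [← huR]; ring
          rw [e]
          nlinarith
        · nlinarith
      have hN : (0 : ℝ) ≤ (((fam U m).filter (fun I => K ⊆ I)).card : ℝ) := Nat.cast_nonneg _
      have h5 : ((U c \ K).card : ℝ) * (((fam U m).filter (fun I => insert v K ⊆ I)).card : ℝ)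
          ≤ ((U c \ K).card : ℝ) * (θ * (((fam U m).filter (fun I => K ⊆ I)).card : ℝ)) := by
        rw [hdc']
        calc ((m c : ℝ) - ((K ∩ U c).card : ℝ)) * (((fam U m).filter (fun I => K ⊆ I)).card : ℝ)
            ≤ (θ * ((U c \ K).card : ℝ)) * (((fam U m).filter (fun I => K ⊆ I)).card : ℝ) :=
              mul_le_mul_of_nonneg_right hle hN
          _ = _ := by ring
      exact le_of_mul_le_mul_left h5 hposR
    · have h0 : ((fam U m).filter (fun I => insert v K ⊆ I)) = ∅ := by
        rw [Finset.eq_empty_iff_forall_notMem]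
        intro I hI
        rw [Finset.mem_filter] at hI
        exact hne ⟨I, Finset.mem_filter.2 ⟨hI.1, (Finset.subset_insert v K).trans hI.2⟩⟩
      rw [h0]
      simp only [Finset.card_empty, Nat.cast_zero]
      positivity
  · have h0 : ((fam U m).filter (fun I => insert v K ⊆ I)) = ∅ := by
      rw [Finset.eq_empty_iff_forall_notMem]
      intro I hI
      rw [Finset.mem_filter, tc_mem_fam] at hI
      have h1 := hI.1.2 (hI.2 (Finset.mem_insert_self v K))
      rw [Finset.mem_biUnion] at h1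
      obtain ⟨c, _, hc⟩ := h1
      exact hv ⟨c, hc⟩
    rw [h0]
    simp only [Finset.card_empty, Nat.cast_zero]
    positivity

theorem taskCount : TaskCount := by
  classical
  intro n q U m θ hd hm hθ hθ0
  refine ⟨tc_nonempty U m hd hm, ?_⟩
  intro K
  induction K using Finset.induction_on with
  | empty => simp
  | insert v K hvK ih =>
    rw [Finset.card_insert_of_notMem hvK, pow_succ]
    refine (tc_step U m θ hd hm hθ hθ0 K v hvK).trans ?_
    calc θ * (((fam U m).filter (fun I => K ⊆ I)).card : ℝ)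
        ≤ θ * (θ ^ K.card * ((fam U m).card : ℝ)) := mul_le_mul_of_nonneg_left ih hθ0
      _ = _ := by ring

end Pool.Agent.H452R3.CHI
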