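import Pool.Agent.H452R3.CHI.Stmts

set_option autoImplicit false
open MeasureTheory Filter Topology

namespace Pool.Agent.H452R3.CHI.FM

/-- the pairs `i < j` -/
abbrev Prs (n : ℕ) : Type := {p : Fin n × Fin n // p.1 < p.2}

open Classical in
/-- graphs as functions on the pairs `i < j` -/
noncomputable def eqv (n : ℕ) : SimpleGraph (Fin n) ≃ (Prs n → Bool) where
  toFun G := fun p => decide (G.Adj p.1.1 p.1.2)
  invFun f :=
    { Adj := fun i j => (∃ h : i < j, f ⟨(i, j), h⟩ = true) ∨ (∃ h : j < i, f ⟨(j, i), h⟩ = true)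
      symm := ⟨fun i j h => h.symm⟩
      loopless := ⟨fun i h => by
        rcases h with ⟨h, -⟩ | ⟨h, -⟩ <;> exact absurd h (lt_irrefl _)⟩ }
  left_inv G := by
    ext i j
    constructor
    · rintro (⟨h, hf⟩ | ⟨h, hf⟩)
      · simpa using hf
      · have := of_decide_eq_true hf
        exact this.symm
    · intro h
      rcases lt_trichotomy i j with hij | hij | hij
      · exact Or.inl ⟨hij, by simpa using h⟩
      · exact absurd (hij ▸ h) (by simp)
      · exact Or.inr ⟨hij, by simpa using h.symm⟩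
  right_inv f := by
    funext p
    obtain ⟨⟨i, j⟩, hij⟩ := p
    have : ((∃ h : i < j, f ⟨(i, j), h⟩ = true) ∨ (∃ h : j < i, f ⟨(j, i), h⟩ = true)) ↔
        f ⟨(i, j), hij⟩ = true := by
      constructor
      · rintro (⟨h, hf⟩ | ⟨h, -⟩)
        · exact hf
        · exact absurd h (not_lt.2 hij.le)
      · intro h; exact Or.inl ⟨hij, h⟩
    by_cases hf : f ⟨(i, j), hij⟩ = true
    · rw [hf]
      exact @decide_eq_true _ (Classical.propDecidable _) (this.2 hf)
    · have hf' : f ⟨(i, j), hij⟩ = false := by simpa using hf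
      rw [hf']
      have h9 := fun h => hf (this.1 h)
      exact @decide_eq_false _ (Classical.propDecidable _) h9

open Classical in
lemma sum_graph {n : ℕ} (h : Prs n → Bool → ℝ) :
    ∑ G : SimpleGraph (Fin n), ∏ p : Prs n, h p (decide (G.Adj p.1.1 p.1.2)) =
      ∏ p : Prs n, (h p true + h p false) := by
  have h1 : ∑ G : SimpleGraph (Fin n), ∏ p : Prs n, h p (decide (G.Adj p.1.1 p.1.2)) =
      ∑ f : Prs n → Bool, ∏ p : Prs n, h p (f p) :=
    Equiv.sum_comp (eqv n) (fun f : Prs n → Bool => ∏ p : Prs n, h p (f p))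
  rw [h1]
  have h2 := Finset.prod_univ_sum (fun _ : Prs n => (Finset.univ : Finset Bool)) h
  rw [Fintype.piFinset_univ] at h2
  rw [← h2]
  refine Finset.prod_congr rfl fun p _ => ?_
  simp

lemma prod_pairs {n : ℕ} (g : Fin n → Fin n → ℝ) :
    (∏ i : Fin n, ∏ j : Fin n, if i < j then g i j else 1) = ∏ p : Prs n, g p.1.1 p.1.2 := by
  rw [← Finset.prod_product', Finset.univ_product_univ]
  rw [← Finset.prod_filter (fun x : Fin n × Fin n => x.1 < x.2) (fun x => g x.1 x.2)]
  exact Finset.prod_subtype _ (by simp) (fun x : Fin n × Fin n => g x.1 x.2)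

lemma sum_pairs {n : ℕ} (g : Fin n → Fin n → ℝ) :
    (∑ i : Fin n, ∑ j : Fin n, if i < j then g i j else 0) = ∑ p : Prs n, g p.1.1 p.1.2 := by
  rw [← Finset.sum_product', Finset.univ_product_univ]
  rw [← Finset.sum_filter (fun x : Fin n × Fin n => x.1 < x.2) (fun x => g x.1 x.2)]
  exact Finset.sum_subtype _ (by simp) (fun x : Fin n × Fin n => g x.1 x.2)

open Classical in
lemma sm_eq {n : ℕ} (a : Fin n → Fin n → ℝ) (K : Finset (Fin n)) :
    sm a K = ∑ p : Prs n, if p.1.1 ∈ K ∧ p.1.2 ∈ K then a p.1.1 p.1.2 else 0 := by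
  rw [← sum_pairs (fun i j => if i ∈ K ∧ j ∈ K then a i j else 0)]
  unfold sm
  rw [← Finset.sum_filter_add_sum_filter_not Finset.univ (fun i => i ∈ K)
    (fun i => ∑ j : Fin n, if i < j then (if i ∈ K ∧ j ∈ K then a i j else 0) else 0)]
  have h0 : ∑ i ∈ Finset.univ.filter (fun i => i ∉ K),
      (∑ j : Fin n, if i < j then (if i ∈ K ∧ j ∈ K then a i j else 0) else 0) = 0 := by
    refine Finset.sum_eq_zero fun i hi => Finset.sum_eq_zero fun j _ => ?_
    have : i ∉ K := (Finset.mem_filter.1 hi).2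
    simp [this]
  rw [h0, add_zero]
  have h1 : Finset.univ.filter (fun i => i ∈ K) = K := by ext; simp
  rw [h1]
  refine Finset.sum_congr rfl fun i hi => ?_
  rw [← Finset.sum_filter_add_sum_filter_not Finset.univ (fun j => j ∈ K)
    (fun j => if i < j then (if i ∈ K ∧ j ∈ K then a i j else 0) else 0)]
  have h2 : ∑ j ∈ Finset.univ.filter (fun j => j ∉ K),
      (if i < j then (if i ∈ K ∧ j ∈ K then a i j else 0) else 0) = 0 := by
    refine Finset.sum_eq_zero fun j hj => ?_
    have : j ∉ K := (Finset.mem_filter.1 hj).2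
    simp [this]
  rw [h2, add_zero, h1]
  refine Finset.sum_congr rfl fun j hj => ?_
  simp [hi, hj]

lemma wt_nonneg {n : ℕ} {a : Fin n → Fin n → ℝ} (ha : ∀ i j, 0 ≤ a i j)
    (G : SimpleGraph (Fin n)) : 0 ≤ wt a G := by
  unfold wt
  refine Finset.prod_nonneg fun i _ => Finset.prod_nonneg fun j _ => ?_
  have h1 : Real.exp (- a i j) ≤ 1 := by
    rw [Real.exp_le_one_iff]; linarith [ha i j]
  have h2 := Real.exp_nonneg (- a i j)
  split_ifs <;> linarith

open Classical in
lemma pr_indep {n : ℕ} (a : Fin n → Fin n → ℝ) (J : Finset (Fin n)) :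
    Pr a (fun G => indep G J) = Real.exp (- sm a J) := by
  obtain ⟨H, hH⟩ : ∃ H : Prs n → Bool → ℝ, ∀ p b, H p b = if b = true then
        (if p.1.1 ∈ J ∧ p.1.2 ∈ J then (0 : ℝ) else 1 - Real.exp (- a p.1.1 p.1.2))
        else Real.exp (- a p.1.1 p.1.2) := ⟨_, fun _ _ => rfl⟩
  have key : ∀ G : SimpleGraph (Fin n), (if indep G J then wt a G else 0) =
      ∏ p : Prs n, H p (decide (G.Adj p.1.1 p.1.2)) := by
    intro G
    by_cases hG : indep G J
    · rw [if_pos hG]
      unfold wt
      rw [prod_pairs (fun i j => if G.Adj i j then 1 - Real.exp (- a i j)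
        else Real.exp (- a i j))]
      refine Finset.prod_congr rfl fun p _ => ?_
      by_cases hp : G.Adj p.1.1 p.1.2
      · have : ¬ (p.1.1 ∈ J ∧ p.1.2 ∈ J) := fun h => hG _ h.1 _ h.2 hp
        rw [hH]
        simp only [hp, decide_true, if_true, if_neg this]
      · rw [hH]
        simp [hp]
    · rw [if_neg hG]
      symm
      unfold indep at hG
      push Not at hG
      obtain ⟨i, hi, j, hj, hij⟩ := hG
      rcases lt_trichotomy i j with h | h | h
      · refine Finset.prod_eq_zero (Finset.mem_univ (⟨(i, j), h⟩ : Prs n)) ?_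
        rw [hH]
        simp [hij, hi, hj]
      · subst h; exact absurd hij (by simp)
      · refine Finset.prod_eq_zero (Finset.mem_univ (⟨(j, i), h⟩ : Prs n)) ?_
        rw [hH]
        simp [hij.symm, hi, hj]
  unfold Pr
  rw [Finset.sum_congr rfl fun G _ => key G, sum_graph H, sm_eq, ← Finset.sum_neg_distrib,
    Real.exp_sum]
  refine Finset.prod_congr rfl fun p _ => ?_
  rw [hH, hH]
  by_cases h : p.1.1 ∈ J ∧ p.1.2 ∈ J
  · simp [h]
  · simp [h]

end Pool.Agent.H452R3.CHI.FM

namespace Pool.Agent.H452R3.CHI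

open Classical in
theorem taskFM : TaskFM := by
  intro n a ε hn hε ha
  have hn0 : (0 : ℝ) < n := by exact_mod_cast hn
  set c : ℝ := (n : ℝ) ^ (-(1 + ε)) with hc
  have hc0 : 0 ≤ c := Real.rpow_nonneg hn0.le _
  -- union bound
  have h1 : Pr a (fun G => ∃ J : Finset (Fin n), J.Nonempty ∧ indep G J ∧
      (1 + ε) * J.card * Real.log n < sm a J) ≤
      ∑ J : Finset (Fin n), if J.Nonempty ∧ (1 + ε) * J.card * Real.log n < sm a J then
        Pr a (fun G => indep G J) else 0 := by
    unfold Pr
    have h2 : ∀ G : SimpleGraph (Fin n), (@ite ℝ (∃ J : Finset (Fin n), J.Nonempty ∧ indep G J ∧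
        (1 + ε) * J.card * Real.log n < sm a J) (Classical.propDecidable _) (wt a G) 0) ≤
        ∑ J : Finset (Fin n), if J.Nonempty ∧ (1 + ε) * J.card * Real.log n < sm a J then
          (if indep G J then wt a G else 0) else 0 := by
      intro G
      have hw := FM.wt_nonneg ha G
      have hnn : ∀ J ∈ (Finset.univ : Finset (Finset (Fin n))),
          0 ≤ if J.Nonempty ∧ (1 + ε) * J.card * Real.log n < sm a J then
          (if indep G J then wt a G else 0) else 0 := by
        intro J _
        split_ifs <;> first | exact hw | exact le_rfl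
      by_cases hex : ∃ J : Finset (Fin n), J.Nonempty ∧ indep G J ∧
        (1 + ε) * J.card * Real.log n < sm a J
      · rw [if_pos hex]
        obtain ⟨J, hJ1, hJ2, hJ3⟩ := hex
        have := Finset.single_le_sum hnn (Finset.mem_univ J)
        rw [if_pos ⟨hJ1, hJ3⟩, if_pos hJ2] at this
        exact this
      · rw [if_neg hex]
        exact Finset.sum_nonneg hnn
    refine (Finset.sum_le_sum fun G _ => h2 G).trans ?_
    rw [Finset.sum_comm]
    refine Finset.sum_le_sum fun J _ => ?_
    by_cases hJ : J.Nonempty ∧ (1 + ε) * J.card * Real.log n < sm a J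
    · simp only [if_pos hJ]; exact le_rfl
    · simp only [if_neg hJ, Finset.sum_const_zero]; exact le_rfl
  refine h1.trans ?_
  -- termwise bound
  have h3 : ∀ J : Finset (Fin n), (if J.Nonempty ∧ (1 + ε) * J.card * Real.log n < sm a J then
        Pr a (fun G => indep G J) else 0) ≤ if J = ∅ then 0 else c ^ J.card := by
    intro J
    by_cases hJ : J.Nonempty ∧ (1 + ε) * J.card * Real.log n < sm a J
    · rw [if_pos hJ, FM.pr_indep, if_neg hJ.1.ne_empty]
      have : c ^ J.card = Real.exp (-((1 + ε) * J.card * Real.log n)) := by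
        rw [hc, ← Real.rpow_natCast, ← Real.rpow_mul hn0.le, Real.rpow_def_of_pos hn0]
        congr 1; ring
      rw [this]
      exact Real.exp_le_exp.2 (by linarith [hJ.2])
    · rw [if_neg hJ]
      split_ifs
      · exact le_rfl
      · exact pow_nonneg hc0 _
  refine (Finset.sum_le_sum fun J _ => h3 J).trans ?_
  have h4 : ∑ J : Finset (Fin n), (if J = ∅ then (0 : ℝ) else c ^ J.card) = (1 + c) ^ n - 1 := by
    have h5 : ∑ J : Finset (Fin n), c ^ J.card = (1 + c) ^ n := by
      have := Fintype.sum_pow_mul_eq_add_pow (Fin n) c (1 : ℝ)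
      simp only [one_pow, mul_one, Fintype.card_fin] at this
      rw [this, add_comm]
    have h6 : ∀ J : Finset (Fin n), (if J = ∅ then (0 : ℝ) else c ^ J.card) =
        c ^ J.card - if J = ∅ then 1 else 0 := by
      intro J
      by_cases hJ : J = ∅
      · simp [hJ]
      · simp [hJ]
    rw [Finset.sum_congr rfl fun J _ => h6 J, Finset.sum_sub_distrib, h5]
    simp
  rw [h4]
  have h7 : (1 + c) ^ n ≤ Real.exp ((n : ℝ) ^ (-ε)) := by
    have h8 : (1 + c) ^ n ≤ (Real.exp c) ^ n := by
      refine pow_le_pow_left₀ (by linarith) ?_ n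
      linarith [Real.add_one_le_exp c]
    refine h8.trans (le_of_eq ?_)
    rw [← Real.exp_nat_mul]
    congr 1
    rw [hc]
    have : (n : ℝ) ^ (-ε) = (n : ℝ) ^ ((1 : ℝ) + -(1 + ε)) := by congr 1; ring
    rw [this, Real.rpow_add hn0, Real.rpow_one]
  linarith

end Pool.Agent.H452R3.CHI
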