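import Pool.Agent.H452R3.CHI.Stmts

set_option autoImplicit false
open MeasureTheory Filter Topology

namespace Pool.Agent.H452R3.CHI.TFS

theorem Bv_le {n : ℕ} (a : Fin n → Fin n → ℝ) (c : ℝ) (G : SimpleGraph (Fin n))
    (h : ∀ J : Finset (Fin n), J.Nonempty → indep G J → sm a J ≤ c * J.card)
    (I : Finset (Fin n)) (hI : I.Nonempty) (hind : indep G I) : Bv a I ≤ 2 * c := by
  unfold Bv
  have : Nonempty {J : Finset (Fin n) // J ⊆ I ∧ J.Nonempty} := ⟨⟨I, subset_rfl, hI⟩⟩
  refine ciSup_le ?_
  rintro ⟨J, hJI, hJ⟩
  have hpos : (0 : ℝ) < J.card := by exact_mod_cast hJ.card_pos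
  have h1 := h J hJ (fun i hi j hj => hind i (hJI hi) j (hJI hj))
  show 2 * sm a J / J.card ≤ 2 * c
  rw [div_le_iff₀ hpos]
  linarith

theorem taskFS : TaskFS := by
  classical
  intro n a M c G hn ha hM hc h
  obtain ⟨C⟩ : G.Colorable G.chromaticNumber.toNat :=
    SimpleGraph.colorable_chromaticNumber_of_fintype G
  set k := G.chromaticNumber.toNat with hk
  have hkn : k ≤ n := by
    have h1 : G.Colorable n := by
      have := G.colorable_of_fintype
      simpa using this
    have h2 := h1.chromaticNumber_le
    have := ENat.toNat_le_of_le_natCast h2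
    exact this
  let p : Fin n → Fin n := fun i => Fin.castLE hkn (C i)
  have hfs : Fstar a M ≤ Fp a M p := by
    unfold Fstar
    exact ciInf_le (Set.finite_range _).bddBelow p
  refine hfs.trans ?_
  have hsum : (∑ l : Fin n, if (Finset.univ.filter (fun i => p i = l)).Nonempty then
      M + Bv a (Finset.univ.filter (fun i => p i = l)) else 0) ≤
      ∑ l : Fin n, if (l : ℕ) < k then (2 * c + M) else 0 := by
    refine Finset.sum_le_sum (fun l _ => ?_)
    by_cases hne : (Finset.univ.filter (fun i => p i = l)).Nonempty
    · rw [if_pos hne]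
      obtain ⟨i, hi⟩ := hne
      have hi' : p i = l := by simpa using hi
      have hlt : (l : ℕ) < k := by
        rw [← hi']
        exact (C i).isLt
      rw [if_pos hlt]
      have hB := Bv_le a c G h (Finset.univ.filter (fun i => p i = l)) ⟨i, hi⟩ (by
        intro u hu v hv huv
        have hu' : p u = l := by simpa using hu
        have hv' : p v = l := by simpa using hv
        have : C u = C v := by
          have h3 : p u = p v := hu'.trans hv'.symm
          exact Fin.castLE_injective hkn h3
        exact C.valid huv this)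
      linarith
    · rw [if_neg hne]
      split_ifs
      · positivity
      · exact le_rfl
  have hcount : (∑ l : Fin n, if (l : ℕ) < k then (2 * c + M) else 0) = (2 * c + M) * k := by
    rw [← Finset.sum_filter, Finset.sum_const, nsmul_eq_mul]
    have : (Finset.univ.filter (fun l : Fin n => (l : ℕ) < k)).card = k := by
      rw [← Fintype.card_subtype]
      rw [Fintype.card_congr (Fin.castLEquiv hkn).symm]
      simp
    rw [this]; ring
  have hnpos : (0 : ℝ) < n := by exact_mod_cast hn
  unfold Fp
  rw [one_div, div_eq_inv_mul]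
  refine mul_le_mul_of_nonneg_left ?_ (by positivity)
  rw [← hcount]
  exact hsum

end Pool.Agent.H452R3.CHI.TFS
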