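import Pool.Agent.H452R3.CHI.Stmts

set_option autoImplicit false
open MeasureTheory Filter Topology

namespace Pool.Agent.H452R3.CHI

namespace TJ

theorem sm_le {n : ℕ} (a : Fin n → Fin n → ℝ) (M : ℝ) (hM : 0 ≤ M) (haM : ∀ i j, a i j ≤ M)
    (K : Finset (Fin n)) : sm a K ≤ M * (K.card : ℝ) ^ 2 := by
  classical
  unfold sm
  calc (∑ i ∈ K, ∑ j ∈ K, if i < j then a i j else 0) ≤ ∑ i ∈ K, ∑ j ∈ K, M := by
        refine Finset.sum_le_sum fun i _ => Finset.sum_le_sum fun j _ => ?_
        split_ifs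
        · exact haM i j
        · exact hM
    _ = M * (K.card : ℝ) ^ 2 := by
        simp only [Finset.sum_const, nsmul_eq_mul]
        ring

theorem key (M ε L Λ : ℝ) (n m k : ℕ) (s : ℝ) (hε : 0 < ε)
    (hM : 0 < M) (hn : (n : ℝ) = Real.exp L) (hL : 1 ≤ L) (hm : 1 ≤ m) (hΛ : 1 ≤ Λ)
    (hmΛ : (m : ℝ) * Λ ≤ L ^ 6) (e1 : 2 * L ^ 6 ≤ Real.exp (ε / 2 * L))
    (e2 : 2 * L ^ 6 ≤ Real.exp (1 / 20 * L)) (e3 : 72 * M / ε ≤ L) (hk : 2 ≤ k)
    (hs1 : s ≤ M * (k : ℝ) ^ 2) (hs2 : s ≤ (1 - ε) * k * L) :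
    (Λ / n) ^ k * Real.exp s ≤ (1 / (m : ℝ)) ^ k * Real.exp (-(9 / 5) * L) := by
  have hmpos : (0 : ℝ) < m := by exact_mod_cast hm
  have hk' : (2 : ℝ) ≤ k := by exact_mod_cast hk
  have hL6 : 0 ≤ L ^ 6 := by positivity
  have hmΛ0 : 0 ≤ (m : ℝ) * Λ := by positivity
  -- the reduced inequality
  have hred : ((m : ℝ) * Λ) ^ k * Real.exp s ≤ Real.exp (k * L - 9 / 5 * L) := by
    by_cases hc : M * k ≤ 1 / 20 * L
    · have h1 : ((m : ℝ) * Λ) ^ k ≤ Real.exp (k * (1 / 20 * L)) := by
        rw [Real.exp_nat_mul]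
        exact pow_le_pow_left₀ hmΛ0 (by linarith) k
      have h2 : Real.exp s ≤ Real.exp (k * (1 / 20 * L)) := by
        apply Real.exp_le_exp.mpr
        calc s ≤ M * (k : ℝ) ^ 2 := hs1
          _ = k * (M * k) := by ring
          _ ≤ k * (1 / 20 * L) := by gcongr
      calc ((m : ℝ) * Λ) ^ k * Real.exp s ≤ Real.exp (k * (1 / 20 * L)) * Real.exp (k * (1 / 20 * L)) := by
            gcongr
        _ = Real.exp (k * L / 10) := by
            rw [← Real.exp_add]; congr 1; ring
        _ ≤ Real.exp (k * L - 9 / 5 * L) := by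
            apply Real.exp_le_exp.mpr
            nlinarith
    · push Not at hc
      have h1 : ((m : ℝ) * Λ) ^ k ≤ Real.exp (k * (ε / 2 * L)) := by
        rw [Real.exp_nat_mul]
        exact pow_le_pow_left₀ hmΛ0 (by linarith) k
      have h2 : Real.exp s ≤ Real.exp ((1 - ε) * k * L) := Real.exp_le_exp.mpr hs2
      have h3 : 72 * M ≤ L * ε := by
        rw [div_le_iff₀ hε] at e3
        exact e3
      have h4 : 18 / 5 ≤ k * ε := by
        have h5 : 1 / 20 * (72 * M) ≤ M * k * ε := by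
          have : 1 / 20 * L * ε ≤ M * k * ε := by gcongr
          linarith
        have h6 : M * (18 / 5) ≤ M * (k * ε) := by linarith
        exact le_of_mul_le_mul_left h6 hM
      calc ((m : ℝ) * Λ) ^ k * Real.exp s ≤ Real.exp (k * (ε / 2 * L)) * Real.exp ((1 - ε) * k * L) := by
            gcongr
        _ = Real.exp (k * L - k * ε / 2 * L) := by
            rw [← Real.exp_add]; congr 1; ring
        _ ≤ Real.exp (k * L - 9 / 5 * L) := by
            apply Real.exp_le_exp.mpr
            nlinarith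
  have hexpk : Real.exp (k * L - 9 / 5 * L) = (n : ℝ) ^ k * Real.exp (-(9 / 5) * L) := by
    rw [hn, ← Real.exp_nat_mul, ← Real.exp_add]; congr 1; ring
  rw [hexpk] at hred
  have hn0 : (0 : ℝ) < n := by rw [hn]; exact Real.exp_pos _
  have h7 : (Λ / n) ^ k * Real.exp s = (((m : ℝ) * Λ) ^ k * Real.exp s) / ((n : ℝ) ^ k * (m : ℝ) ^ k) := by
    rw [mul_pow, div_pow]
    field_simp
  have h8 : (1 / (m : ℝ)) ^ k * Real.exp (-(9 / 5) * L) =
      ((n : ℝ) ^ k * Real.exp (-(9 / 5) * L)) / ((n : ℝ) ^ k * (m : ℝ) ^ k) := by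
    rw [div_pow, one_pow]
    field_simp
  rw [h7, h8]
  gcongr

end TJ

open TJ

theorem taskJ (hGJ : TaskGJ) : TaskJ := by
  classical
  intro M ε hM hε hε1
  have ev : ∀ᶠ L : ℝ in atTop, 2 * L ^ 6 ≤ Real.exp (ε / 2 * L) ∧
      2 * L ^ 6 ≤ Real.exp (1 / 20 * L) ∧ 72 * M / ε ≤ L ∧ 1 ≤ L := by
    have h1 := (isLittleO_pow_exp_pos_mul_atTop 6 (half_pos hε)).bound (c := 1/2) (by norm_num)
    have h2 := (isLittleO_pow_exp_pos_mul_atTop 6 (by norm_num : (0:ℝ) < 1/20)).bound
      (c := 1/2) (by norm_num)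
    filter_upwards [h1, h2, eventually_ge_atTop (72*M/ε), eventually_ge_atTop 1] with L h1 h2 h3 h4
    have hL6 : 0 ≤ L ^ 6 := by positivity
    rw [Real.norm_of_nonneg hL6, Real.norm_of_nonneg (Real.exp_pos _).le] at h1 h2
    exact ⟨by linarith, by linarith, h3, h4⟩
  obtain ⟨L0, hL0⟩ := ev.exists_forall_of_atTop
  refine ⟨L0, fun n hn a ha haM 𝓕 Λ m hne hΛ hmΛ hcard hm hsm hspread => ?_⟩
  obtain ⟨e1, e2, e3, e4⟩ := hL0 _ hn
  clear hn
  have hn0 : (0:ℝ) < n := by
    rcases Nat.eq_zero_or_pos n with h | h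
    · exfalso
      rw [h] at e4
      simp at e4
      linarith
    · exact_mod_cast h
  have htexp0 : (n : ℝ) ^ (8 / 5 : ℝ) = Real.exp (8 / 5 * Real.log n) := by
    rw [Real.rpow_def_of_pos hn0]; congr 1; ring
  have hnexp : (n:ℝ) = Real.exp (Real.log n) := (Real.exp_log hn0).symm
  generalize Real.log n = L at *
  have hm1 : 1 ≤ m := by
    obtain ⟨I, hI⟩ := hne
    have h1 := hcard I hI
    have h2 := hm I hI
    have h3 : (1:ℝ) ≤ 4 / ε := by
      rw [le_div_iff₀ hε]; linarith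
    have h4 : (1:ℝ) ≤ I.card := le_trans h3 h1
    have h5 : 1 ≤ I.card := by exact_mod_cast h4
    omega
  have hmpos : (0:ℝ) < m := by exact_mod_cast hm1
  have hm1' : (1:ℝ) ≤ m := by exact_mod_cast hm1
  have hexp20 : (2:ℝ) ≤ Real.exp (1 / 20 * L) := by
    have : (1:ℝ) ≤ L ^ 6 := one_le_pow₀ e4
    linarith
  have hFpos : (0:ℝ) < 𝓕.card := by exact_mod_cast hne.card_pos
  generalize (n : ℝ) ^ (8 / 5 : ℝ) = t at *
  have htexp : t = Real.exp (8 / 5 * L) := htexp0
  clear htexp0
  have htpos : 0 < t := by rw [htexp]; exact Real.exp_pos _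
  let q : Finset (Fin n) → ℝ := fun I => t * Real.exp (sm a I) / 𝓕.card
  have hq0 : ∀ I, 0 ≤ q I := fun I => by positivity
  have hq1 : ∀ I ∈ 𝓕, q I ≤ 1 := by
    intro I hI
    show t * Real.exp (sm a I) / 𝓕.card ≤ 1
    rw [div_le_one hFpos]
    have h1 := hspread I
    have h2 : (1:ℝ) ≤ ((𝓕.filter (fun J => I ⊆ J)).card : ℝ) := by
      have : 0 < (𝓕.filter (fun J => I ⊆ J)).card :=
        Finset.card_pos.mpr ⟨I, Finset.mem_filter.mpr ⟨hI, Finset.Subset.refl _⟩⟩
      exact_mod_cast this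
    have h3 : 1 ≤ 2 * (Λ / n) ^ I.card * 𝓕.card := le_trans h2 h1
    have h4 : Λ ≤ Real.exp (ε / 2 * L) := by
      have : Λ ≤ m * Λ := le_mul_of_one_le_left (by linarith) hm1'
      have h5 : 0 ≤ L ^ 6 := by positivity
      linarith
    have h5 : (Λ / n) ^ I.card ≤ Real.exp (I.card * (ε / 2 * L - L)) := by
      rw [Real.exp_nat_mul]
      apply pow_le_pow_left₀ (by positivity)
      rw [Real.exp_sub, ← hnexp]
      gcongr
    have h6 : Real.exp (sm a I) ≤ Real.exp ((1 - ε) * I.card * L) :=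
      Real.exp_le_exp.mpr (hsm I hI I (Finset.Subset.refl _))
    have h7 : Real.exp (I.card * (L - ε / 2 * L)) ≤ 2 * 𝓕.card := by
      have h8 : 1 ≤ 2 * Real.exp (I.card * (ε / 2 * L - L)) * 𝓕.card := by
        refine le_trans h3 ?_
        gcongr
      have h9 : Real.exp (I.card * (L - ε / 2 * L)) * Real.exp (I.card * (ε / 2 * L - L)) = 1 := by
        rw [← Real.exp_add, ← Real.exp_zero]; congr 1; ring
      calc Real.exp (I.card * (L - ε / 2 * L)) = Real.exp (I.card * (L - ε / 2 * L)) * 1 := by ring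
        _ ≤ Real.exp (I.card * (L - ε / 2 * L)) * (2 * Real.exp (I.card * (ε / 2 * L - L)) * 𝓕.card) := by
            gcongr
        _ = (Real.exp (I.card * (L - ε / 2 * L)) * Real.exp (I.card * (ε / 2 * L - L))) * (2 * 𝓕.card) := by ring
        _ = 2 * 𝓕.card := by rw [h9, one_mul]
    have h10 : 2 * (t * Real.exp (sm a I)) ≤ Real.exp (I.card * (L - ε / 2 * L)) := by
      have h11 : 4 ≤ I.card * ε := by
        have := hcard I hI
        rw [div_le_iff₀ hε] at this
        exact this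
      calc 2 * (t * Real.exp (sm a I)) ≤ Real.exp (1 / 20 * L) * (Real.exp (8 / 5 * L) * Real.exp ((1 - ε) * I.card * L)) := by
            rw [htexp]; gcongr
        _ = Real.exp (1 / 20 * L + (8 / 5 * L + (1 - ε) * I.card * L)) := by
            rw [← Real.exp_add, ← Real.exp_add]
        _ ≤ Real.exp (I.card * (L - ε / 2 * L)) := by
            apply Real.exp_le_exp.mpr
            nlinarith
    linarith
  have hGJ' := hGJ n a ha 𝓕 q hq0 hq1
  refine le_trans hGJ' ?_
  apply Real.exp_le_exp.mpr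
  -- first sum
  have hS1 : ∑ I ∈ 𝓕, q I * Real.exp (- sm a I) = t := by
    have : ∀ I ∈ 𝓕, q I * Real.exp (- sm a I) = t / 𝓕.card := by
      intro I _
      simp only [q]
      rw [div_mul_eq_mul_div, mul_assoc, ← Real.exp_add, add_neg_cancel, Real.exp_zero, mul_one]
    rw [Finset.sum_congr rfl this, Finset.sum_const, nsmul_eq_mul]
    field_simp
  -- second sum
  have hS2 : ∑ I ∈ 𝓕, ∑ J ∈ 𝓕, (if 2 ≤ (I ∩ J).card then
      q I * q J * Real.exp (- sm a I - sm a J + sm a (I ∩ J)) else 0) ≤ t := by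
    have h1 : ∀ I ∈ 𝓕, ∀ J ∈ 𝓕, (if 2 ≤ (I ∩ J).card then
        q I * q J * Real.exp (- sm a I - sm a J + sm a (I ∩ J)) else 0) =
        (t / 𝓕.card) ^ 2 * (if 2 ≤ (I ∩ J).card then Real.exp (sm a (I ∩ J)) else 0) := by
      intro I _ J _
      split_ifs
      · simp only [q]
        have : Real.exp (- sm a I - sm a J + sm a (I ∩ J)) =
            (Real.exp (sm a I))⁻¹ * (Real.exp (sm a J))⁻¹ * Real.exp (sm a (I ∩ J)) := by
          rw [← Real.exp_neg, ← Real.exp_neg, ← Real.exp_add, ← Real.exp_add]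
          congr 1
        rw [this]
        have e5 := (Real.exp_pos (sm a I)).ne'
        have e6 := (Real.exp_pos (sm a J)).ne'
        field_simp
      · simp
    have h2 : ∀ I ∈ 𝓕, ∑ J ∈ 𝓕, (if 2 ≤ (I ∩ J).card then Real.exp (sm a (I ∩ J)) else 0) ≤
        2 * 𝓕.card * Real.exp (-(9 / 5) * L) * 3 := by
      intro I hI
      have h3 : ∀ J ∈ 𝓕, (if 2 ≤ (I ∩ J).card then Real.exp (sm a (I ∩ J)) else 0) ≤
          ∑ K ∈ I.powerset, (if K ⊆ J ∧ 2 ≤ K.card then Real.exp (sm a K) else 0) := by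
        intro J _
        have h4 : (if I ∩ J ⊆ J ∧ 2 ≤ (I ∩ J).card then Real.exp (sm a (I ∩ J)) else 0) ≤
            ∑ K ∈ I.powerset, (if K ⊆ J ∧ 2 ≤ K.card then Real.exp (sm a K) else 0) := by
          apply Finset.single_le_sum (f := fun K => (if K ⊆ J ∧ 2 ≤ K.card then Real.exp (sm a K) else 0))
          · intro K _
            show (0:ℝ) ≤ if K ⊆ J ∧ 2 ≤ K.card then Real.exp (sm a K) else 0
            split_ifs
            · exact (Real.exp_pos _).le
            · exact le_refl _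
          · exact Finset.mem_powerset.mpr Finset.inter_subset_left
        simpa [Finset.inter_subset_right] using h4
      refine le_trans (Finset.sum_le_sum h3) ?_
      rw [Finset.sum_comm]
      have h5 : ∀ K ∈ I.powerset, ∑ J ∈ 𝓕, (if K ⊆ J ∧ 2 ≤ K.card then Real.exp (sm a K) else 0) ≤
          2 * 𝓕.card * Real.exp (-(9 / 5) * L) * ((1 / (m:ℝ)) ^ K.card * 1 ^ (I.card - K.card)) := by
        intro K hK
        rw [Finset.mem_powerset] at hK
        by_cases hK2 : 2 ≤ K.card
        · have h6 : ∑ J ∈ 𝓕, (if K ⊆ J ∧ 2 ≤ K.card then Real.exp (sm a K) else 0) =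
              ((𝓕.filter (fun J => K ⊆ J)).card : ℝ) * Real.exp (sm a K) := by
            simp only [hK2, and_true]
            rw [← Finset.sum_filter, Finset.sum_const, nsmul_eq_mul]
          rw [h6]
          have h7 := hspread K
          have h8 := key M ε L Λ n m K.card (sm a K) hε hM hnexp e4 hm1 hΛ hmΛ e1 e2 e3 hK2
            (sm_le a M hM.le haM K) (hsm I hI K hK)
          calc ((𝓕.filter (fun J => K ⊆ J)).card : ℝ) * Real.exp (sm a K)
              ≤ (2 * (Λ / n) ^ K.card * 𝓕.card) * Real.exp (sm a K) := by gcongr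
            _ = 2 * 𝓕.card * ((Λ / n) ^ K.card * Real.exp (sm a K)) := by ring
            _ ≤ 2 * 𝓕.card * ((1 / (m : ℝ)) ^ K.card * Real.exp (-(9 / 5) * L)) := by gcongr
            _ = _ := by rw [one_pow]; ring
        · have h6 : ∑ J ∈ 𝓕, (if K ⊆ J ∧ 2 ≤ K.card then Real.exp (sm a K) else 0) = 0 := by
            apply Finset.sum_eq_zero
            intro J _
            rw [if_neg]
            intro h; exact hK2 h.2
          rw [h6]
          positivity
      refine le_trans (Finset.sum_le_sum h5) ?_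
      rw [← Finset.mul_sum, Finset.sum_pow_mul_eq_add_pow]
      have h9 : (1 / (m:ℝ) + 1) ^ I.card ≤ 3 := by
        calc (1 / (m:ℝ) + 1) ^ I.card ≤ (1 / (m:ℝ) + 1) ^ m := by
              apply pow_le_pow_right₀ _ (hm I hI)
              have : 0 < 1 / (m:ℝ) := by positivity
              linarith
          _ ≤ (Real.exp (1 / (m:ℝ))) ^ m := by
              apply pow_le_pow_left₀ (by positivity)
              exact Real.add_one_le_exp _
          _ = Real.exp 1 := by
              rw [← Real.exp_nat_mul]; congr 1; field_simp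
          _ ≤ 3 := by
              have := Real.exp_one_lt_d9
              linarith
      gcongr
    calc ∑ I ∈ 𝓕, ∑ J ∈ 𝓕, (if 2 ≤ (I ∩ J).card then
        q I * q J * Real.exp (- sm a I - sm a J + sm a (I ∩ J)) else 0)
        = ∑ I ∈ 𝓕, (t / 𝓕.card) ^ 2 * ∑ J ∈ 𝓕, (if 2 ≤ (I ∩ J).card then Real.exp (sm a (I ∩ J)) else 0) := by
          refine Finset.sum_congr rfl fun I hI => ?_
          rw [Finset.mul_sum]
          exact Finset.sum_congr rfl fun J hJ => h1 I hI J hJ
      _ ≤ ∑ I ∈ 𝓕, (t / 𝓕.card) ^ 2 * (2 * 𝓕.card * Real.exp (-(9 / 5) * L) * 3) := by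
          refine Finset.sum_le_sum fun I hI => ?_
          have := h2 I hI
          gcongr
      _ = 6 * t ^ 2 * Real.exp (-(9 / 5) * L) := by
          rw [Finset.sum_const, nsmul_eq_mul]
          field_simp
          ring
      _ ≤ t := by
          have h10 : t * Real.exp (-(9 / 5) * L) = Real.exp (-(1/5) * L) := by
            rw [htexp, ← Real.exp_add]; congr 1; ring
          have h11 : 6 * Real.exp (-(1/5) * L) ≤ 1 := by
            have h12 : (16:ℝ) ≤ Real.exp (1 / 5 * L) := by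
              have : Real.exp (1 / 5 * L) = Real.exp (1 / 20 * L) ^ 4 := by
                rw [← Real.exp_nat_mul]; congr 1; push_cast; ring
              rw [this]
              calc (16:ℝ) = 2 ^ 4 := by norm_num
                _ ≤ _ := by gcongr
            have h13 : Real.exp (-(1/5) * L) * Real.exp (1 / 5 * L) = 1 := by
              rw [← Real.exp_add, ← Real.exp_zero]; congr 1; ring
            have h14 := Real.exp_pos (-(1/5) * L)
            nlinarith
          calc 6 * t ^ 2 * Real.exp (-(9 / 5) * L) = t * (6 * (t * Real.exp (-(9 / 5) * L))) := by ring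
            _ = t * (6 * Real.exp (-(1/5) * L)) := by rw [h10]
            _ ≤ t * 1 := by gcongr
            _ = t := mul_one t
  rw [hS1]
  linarith

end Pool.Agent.H452R3.CHI
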