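import Pool.Agent.H452R3.CHI.L1D

set_option autoImplicit false
open MeasureTheory Filter Topology

namespace Pool.Agent.H452R3.CHI.L1

lemma measurable_cidx (q : ℕ) : Measurable (cidx q) := by
  unfold cidx
  exact Nat.measurable_floor.comp (measurable_id.const_mul (q:ℝ))

lemma measurable_dist_step (g : ℝ → ℝ → ℝ) (hg : Measurable (Function.uncurry g)) (q : ℕ)
    (γ : ℕ → ℕ → ℝ) :
    Measurable (Function.uncurry (fun x y => |g x y - γ (cidx q x) (cidx q y)|)) := by
  have h1 : Measurable (fun z : ℝ × ℝ => γ (cidx q z.1) (cidx q z.2)) := by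
    have h2 : Measurable (fun z : ℕ × ℕ => γ z.1 z.2) := measurable_of_countable _
    exact h2.comp (((measurable_cidx q).comp measurable_fst).prodMk
      ((measurable_cidx q).comp measurable_snd))
  exact (hg.sub h1).abs

lemma meas_comp2 {n : ℕ} (f : ℝ → ℝ → ℝ) (hf : Measurable (Function.uncurry f)) (i j : Fin n) :
    Measurable (fun x : Fin n → ℝ => f (x i) (x j)) := by
  have h1 : Measurable (fun x : Fin n → ℝ => (x i, x j)) :=
    (measurable_pi_apply i).prodMk (measurable_pi_apply j)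
  exact hf.comp h1

lemma meas_Fstar_comp {n : ℕ} (g : ℝ → ℝ → ℝ) (hg : Measurable (Function.uncurry g)) (M : ℝ) :
    Measurable (fun x : Fin n → ℝ => Fstar (fun i j => g (x i) (x j)) M) := by
  have hgm : ∀ i j : Fin n, Measurable (fun x : Fin n → ℝ => g (x i) (x j)) := fun i j =>
    meas_comp2 g hg i j
  refine measurable_Fstar (fun (x : Fin n → ℝ) i j => g (x i) (x j)) ?_ M
  intro i j
  exact hgm i j

lemma bound_Fstar_comp {n : ℕ} (g : ℝ → ℝ → ℝ) (M : ℝ)
    (h0 : ∀ x y, 0 ≤ g x y) (hM : ∀ x y, g x y ≤ M) (x : Fin n → ℝ) :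
    |Fstar (fun i j => g (x i) (x j)) M| ≤
      |Fstar (n := n) (fun _ _ => 0) M| + (1 / (n:ℝ)) * (2 * (n * n * M)) := by
  have hM0 : 0 ≤ M := (h0 0 0).trans (hM 0 0)
  exact abs_Fstar_le _ M hM0 (fun i j => h0 _ _) (fun i j => hM _ _)

lemma int_Fstar_comp {n : ℕ} (g : ℝ → ℝ → ℝ) (hg : Measurable (Function.uncurry g)) (M : ℝ)
    (h0 : ∀ x y, 0 ≤ g x y) (hM : ∀ x y, g x y ≤ M) (P : Measure (Fin n → ℝ)) [IsFiniteMeasure P] :
    Integrable (fun x : Fin n → ℝ => Fstar (fun i j => g (x i) (x j)) M) P := by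
  refine Integrable.of_bound (meas_Fstar_comp g hg M).aestronglyMeasurable
    (|Fstar (n := n) (fun _ _ => 0) M| + (1 / (n:ℝ)) * (2 * (n * n * M))) ?_
  refine Filter.Eventually.of_forall fun x => ?_
  rw [Real.norm_eq_abs]
  exact bound_Fstar_comp g M h0 hM x

section
variable (g : ℝ → ℝ → ℝ) (M : ℝ) (hg : Measurable (Function.uncurry g))
  (h0 : ∀ x y, 0 ≤ g x y) (hM : ∀ x y, g x y ≤ M) (q : ℕ) (hq : 1 ≤ q) (γ : ℕ → ℕ → ℝ)
  (hγ0 : ∀ i j, 0 ≤ γ i j) (hγM : ∀ i j, γ i j ≤ M) (n : ℕ)

/-- error on a pair of cells -/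
noncomputable def ee (g : ℝ → ℝ → ℝ) (q : ℕ) (γ : ℕ → ℕ → ℝ) (n : ℕ) (c : Fin n → Fin q)
    (i j : Fin n) : ℝ :=
  ∫ x, (∫ y, |g x y - γ (c i) (c j)| ∂(Uc q (c j))) ∂(Uc q (c i))

lemma ee_nonneg (c : Fin n → Fin q) (i j : Fin n) : 0 ≤ ee g q γ n c i j :=
  integral_nonneg fun x => integral_nonneg fun y => abs_nonneg _

include hg h0 hM hγ0 hγM hq

lemma abs_dist_le (x y : ℝ) (k l : ℕ) : |g x y - γ k l| ≤ M := by
  rw [abs_le]
  constructor
  · linarith [h0 x y, hγM k l]
  · linarith [hM x y, hγ0 k l]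

lemma ee_eq (c : Fin n → Fin q) (i j : Fin n) (hij : i ≠ j) :
    ee g q γ n c i j = ∫ x, |g (x i) (x j) - γ (cidx q (x i)) (cidx q (x j))|
      ∂(Measure.pi (fun i => Uc q (c i))) := by
  have hU : ∀ k, IsProbabilityMeasure (Uc q k) := Uc_prob hq
  rw [integral_pair (fun i => Uc q (c i)) hij
    (fun x y => |g x y - γ (cidx q x) (cidx q y)|) (measurable_dist_step g hg q γ) M
    (fun x y => by
      rw [abs_abs]
      exact abs_dist_le g M hg h0 hM q hq γ hγ0 hγM x y _ _)]
  unfold ee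
  refine integral_congr_ae ?_
  filter_upwards [Uc_ae hq (c i)] with x hx
  refine integral_congr_ae ?_
  filter_upwards [Uc_ae hq (c j)] with y hy
  rw [hx, hy]

lemma sum_ee (i j : Fin n) (hij : i ≠ j) :
    ∑ c : Fin n → Fin q, ((q:ℝ)⁻¹) ^ n * ee g q γ n c i j
      = ∫ x in Set.Icc (0:ℝ) 1, (∫ y in Set.Icc (0:ℝ) 1, |g x y - γ (cidx q x) (cidx q y)|) := by
  haveI : IsProbabilityMeasure ((volume : Measure ℝ).restrict (Set.Icc (0:ℝ) 1)) := by
    constructor
    simp
  have hm := measurable_dist_step g hg q γ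
  have hb : ∀ x y, |(fun x y => |g x y - γ (cidx q x) (cidx q y)|) x y| ≤ M := fun x y => by
    show |(|g x y - γ (cidx q x) (cidx q y)|)| ≤ M
    rw [abs_abs]
    exact abs_dist_le g M hg h0 hM q hq γ hγ0 hγM x y _ _
  have h1 := integral_typ hq n (fun x => |g (x i) (x j) - γ (cidx q (x i)) (cidx q (x j))|)
    (meas_comp2 (fun x y => |g x y - γ (cidx q x) (cidx q y)|) hm i j) M
    (fun x => hb (x i) (x j))
  have h2 := integral_pair (fun _ : Fin n => (volume : Measure ℝ).restrict (Set.Icc (0:ℝ) 1)) hij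
    (fun x y => |g x y - γ (cidx q x) (cidx q y)|) hm M hb
  rw [← h2]
  change _ = ∫ x, |g (x i) (x j) - γ (cidx q (x i)) (cidx q (x j))| ∂(typ n)
  rw [h1]
  refine Finset.sum_congr rfl fun c _ => ?_
  rw [ee_eq g M hg h0 hM q hq γ hγ0 hγM n c i j hij]

lemma Fstar_cell_le (c : Fin n → Fin q) :
    Fstar (fun i j : Fin n => γ (c i) (c j)) M ≤
      ∫ x, Fstar (fun i j => g (x i) (x j)) M ∂(Measure.pi (fun i => Uc q (c i)))
        + (1 / (n:ℝ)) * (2 * ∑ i : Fin n, ∑ j : Fin n, if i ≠ j then ee g q γ n c i j else 0) := by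
  have hU : ∀ k, IsProbabilityMeasure (Uc q k) := Uc_prob hq
  have hM0 : 0 ≤ M := (h0 0 0).trans (hM 0 0)
  set P := Measure.pi (fun i => Uc q (c i)) with hP
  have hgm : ∀ i j : Fin n, Measurable (fun x : Fin n → ℝ => g (x i) (x j)) := fun i j =>
    meas_comp2 g hg i j
  have iF : Integrable (fun x : Fin n → ℝ => Fstar (fun i j => g (x i) (x j)) M) P :=
    int_Fstar_comp g hg M h0 hM P
  have hdm : ∀ i j : Fin n, Measurable (fun x : Fin n → ℝ => |g (x i) (x j) - γ (c i) (c j)|) :=
    fun i j => ((hgm i j).sub_const _).abs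
  have id1 : ∀ i j : Fin n, Integrable (fun x : Fin n → ℝ => |g (x i) (x j) - γ (c i) (c j)|) P :=
    fun i j => Integrable.of_bound (hdm i j).aestronglyMeasurable M
      (Filter.Eventually.of_forall fun x => by
        rw [Real.norm_eq_abs, abs_abs]
        exact abs_dist_le g M hg h0 hM q hq γ hγ0 hγM _ _ _ _)
  have id2 : ∀ i j : Fin n, Integrable (fun x : Fin n → ℝ =>
      if i ≠ j then |g (x i) (x j) - γ (c i) (c j)| else 0) P := by
    intro i j
    split_ifs
    · exact id1 i j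
    · exact integrable_zero _ _ _
  have iS : Integrable (fun x : Fin n → ℝ => ∑ i : Fin n, ∑ j : Fin n,
      if i ≠ j then |g (x i) (x j) - γ (c i) (c j)| else 0) P :=
    integrable_finset_sum _ fun i _ => integrable_finset_sum _ fun j _ => id2 i j
  have hpt : ∀ x : Fin n → ℝ, Fstar (fun i j : Fin n => γ (c i) (c j)) M
      ≤ Fstar (fun i j => g (x i) (x j)) M + (1 / (n:ℝ)) * (2 * ∑ i : Fin n, ∑ j : Fin n,
        if i ≠ j then |g (x i) (x j) - γ (c i) (c j)| else 0) := by
    intro x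
    have h1 := Fstar_le_add (fun i j : Fin n => γ (c i) (c j)) (fun i j => g (x i) (x j))
      (fun i j => h0 _ _) M
    refine h1.trans ?_
    have h2 : sm (fun i j : Fin n => |γ (c i) (c j) - g (x i) (x j)|) Finset.univ
        ≤ ∑ i : Fin n, ∑ j : Fin n, if i ≠ j then |g (x i) (x j) - γ (c i) (c j)| else 0 := by
      unfold sm
      refine Finset.sum_le_sum fun i _ => Finset.sum_le_sum fun j _ => ?_
      by_cases hij : i < j
      · rw [if_pos hij, if_pos hij.ne, abs_sub_comm]
      · rw [if_neg hij]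
        split_ifs
        · exact abs_nonneg _
        · exact le_rfl
    have h3 : (1 / (n:ℝ)) * (2 * sm (fun i j : Fin n => |γ (c i) (c j) - g (x i) (x j)|) Finset.univ)
        ≤ (1 / (n:ℝ)) * (2 * ∑ i : Fin n, ∑ j : Fin n,
          if i ≠ j then |g (x i) (x j) - γ (c i) (c j)| else 0) := by
      refine mul_le_mul_of_nonneg_left ?_ (by positivity)
      linarith
    linarith
  have h5 : ∫ _ : Fin n → ℝ, Fstar (fun i j : Fin n => γ (c i) (c j)) M ∂P
      ≤ ∫ x : Fin n → ℝ, (Fstar (fun i j => g (x i) (x j)) M + (1 / (n:ℝ)) * (2 * ∑ i : Fin n,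
        ∑ j : Fin n, if i ≠ j then |g (x i) (x j) - γ (c i) (c j)| else 0)) ∂P := by
    refine integral_mono (integrable_const _) (iF.add ((iS.const_mul 2).const_mul _)) hpt
  rw [integral_const, integral_add iF ((iS.const_mul 2).const_mul _), integral_const_mul,
    integral_const_mul, integral_finset_sum _
      (fun i _ => integrable_finset_sum _ fun j _ => id2 i j)] at h5
  have h6 : ∀ i : Fin n, ∫ x : Fin n → ℝ, ∑ j : Fin n,
      (if i ≠ j then |g (x i) (x j) - γ (c i) (c j)| else 0) ∂P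
      = ∑ j : Fin n, if i ≠ j then ee g q γ n c i j else 0 := by
    intro i
    rw [integral_finset_sum _ (fun j _ => id2 i j)]
    refine Finset.sum_congr rfl fun j _ => ?_
    split_ifs with hij
    · have h7 := integral_pair (fun i => Uc q (c i)) hij
        (fun x y => |g x y - γ (c i) (c j)|) ((hg.sub_const _).abs) M
        (fun x y => by
          rw [abs_abs]
          exact abs_dist_le g M hg h0 hM q hq γ hγ0 hγM x y _ _)
      exact h7
    · simp
  simp only [h6] at h5
  simpa using h5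

end

open Classical in
theorem key (hV : TaskVertex) (g : ℝ → ℝ → ℝ) (M : ℝ) (hg : Measurable (Function.uncurry g))
    (h0 : ∀ x y, 0 ≤ g x y) (hM : ∀ x y, g x y ≤ M) (q : ℕ) (hq : 1 ≤ q) (γ : ℕ → ℕ → ℝ)
    (hγs : ∀ i j, γ i j = γ j i) (hγ0 : ∀ i j, 0 ≤ γ i j) (hγM : ∀ i j, γ i j ≤ M) (n : ℕ)
    (hn : 1 ≤ n) (ρ : ℝ)
    (hD : ∫ x in Set.Icc (0:ℝ) 1, (∫ y in Set.Icc (0:ℝ) 1, |g x y - γ (cidx q x) (cidx q y)|) ≤ ρ) :
    sInf (PhiSet g) ≤ ∫ x, Fstar (fun i j => g (x i) (x j)) M ∂(typ n) + 3 * n * ρ := by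
  have hU : ∀ k, IsProbabilityMeasure (Uc q k) := Uc_prob hq
  have hM0 : 0 ≤ M := (h0 0 0).trans (hM 0 0)
  have hn0 : (0:ℝ) < n := by exact_mod_cast hn
  have hq0 : (0:ℝ) < q := by exact_mod_cast hq
  have hp : ∀ c : Fin n → Fin q, ∃ p : Fin n → Fin n,
      Fp (fun i j : Fin n => γ (c i) (c j)) M p = Fstar (fun i j : Fin n => γ (c i) (c j)) M :=
    fun c => exists_Fstar_eq _ M
  choose p hp using hp
  set I : (Fin n → Fin q) → Fin n → Finset (Fin n) :=
    fun c l => Finset.univ.filter (fun i => p c i = l) with hI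
  set w : ℝ := ((q:ℝ)⁻¹) ^ n with hw
  have hw0 : 0 ≤ w := by positivity
  set ν : (Fin n → Fin q) × Fin n → Measure ℝ := fun z =>
    if (I z.1 z.2).Nonempty then av (fun i => Uc q (z.1 i)) (I z.1 z.2) else Uc q 0 with hν
  set α : (Fin n → Fin q) × Fin n → ℝ := fun z => w * ((I z.1 z.2).card / n) with hα
  have hcard : ∀ c : Fin n → Fin q, ∑ l : Fin n, ((I c l).card : ℝ) = n := by
    intro c
    have h1 := Finset.sum_fiberwise (Finset.univ : Finset (Fin n)) (p c) (fun _ => (1:ℝ))
    simp only [Finset.sum_const, nsmul_eq_mul, mul_one, Finset.card_univ, Fintype.card_fin] at h1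
    exact h1
  have hmem : ∑ z, α z * sSup (phiSet g (ν z)) ∈ PhiSet g := by
    refine mem_PhiSet g ν α ?_ ?_ ?_ ?_ ?_
    · intro z
      rw [hν]
      dsimp only
      split_ifs with h
      · exact av_prob _ _ h
      · exact hU 0
    · intro z
      rw [hν]
      dsimp only
      split_ifs with h
      · unfold av
        rw [Measure.smul_apply, Measure.finsetSum_apply]
        simp only [Uc_compl hq, Finset.sum_const_zero, smul_zero]
      · exact Uc_compl hq ⟨0, hq⟩
    · intro z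
      positivity
    · rw [Fintype.sum_prod_type]
      simp only [hα]
      have h1 : ∀ c : Fin n → Fin q, ∑ l : Fin n, w * (((I c l).card : ℝ) / n) = w := by
        intro c
        rw [← Finset.mul_sum, ← Finset.sum_div, hcard c, div_self hn0.ne', mul_one]
      simp only [h1, Finset.sum_const, Finset.card_univ, Fintype.card_fun, Fintype.card_fin,
        nsmul_eq_mul]
      rw [hw]
      push_cast
      rw [← mul_pow, mul_inv_cancel₀ hq0.ne', one_pow]
    · refine Measure.ext fun S hS => ?_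
      rw [Measure.finsetSum_apply, Fintype.sum_prod_type]
      have h1 : ∀ (c : Fin n → Fin q) (l : Fin n),
          (ENNReal.ofReal (α (c, l)) • ν (c, l)) S
            = ∑ i ∈ I c l, (((q : ENNReal)⁻¹) ^ n * (n : ENNReal)⁻¹) * Uc q (c i) S := by
        intro c l
        rw [Measure.smul_apply, smul_eq_mul, ← Finset.mul_sum]
        have h2 : ENNReal.ofReal (α (c, l))
            = ((q : ENNReal)⁻¹) ^ n * (n : ENNReal)⁻¹ * ((I c l).card : ENNReal) := by
          simp only [hα, hw]
          rw [ENNReal.ofReal_mul (by positivity), ENNReal.ofReal_pow (by positivity),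
            ENNReal.ofReal_inv_of_pos hq0, ENNReal.ofReal_natCast,
            ENNReal.ofReal_div_of_pos hn0, ENNReal.ofReal_natCast, ENNReal.ofReal_natCast,
            div_eq_mul_inv]
          ring
        rw [h2]
        simp only [hν]
        rcases (I c l).eq_empty_or_nonempty with he | hne
        · simp [he]
        · rw [if_pos hne]
          unfold av
          rw [Measure.smul_apply, Measure.finsetSum_apply, smul_eq_mul, mul_assoc, ← mul_assoc
            ((I c l).card : ENNReal), ENNReal.mul_inv_cancel, one_mul]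
          · exact_mod_cast hne.card_pos.ne'
          · exact ENNReal.natCast_ne_top _
      simp only [h1]
      have h2 : ∀ c : Fin n → Fin q, ∑ l : Fin n, ∑ i ∈ I c l,
          (((q : ENNReal)⁻¹) ^ n * (n : ENNReal)⁻¹) * Uc q (c i) S
          = ∑ i : Fin n, (((q : ENNReal)⁻¹) ^ n * (n : ENNReal)⁻¹) * Uc q (c i) S := by
        intro c
        exact Finset.sum_fiberwise (Finset.univ : Finset (Fin n)) (p c)
          (fun i => (((q : ENNReal)⁻¹) ^ n * (n : ENNReal)⁻¹) * Uc q (c i) S)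
      simp only [h2]
      rw [Finset.sum_comm]
      have h3 : ∀ i : Fin n, ∑ c : Fin n → Fin q,
          (((q : ENNReal)⁻¹) ^ n * (n : ENNReal)⁻¹) * Uc q (c i) S
          = (n : ENNReal)⁻¹ * (volume.restrict (Set.Icc (0:ℝ) 1)) S := by
        intro i
        rw [← marginal hq n i S hS, Finset.mul_sum]
        refine Finset.sum_congr rfl fun c _ => ?_
        ring
      simp only [h3, Finset.sum_const, Finset.card_univ, Fintype.card_fin, nsmul_eq_mul]
      rw [← mul_assoc, ENNReal.mul_inv_cancel, one_mul]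
      · exact_mod_cast (Nat.pos_of_ne_zero (by omega)).ne'
      · exact ENNReal.natCast_ne_top _
  refine (csInf_le (PhiSet_bddBelow g h0) hmem).trans ?_
  set e' : (Fin n → Fin q) → ℝ := fun c =>
    ∑ i : Fin n, ∑ j : Fin n, if i ≠ j then ee g q γ n c i j else 0 with he'
  -- bound for each `c`
  have hc : ∀ c : Fin n → Fin q, ∑ l : Fin n, α (c, l) * sSup (phiSet g (ν (c, l)))
      ≤ w * (Fstar (fun i j : Fin n => γ (c i) (c j)) M + (1 / (n:ℝ)) * e' c) := by
    intro c
    have h1 : ∀ l : Fin n, α (c, l) * sSup (phiSet g (ν (c, l)))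
        ≤ w * ((1 / (n:ℝ)) * ((if (I c l).Nonempty then
          M + Bv (fun i j : Fin n => γ (c i) (c j)) (I c l) else 0)
          + ∑ i ∈ I c l, ∑ j ∈ I c l, if i ≠ j then ee g q γ n c i j else 0)) := by
      intro l
      simp only [hα, hν]
      rw [mul_assoc]
      refine mul_le_mul_of_nonneg_left ?_ hw0
      rcases (I c l).eq_empty_or_nonempty with he | hne
      · simp [he]
      · rw [if_pos hne, if_pos hne]
        have h2 := phi_le hV g M hg h0 hM (fun i => Uc q (c i)) (I c l) hne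
          (fun i j : Fin n => γ (c i) (c j)) (fun i j => hγ0 _ _) (fun i j => hγM _ _)
          (fun i j => hγs _ _) (ee g q γ n c) (fun i j => rfl)
        have hcp : (0:ℝ) < (I c l).card := by exact_mod_cast hne.card_pos
        calc ((I c l).card : ℝ) / n * sSup (phiSet g (av (fun i => Uc q (c i)) (I c l)))
            ≤ ((I c l).card : ℝ) / n * (((I c l).card : ℝ)⁻¹ *
              (M + Bv (fun i j : Fin n => γ (c i) (c j)) (I c l)
                + ∑ i ∈ I c l, ∑ j ∈ I c l, if i ≠ j then ee g q γ n c i j else 0)) :=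
              mul_le_mul_of_nonneg_left h2 (by positivity)
          _ = _ := by field_simp
    have h3 : ∑ l : Fin n, ∑ i ∈ I c l, ∑ j ∈ I c l, (if i ≠ j then ee g q γ n c i j else 0)
        ≤ e' c := by
      refine sum_classes_le (fun i j => if i ≠ j then ee g q γ n c i j else 0) ?_ (p c)
      intro i j
      show 0 ≤ (if i ≠ j then ee g q γ n c i j else 0)
      split_ifs
      · exact ee_nonneg g q γ n c i j
      · exact le_rfl
    have h4 : (1 / (n:ℝ)) * ∑ l : Fin n, (if (I c l).Nonempty then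
          M + Bv (fun i j : Fin n => γ (c i) (c j)) (I c l) else 0)
        = Fstar (fun i j : Fin n => γ (c i) (c j)) M := by
      rw [← hp c]
      unfold Fp
      rfl
    calc ∑ l : Fin n, α (c, l) * sSup (phiSet g (ν (c, l)))
        ≤ ∑ l : Fin n, w * ((1 / (n:ℝ)) * ((if (I c l).Nonempty then
          M + Bv (fun i j : Fin n => γ (c i) (c j)) (I c l) else 0)
          + ∑ i ∈ I c l, ∑ j ∈ I c l, if i ≠ j then ee g q γ n c i j else 0)) :=
          Finset.sum_le_sum fun l _ => h1 l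
      _ = w * ((1 / (n:ℝ)) * ∑ l : Fin n, (if (I c l).Nonempty then
          M + Bv (fun i j : Fin n => γ (c i) (c j)) (I c l) else 0)
          + (1 / (n:ℝ)) * ∑ l : Fin n, ∑ i ∈ I c l, ∑ j ∈ I c l,
            (if i ≠ j then ee g q γ n c i j else 0)) := by
          rw [← Finset.mul_sum, ← Finset.mul_sum, Finset.sum_add_distrib, mul_add]
      _ ≤ _ := by
          rw [h4]
          refine mul_le_mul_of_nonneg_left ?_ hw0
          have := mul_le_mul_of_nonneg_left h3 (by positivity : (0:ℝ) ≤ 1 / (n:ℝ))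
          linarith
  have hc2 : ∀ c : Fin n → Fin q, ∑ l : Fin n, α (c, l) * sSup (phiSet g (ν (c, l)))
      ≤ w * (∫ x, Fstar (fun i j => g (x i) (x j)) M ∂(Measure.pi (fun i => Uc q (c i))))
        + (3 / (n:ℝ)) * (w * e' c) := by
    intro c
    have h1 := Fstar_cell_le g M hg h0 hM q hq γ hγ0 hγM n c
    refine (hc c).trans ?_
    have h2 : Fstar (fun i j : Fin n => γ (c i) (c j)) M + (1 / (n:ℝ)) * e' c
        ≤ (∫ x, Fstar (fun i j => g (x i) (x j)) M ∂(Measure.pi (fun i => Uc q (c i))))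
          + (3 / (n:ℝ)) * e' c := by
      have : (3 / (n:ℝ)) * e' c = (1 / (n:ℝ)) * (2 * e' c) + (1 / (n:ℝ)) * e' c := by ring
      rw [this]
      linarith
    have h3 := mul_le_mul_of_nonneg_left h2 hw0
    linarith
  have hgm : ∀ i j : Fin n, Measurable (fun x : Fin n → ℝ => g (x i) (x j)) := fun i j =>
    meas_comp2 g hg i j
  have hint := integral_typ hq n (fun x : Fin n → ℝ => Fstar (fun i j => g (x i) (x j)) M)
    (meas_Fstar_comp g hg M) _ (fun x => bound_Fstar_comp g M h0 hM x)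
  have hsum : ∑ c : Fin n → Fin q, w * e' c ≤ n * n * ρ := by
    have h1 : ∑ c : Fin n → Fin q, w * e' c
        = ∑ i : Fin n, ∑ j : Fin n, if i ≠ j then
          (∫ x in Set.Icc (0:ℝ) 1, (∫ y in Set.Icc (0:ℝ) 1, |g x y - γ (cidx q x) (cidx q y)|))
          else 0 := by
      simp only [he', Finset.mul_sum]
      rw [Finset.sum_comm]
      refine Finset.sum_congr rfl fun i _ => ?_
      rw [Finset.sum_comm]
      refine Finset.sum_congr rfl fun j _ => ?_
      split_ifs with hij
      · exact sum_ee g M hg h0 hM q hq γ hγ0 hγM n i j hij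
      · simp
    rw [h1]
    have hρ : 0 ≤ ρ := le_trans
      (integral_nonneg fun x => integral_nonneg fun y => abs_nonneg _) hD
    calc _ ≤ ∑ i : Fin n, ∑ j : Fin n, ρ := by
          refine Finset.sum_le_sum fun i _ => Finset.sum_le_sum fun j _ => ?_
          split_ifs
          · exact hD
          · exact hρ
      _ = n * n * ρ := by simp [mul_assoc]
  rw [Fintype.sum_prod_type]
  calc ∑ c : Fin n → Fin q, ∑ l : Fin n, α (c, l) * sSup (phiSet g (ν (c, l)))
      ≤ ∑ c : Fin n → Fin q,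
        (w * (∫ x, Fstar (fun i j => g (x i) (x j)) M ∂(Measure.pi (fun i => Uc q (c i))))
        + (3 / (n:ℝ)) * (w * e' c)) := Finset.sum_le_sum fun c _ => hc2 c
    _ = ∫ x, Fstar (fun i j => g (x i) (x j)) M ∂(typ n)
        + (3 / (n:ℝ)) * ∑ c : Fin n → Fin q, w * e' c := by
        rw [hint, Finset.sum_add_distrib, Finset.mul_sum]
    _ ≤ ∫ x, Fstar (fun i j => g (x i) (x j)) M ∂(typ n) + 3 * n * ρ := by
        have h1 := mul_le_mul_of_nonneg_left hsum (by positivity : (0:ℝ) ≤ 3 / (n:ℝ))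
        have h2 : 3 / (n:ℝ) * (n * n * ρ) = 3 * n * ρ := by field_simp
        linarith

end L1

theorem taskL1 (h1 : TaskStep) (h2 : TaskVertex) : TaskL1 := by
  intro g M hg hsym h0 hM n hn
  have hn0 : (0:ℝ) < n := by exact_mod_cast hn
  refine le_of_forall_pos_le_add fun ε hε => ?_
  obtain ⟨q, hq, γ, hγs, hγ0, hγM, hD⟩ := h1 g M hg hsym h0 hM (ε / (3 * n)) (by positivity)
  have := L1.key h2 g M hg h0 hM q hq γ hγs hγ0 hγM n hn _ hD
  have h3 : 3 * (n:ℝ) * (ε / (3 * n)) = ε := by field_simp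
  rwa [h3] at this

end Pool.Agent.H452R3.CHI
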