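import Pool.Agent.H452R3.CHI.Stmts
set_option autoImplicit false
open MeasureTheory Filter Topology

namespace Pool.Agent.H452R3.CHI.TStep



theorem clamp_le (M a b : ℝ) (ha : 0 ≤ a) (hb : a ≤ M) :
    |a - max 0 (min M b)| ≤ |a - b| := by
  have h1 := le_abs_self (a - b)
  have h2 := neg_abs_le (a - b)
  have h3 := abs_nonneg (a - b)
  rw [abs_le]
  rcases max_cases 0 (min M b) with ⟨e1, e2⟩ | ⟨e1, e2⟩ <;>
  rcases min_cases M b with ⟨e3, e4⟩ | ⟨e3, e4⟩ <;>
  rw [e1] <;> (try rw [e3]) <;> rw [e3] at e2 <;> constructor <;> linarith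

theorem step (g : ℝ → ℝ → ℝ) (M : ℝ) (hg : Measurable (Function.uncurry g))
    (hs : ∀ x y, g x y = g y x) (h0 : ∀ x y, 0 ≤ g x y) (hM : ∀ x y, g x y ≤ M)
    (ε : ℝ) (hε : 0 < ε) :
    ∃ q : ℕ, 1 ≤ q ∧ ∃ γ : ℕ → ℕ → ℝ, (∀ i j, γ i j = γ j i) ∧ (∀ i j, 0 ≤ γ i j) ∧
      (∀ i j, γ i j ≤ M) ∧
      ∫ x in Set.Icc (0:ℝ) 1, (∫ y in Set.Icc (0:ℝ) 1, |g x y - γ (cidx q x) (cidx q y)|) ≤ ε := by
  have hM0 : 0 ≤ M := le_trans (h0 0 0) (hM 0 0)
  set lam : Measure ℝ := volume.restrict (Set.Icc (0:ℝ) 1) with hlam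
  have hfin : IsFiniteMeasure lam := by rw [hlam]; infer_instance
  have hlu : lam Set.univ = 1 := by simp [hlam]
  set rho : Measure (ℝ × ℝ) := lam.prod lam with hrho
  have hru : rho Set.univ = 1 := by
    rw [hrho, ← Set.univ_prod_univ, Measure.prod_prod, hlu]; simp
  have hgi : Integrable (Function.uncurry g) rho := by
    refine Integrable.of_bound hg.aestronglyMeasurable M ?_
    refine Filter.Eventually.of_forall fun z => ?_
    rw [Real.norm_eq_abs]
    simp only [Function.uncurry]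
    rw [abs_of_nonneg (h0 _ _)]
    exact hM _ _
  obtain ⟨h, hcs, hle, hcont, hint⟩ :=
    hgi.exists_hasCompactSupport_integral_sub_le (ε := ε / 2) (by linarith)
  have huc : UniformContinuous h := hcs.uniformContinuous_of_continuous hcont
  obtain ⟨δ, hδ, hδ'⟩ := Metric.uniformContinuous_iff.1 huc (ε / 2) (by linarith)
  obtain ⟨q, hq⟩ := exists_nat_gt (1 / δ)
  have hq0 : 0 < (q : ℝ) := lt_trans (by positivity) hq
  have hq1 : 1 / (q : ℝ) < δ := by
    rw [div_lt_iff₀ hq0]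
    rw [div_lt_iff₀ hδ] at hq
    linarith
  set γ0 : ℕ → ℕ → ℝ := fun i j => max 0 (min M (h ((i : ℝ) / q, (j : ℝ) / q))) with hγ0
  have hγ0n : ∀ i j, 0 ≤ γ0 i j := fun i j => le_max_left _ _
  have hγ0M : ∀ i j, γ0 i j ≤ M := fun i j => max_le hM0 (min_le_left _ _)
  have hcell : ∀ x : ℝ, 0 ≤ x → |x - (cidx q x : ℝ) / q| < δ := by
    intro x hx
    refine lt_of_le_of_lt ?_ hq1
    have h1 : (cidx q x : ℝ) ≤ q * x := Nat.floor_le (by positivity)
    have h2 : (q : ℝ) * x < cidx q x + 1 := Nat.lt_floor_add_one _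
    have h3 : x - (cidx q x : ℝ) / q = (q * x - cidx q x) / q := by field_simp
    rw [h3, abs_of_nonneg (div_nonneg (by linarith) hq0.le)]
    exact div_le_div_of_nonneg_right (by linarith) hq0.le
  have hpt0 : ∀ x y : ℝ, 0 ≤ x → 0 ≤ y →
      |g x y - γ0 (cidx q x) (cidx q y)| ≤ |g x y - h (x, y)| + ε / 2 := by
    intro x y hx hy
    have h1 := clamp_le M (g x y) (h ((cidx q x : ℝ) / q, (cidx q y : ℝ) / q)) (h0 x y) (hM x y)
    have h2 : dist ((x, y) : ℝ × ℝ) ((cidx q x : ℝ) / q, (cidx q y : ℝ) / q) < δ := by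
      rw [Prod.dist_eq, Real.dist_eq, Real.dist_eq]
      exact max_lt (hcell x hx) (hcell y hy)
    have h3 := hδ' h2
    rw [Real.dist_eq] at h3
    calc |g x y - γ0 (cidx q x) (cidx q y)| ≤ _ := h1
      _ ≤ |g x y - h (x, y)| + |h (x, y) - h ((cidx q x : ℝ) / q, (cidx q y : ℝ) / q)| :=
        abs_sub_le _ _ _
      _ ≤ _ := by linarith
  set γ : ℕ → ℕ → ℝ := fun i j => (γ0 i j + γ0 j i) / 2 with hγ
  set G : ℝ × ℝ → ℝ := fun z => (‖Function.uncurry g z - h z‖ +
    ‖Function.uncurry g z.swap - h z.swap‖) / 2 + ε / 2 with hG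
  have hpt : ∀ x y : ℝ, 0 ≤ x → 0 ≤ y →
      |g x y - γ (cidx q x) (cidx q y)| ≤ G (x, y) := by
    intro x y hx hy
    have h1 := hpt0 x y hx hy
    have h2 := hpt0 y x hy hx
    have h3 : g x y - γ (cidx q x) (cidx q y) =
        ((g x y - γ0 (cidx q x) (cidx q y)) + (g y x - γ0 (cidx q y) (cidx q x))) / 2 := by
      rw [hs y x]; simp only [hγ]; ring
    rw [h3, abs_div, abs_of_pos (two_pos : (0:ℝ) < 2)]
    have h4 := abs_add_le (g x y - γ0 (cidx q x) (cidx q y)) (g y x - γ0 (cidx q y) (cidx q x))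
    have h5 : G (x, y) = (|g x y - h (x, y)| + |g y x - h (y, x)|) / 2 + ε / 2 := by
      simp only [hG, Function.uncurry, Real.norm_eq_abs, Prod.swap]
    rw [h5]
    linarith
  have hi1 : Integrable (fun z => ‖Function.uncurry g z - h z‖) rho := (hgi.sub hint).norm
  have hi2 : Integrable (fun z : ℝ × ℝ => ‖Function.uncurry g z.swap - h z.swap‖) rho := by
    have := hi1.swap
    exact this
  have hGi : Integrable G rho := ((hi1.add hi2).div_const 2).add (integrable_const _)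
  have hGint : ∫ z, G z ∂rho ≤ ε := by
    have e1 : ∫ z, G z ∂rho = (∫ z, ‖Function.uncurry g z - h z‖ ∂rho +
        ∫ z : ℝ × ℝ, ‖Function.uncurry g z.swap - h z.swap‖ ∂rho) / 2 + ε / 2 := by
      have e3 : ∫ z, G z ∂rho = ∫ z : ℝ × ℝ, (‖Function.uncurry g z - h z‖ +
          ‖Function.uncurry g z.swap - h z.swap‖) / 2 ∂rho + ∫ z : ℝ × ℝ, (ε / 2) ∂rho :=
        integral_add ((hi1.add hi2).div_const 2) (integrable_const _)
      rw [e3, integral_div, integral_add hi1 hi2, integral_const]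
      simp [Measure.real, hru]
    have e2 : ∫ z : ℝ × ℝ, ‖Function.uncurry g z.swap - h z.swap‖ ∂rho =
        ∫ z, ‖Function.uncurry g z - h z‖ ∂rho :=
      integral_prod_swap (fun z => ‖Function.uncurry g z - h z‖)
    rw [e1, e2]
    linarith
  refine ⟨q, by exact_mod_cast hq0, γ, ?_, ?_, ?_, ?_⟩
  · intro i j; simp only [hγ]; ring
  · intro i j; simp only [hγ]; linarith [hγ0n i j, hγ0n j i]
  · intro i j; simp only [hγ]; linarith [hγ0M i j, hγ0M j i]
  · have hae : ∀ᵐ x ∂lam, 0 ≤ x := by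
      rw [hlam]
      filter_upwards [ae_restrict_mem measurableSet_Icc] with x hx
      exact hx.1
    calc ∫ x, (∫ y, |g x y - γ (cidx q x) (cidx q y)| ∂lam) ∂lam
        ≤ ∫ x, (∫ y, G (x, y) ∂lam) ∂lam := by
          refine integral_mono_of_nonneg ?_ hGi.integral_prod_left ?_
          · exact Filter.Eventually.of_forall fun x => integral_nonneg fun y => abs_nonneg _
          · filter_upwards [hae, hGi.prod_right_ae] with x hx hx2
            refine integral_mono_of_nonneg ?_ hx2 ?_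
            · exact Filter.Eventually.of_forall fun y => abs_nonneg _
            · filter_upwards [hae] with y hy
              exact hpt x y hx hy
      _ = ∫ z, G z ∂rho := (integral_prod G hGi).symm
      _ ≤ ε := hGint

end Pool.Agent.H452R3.CHI.TStep

namespace Pool.Agent.H452R3.CHI

theorem taskStep : TaskStep := fun g M hg hs h0 hM ε hε => TStep.step g M hg hs h0 hM ε hε

end Pool.Agent.H452R3.CHI
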