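import Pool.Agent.H452R3.CHI.Stmts

set_option autoImplicit false

/-! Task Vertex (helper62). -/

namespace Pool.Agent.H452R3.CHI.TVertex

open Pool.Agent.H452R3.CHI

theorem expand {ι : Type} [Fintype ι] (A : ι → ι → ℝ) (u d : ι → ℝ) (t : ℝ) :
    ∑ i, ∑ j, (u i + t * d i) * (u j + t * d j) * A i j =
      (∑ i, ∑ j, u i * u j * A i j) + t * (∑ i, ∑ j, (u i * d j + d i * u j) * A i j) +
        t ^ 2 * (∑ i, ∑ j, d i * d j * A i j) := by
  simp only [Finset.mul_sum, ← Finset.sum_add_distrib]
  refine Finset.sum_congr rfl fun i _ => Finset.sum_congr rfl fun j _ => ?_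
  ring

theorem vertex_principle {ι : Type} [Fintype ι] [DecidableEq ι] (f : (ι → ℝ) → ℝ)
    (hf : ∀ (s : ι → ℝ) (a : ι), 0 ≤ s a → s a ≤ 1 →
      f s ≤ (1 - s a) * f (Function.update s a 0) + s a * f (Function.update s a 1))
    (h0 : ∀ s : ι → ℝ, (∀ i, s i = 0 ∨ s i = 1) → f s ≤ 0) :
    ∀ (T : Finset ι) (s : ι → ℝ), (∀ i, 0 ≤ s i) → (∀ i, s i ≤ 1) →
      (∀ i ∉ T, s i = 0 ∨ s i = 1) → f s ≤ 0 := by
  intro T
  induction T using Finset.induction_on with
  | empty => intro s _ _ h; exact h0 s fun i => h i (by simp)
  | insert a T ha ih =>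
    intro s hs0 hs1 h
    have key : ∀ x : ℝ, (x = 0 ∨ x = 1) → f (Function.update s a x) ≤ 0 := by
      intro x hx
      refine ih _ ?_ ?_ ?_
      · intro i
        by_cases hi : i = a
        · subst hi; rcases hx with rfl | rfl <;> simp
        · rw [Function.update_of_ne hi]; exact hs0 i
      · intro i
        by_cases hi : i = a
        · subst hi; rcases hx with rfl | rfl <;> simp
        · rw [Function.update_of_ne hi]; exact hs1 i
      · intro i hiT
        by_cases hi : i = a
        · subst hi; rw [Function.update_self]; exact hx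
        · rw [Function.update_of_ne hi]
          exact h i (by simp [hi, hiT])
    have h1 := hf s a (hs0 a) (hs1 a)
    have h2 := key 0 (Or.inl rfl)
    have h3 := key 1 (Or.inr rfl)
    have h4 := hs0 a
    have h5 := hs1 a
    nlinarith [mul_nonneg (sub_nonneg.2 h5) (neg_nonneg.2 h2), mul_nonneg h4 (neg_nonneg.2 h3)]

theorem taskVertex : TaskVertex := by
  classical
  intro ι _ r Γ c e hr hΓ hS s hs0 hs1
  let A : ι → ι → ℝ := fun i j => r i * r j * Γ i j
  let f : (ι → ℝ) → ℝ := fun s =>
    ∑ i, ∑ j, s i * s j * A i j - (c * ∑ i, s i * r i + e)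
  have hf : f s ≤ 0 := by
    refine vertex_principle f ?_ ?_ Finset.univ s hs0 hs1 (fun i hi => by simp at hi)
    · intro s a ha0 ha1
      let u : ι → ℝ := Function.update s a 0
      let d : ι → ℝ := Pi.single a 1
      have e1 : s = fun i => u i + s a * d i := by
        funext i
        by_cases hi : i = a
        · subst hi; simp [u, d]
        · simp [u, d, hi]
      have e2 : Function.update s a 1 = fun i => u i + 1 * d i := by
        funext i
        by_cases hi : i = a
        · subst hi; simp [u, d]
        · simp [u, d, hi]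
      have e3 : ∀ t : ℝ, f (fun i => u i + t * d i) =
          f u + t * ((∑ i, ∑ j, (u i * d j + d i * u j) * A i j) - c * ∑ i, d i * r i) +
            t ^ 2 * A a a := by
        intro t
        have h1 := expand A u d t
        have h2 : ∑ i, ∑ j, d i * d j * A i j = A a a := by
          simp [d, Pi.single_apply]
        have h3 : ∑ i, (u i + t * d i) * r i = ∑ i, u i * r i + t * ∑ i, d i * r i := by
          rw [Finset.mul_sum, ← Finset.sum_add_distrib]
          exact Finset.sum_congr rfl fun i _ => by ring
        simp only [f]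
        rw [h1, h2, h3]
        ring
      have hA : 0 ≤ A a a := mul_nonneg (mul_nonneg (hr a) (hr a)) (hΓ a)
      have h5 : f s = f u + s a * ((∑ i, ∑ j, (u i * d j + d i * u j) * A i j) -
          c * ∑ i, d i * r i) + s a ^ 2 * A a a := by
        rw [← e3, ← e1]
      have h6 := e3 1
      rw [← e2] at h6
      change f s ≤ (1 - s a) * f u + s a * f (Function.update s a 1)
      rw [h5, h6]
      nlinarith [mul_nonneg (mul_nonneg ha0 (sub_nonneg.2 ha1)) hA]
    · intro s hs
      let S : Finset ι := Finset.univ.filter (fun i => s i = 1)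
      have hs' : s = fun i => if i ∈ S then (1 : ℝ) else 0 := by
        funext i
        rcases hs i with h | h <;> simp [S, h]
      have h1 := hS S
      have h2 : ∑ i, ∑ j, s i * s j * A i j = ∑ i ∈ S, ∑ j ∈ S, r i * r j * Γ i j := by
        have hrow : ∀ i, ∑ j, s i * s j * A i j = if i ∈ S then ∑ j ∈ S, r i * r j * Γ i j
            else 0 := by
          intro i
          by_cases hi : i ∈ S
          · rw [if_pos hi, hs']
            simp [hi, A]
          · rw [if_neg hi, hs']
            simp [hi]
        rw [Finset.sum_congr rfl fun i _ => hrow i, Finset.sum_ite_mem, Finset.univ_inter]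
      have h3 : ∑ i, s i * r i = ∑ i ∈ S, r i := by
        rw [hs']
        simp
      simp only [f]
      rw [h2, h3]
      linarith
  have := hf
  simp only [f, A] at this
  linarith

end Pool.Agent.H452R3.CHI.TVertex
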