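import Pool.Agent.H452R3.CHI.Stmts

set_option autoImplicit false
open MeasureTheory Filter Topology

namespace Pool.Agent.H452R3.CHI

/-- `R` can be properly coloured with `c` colours -/
def Col {n : ℕ} (G : SimpleGraph (Fin n)) (R : Finset (Fin n)) (c : ℕ) : Prop :=
  ∃ f : Fin n → ℕ, (∀ u ∈ R, f u < c) ∧ ∀ u ∈ R, ∀ v ∈ R, G.Adj u v → f u ≠ f v

lemma Col.mono {n : ℕ} {G : SimpleGraph (Fin n)} {R : Finset (Fin n)} {c d : ℕ}
    (h : Col G R c) (hcd : c ≤ d) : Col G R d := by
  obtain ⟨f, h1, h2⟩ := h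
  exact ⟨f, fun u hu => lt_of_lt_of_le (h1 u hu) hcd, h2⟩

lemma Col.add {n : ℕ} {G : SimpleGraph (Fin n)} {R I : Finset (Fin n)} {c : ℕ}
    (hI : indep G I) (h : Col G (R \ I) c) : Col G R (c + 1) := by
  classical
  obtain ⟨f, h1, h2⟩ := h
  refine ⟨fun u => if u ∈ I then c else f u, ?_, ?_⟩
  · intro u hu
    by_cases hi : u ∈ I
    · simp [hi]
    · simp only [hi, if_false]
      exact lt_of_lt_of_le (h1 u (Finset.mem_sdiff.2 ⟨hu, hi⟩)) (Nat.le_succ c)
  · intro u hu v hv huv
    by_cases hi : u ∈ I <;> by_cases hj : v ∈ I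
    · exact absurd huv (hI u hi v hj)
    · simp only [hi, hj, if_true, if_false]
      exact (h1 v (Finset.mem_sdiff.2 ⟨hv, hj⟩)).ne'
    · simp only [hi, hj, if_true, if_false]
      exact (h1 u (Finset.mem_sdiff.2 ⟨hu, hi⟩)).ne
    · simp only [hi, hj, if_false]
      exact h2 u (Finset.mem_sdiff.2 ⟨hu, hi⟩) v (Finset.mem_sdiff.2 ⟨hv, hj⟩) huv

lemma Col.card {n : ℕ} (G : SimpleGraph (Fin n)) (R : Finset (Fin n)) : Col G R R.card := by
  classical
  refine ⟨fun u => if h : u ∈ R then (R.equivFin ⟨u, h⟩).1 else 0, ?_, ?_⟩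
  · intro u hu
    simp only [hu, dif_pos]
    exact (R.equivFin ⟨u, hu⟩).2
  · intro u hu v hv huv h
    simp only [hu, hv, dif_pos] at h
    have h' := R.equivFin.injective (Fin.ext h)
    have : u = v := by simpa using h'
    exact G.ne_of_adj huv this

lemma chrom_le {n : ℕ} {G : SimpleGraph (Fin n)} {c : ℕ} (h : Col G Finset.univ c) :
    G.chromaticNumber.toNat ≤ c := by
  obtain ⟨f, h1, h2⟩ := h
  have hc : G.Colorable c := by
    refine ⟨SimpleGraph.Coloring.mk (fun u => (⟨f u, h1 u (Finset.mem_univ _)⟩ : Fin c)) ?_⟩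
    intro u v huv h
    exact h2 u (Finset.mem_univ _) v (Finset.mem_univ _) huv (by simpa using congrArg Fin.val h)
  have := hc.chromaticNumber_le
  exact ENat.toNat_le_of_le_natCast this

/-- phase 2 -/
lemma phase2 {n : ℕ} (G : SimpleGraph (Fin n)) (s m : ℕ)
    (h : ∀ U : Finset (Fin n), s ≤ U.card → ∃ I ⊆ U, indep G I ∧ I.card = m) :
    ∀ j : ℕ, ∀ U : Finset (Fin n), U.card ≤ s + j * m → Col G U (s + j) := by
  intro j
  induction j with
  | zero =>
    intro U hU
    exact (Col.card G U).mono (by simpa using hU)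
  | succ j ih =>
    intro U hU
    by_cases hc : U.card ≤ s + j * m
    · exact (ih U hc).mono (by omega)
    · obtain ⟨I, hIU, hI, hIc⟩ := h U (by
        have : s ≤ s + j * m := Nat.le_add_right _ _
        omega)
      have h1 : (U \ I).card ≤ s + j * m := by
        rw [Finset.card_sdiff_of_subset hIU, hIc]
        have : (j + 1) * m = j * m + m := by ring
        omega
      exact Col.add hI (ih _ h1)

/-- phase 1 -/
lemma phase1 {n q k : ℕ} (G : SimpleGraph (Fin n)) (V : Fin q → Finset (Fin n))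
    (m : Fin k → ℝ) (r : Fin k → Fin q → ℝ) (u w : ℝ) (hr : ∀ i c, 0 ≤ r i c) (hm : ∀ i, 0 ≤ m i)
    (P : Fin k → Prop)
    (h : ∀ i, P i → ∀ U : Finset (Fin n), (∀ c, u ≤ ((U ∩ V c).card : ℝ)) →
      ∃ I ⊆ U, indep G I ∧ (∀ c, ((I ∩ V c).card : ℝ) ≤ r i c * m i) ∧ m i - w ≤ (I.card : ℝ)) :
    ∀ s : Multiset (Fin k), (∀ i ∈ s, P i) →
      (∀ c, (s.map (fun i => r i c * m i)).sum ≤ ((V c).card : ℝ) - u) →
      ∃ U : Finset (Fin n), (∀ c : ℕ, Col G U c → Col G Finset.univ (c + Multiset.card s)) ∧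
        (U.card : ℝ) ≤ n - (s.map (fun i => m i - w)).sum ∧
        ∀ c, ((V c).card : ℝ) - (s.map (fun i => r i c * m i)).sum ≤ ((U ∩ V c).card : ℝ) := by
  intro s
  induction s using Multiset.induction_on with
  | empty =>
    intro _ _
    refine ⟨Finset.univ, fun c hc => by simpa using hc, by simp, fun c => by simp⟩
  | cons i s ih =>
    intro hP hs
    simp only [Multiset.map_cons, Multiset.sum_cons] at hs
    obtain ⟨U, h1, h2, h3⟩ := ih (fun j hj => hP j (Multiset.mem_cons_of_mem hj)) (fun c => by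
      have := hs c
      have h0 : 0 ≤ r i c * m i := mul_nonneg (hr i c) (hm i)
      linarith)
    obtain ⟨I, hIU, hI, hIc, hIm⟩ := h i (hP i (Multiset.mem_cons_self i s)) U (fun c => by
      have := h3 c
      have := hs c
      have h0 : 0 ≤ r i c * m i := mul_nonneg (hr i c) (hm i)
      linarith)
    refine ⟨U \ I, ?_, ?_, ?_⟩
    · intro c hc
      have := h1 (c + 1) (Col.add hI hc)
      rw [Multiset.card_cons]
      convert this using 1
      ring
    · rw [Finset.card_sdiff_of_subset hIU, Nat.cast_sub (Finset.card_le_card hIU)]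
      simp only [Multiset.map_cons, Multiset.sum_cons]
      linarith
    · intro c
      have hsub : (U \ I) ∩ V c = (U ∩ V c) \ (I ∩ V c) := by
        ext v
        simp only [Finset.mem_inter, Finset.mem_sdiff]
        tauto
      rw [hsub, Finset.card_sdiff_of_subset (Finset.inter_subset_inter_right hIU),
        Nat.cast_sub (Finset.card_le_card (Finset.inter_subset_inter_right hIU))]
      simp only [Multiset.map_cons, Multiset.sum_cons]
      have := h3 c
      have := hIc c
      linarith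

end Pool.Agent.H452R3.CHI
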