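import Pool.Agent.H452R3.CHI.Up9

set_option autoImplicit false
open MeasureTheory Filter Topology
open scoped ENNReal

namespace Pool.Agent.H452R3.CHI

lemma int_c {n : ℕ} (c : ℝ) : ∫ _x, c ∂(typ n) = c := by simp

lemma int_small {n : ℕ} (p : (Fin n → ℝ) → ℝ) (hp : Measurable p) (h0 : ∀ x, 0 ≤ p x)
    (h1 : ∀ x, p x ≤ 1) (θ : ℝ) (hθ : 0 < θ) (X : Set (Fin n → ℝ))
    (hX : typ n X ≤ ENNReal.ofReal θ) (hx : ∀ x ∉ X, p x ≤ θ) : ∫ x, p x ∂(typ n) ≤ 2 * θ := by
  set Y := toMeasurable (typ n) X with hY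
  have hYm : MeasurableSet Y := measurableSet_toMeasurable _ _
  have hXY : X ⊆ Y := subset_toMeasurable _ _
  have hYX : typ n Y ≤ ENNReal.ofReal θ := by rw [hY, measure_toMeasurable]; exact hX
  have hYr : (typ n).real Y ≤ θ := by
    unfold Measure.real
    exact ENNReal.toReal_le_of_le_ofReal hθ.le hYX
  have hip : Integrable p (typ n) :=
    Integrable.of_bound hp.aestronglyMeasurable 1
      (Eventually.of_forall fun x => by
        rw [Real.norm_eq_abs, abs_of_nonneg (h0 x)]; exact h1 x)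
  have hiY : Integrable (Y.indicator (1 : (Fin n → ℝ) → ℝ)) (typ n) :=
    (integrable_const (1:ℝ)).indicator hYm
  calc ∫ x, p x ∂(typ n) ≤ ∫ x, (θ + Y.indicator (1 : (Fin n → ℝ) → ℝ) x) ∂(typ n) := by
        refine integral_mono hip ((integrable_const θ).add hiY) fun x => ?_
        by_cases hxY : x ∈ Y
        · simp only [Set.indicator_of_mem hxY, Pi.one_apply]
          linarith [h1 x]
        · simp only [Set.indicator_of_notMem hxY, add_zero]
          exact hx x (fun h => hxY (hXY h))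
    _ = θ + (typ n).real Y := by
        rw [integral_add (integrable_const θ) hiY, integral_indicator_one hYm]
        simp
    _ ≤ 2 * θ := by linarith

/-- upper tail, integrated -/
lemma upper_int (hV : TaskVertex) (hC : TaskCount) (hJ : TaskJ) (hSt : TaskStep) (hCe : TaskCells)
    (hB : TaskBad) (g : ℝ → ℝ → ℝ) (M g0 : ℝ) (hm : Measurable (Function.uncurry g))
    (hs : ∀ x y, g x y = g y x) (hg : ∀ x y, g0 ≤ g x y) (h1 : ∀ x y, g x y ≤ M) (hg0 : 0 < g0)
    (ε θ : ℝ) (hε : 0 < ε) (hθ : 0 < θ) :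
    ∀ᶠ n : ℕ in atTop, ∫ x, Pr (fun i j => g (x i) (x j))
        (fun G => (1 + ε) * (sInf (PhiSet g) * n / (2 * Real.log n))
          < (G.chromaticNumber.toNat : ℝ)) ∂(typ n) ≤ 2 * θ := by
  have h0 : ∀ x y, 0 ≤ g x y := fun x y => hg0.le.trans (hg x y)
  filter_upwards [upper hV hC hJ hSt hCe hB g M g0 hm hs hg h1 hg0 ε θ hε hθ] with n hn
  obtain ⟨X, hX, hx⟩ := hn
  exact int_small _ (meas_Pr g hm _) (fun x => Pr_nonneg _ (fun i j => h0 _ _) _)
    (fun x => Pr_le_one _ (fun i j => h0 _ _) _) θ hθ X hX hx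

/-- lower tail, integrated -/
lemma lower_int (hV : TaskVertex) (hC : TaskCount) (hJ : TaskJ) (hSt : TaskStep) (hCe : TaskCells)
    (hB : TaskBad) (hFM : TaskFM) (hFS : TaskFS) (hL1 : TaskL1) (g : ℝ → ℝ → ℝ) (M g0 : ℝ)
    (hm : Measurable (Function.uncurry g))
    (hs : ∀ x y, g x y = g y x) (hg : ∀ x y, g0 ≤ g x y) (h1 : ∀ x y, g x y ≤ M) (hg0 : 0 < g0)
    (ε θ : ℝ) (hε : 0 < ε) (hθ : 0 < θ) :
    ∀ᶠ n : ℕ in atTop, ∫ x, Pr (fun i j => g (x i) (x j))
        (fun G => (G.chromaticNumber.toNat : ℝ)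
          < (1 - ε) * (sInf (PhiSet g) * n / (2 * Real.log n))) ∂(typ n) ≤ θ := by
  have h0 : ∀ x y, 0 ≤ g x y := fun x y => hg0.le.trans (hg x y)
  have hM : 0 < M := lt_of_lt_of_le hg0 ((hg 0 0).trans (h1 0 0))
  have hΦg := Phi_ge g M g0 hm h0 h1 hg
  have hL1' := hL1 g M hm hs h0 h1
  set Φ := sInf (PhiSet g) with hΦd
  have hΦ : 0 < Φ := lt_of_lt_of_le hg0 hΦg
  set s : ℝ := min 1 (ε * θ / 20) with hsd
  have hs0 : 0 < s := lt_min one_pos (by positivity)
  have hs1 : s ≤ 1 := min_le_left _ _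
  have hs2 : s ≤ ε * θ / 20 := min_le_right _ _
  set θ1 : ℝ := g0 * ε * θ / (8 * M) with hθ1d
  have hθ1 : 0 < θ1 := by positivity
  have hup := upper_int hV hC hJ hSt hCe hB g M g0 hm hs hg h1 hg0 s θ1 hs0 hθ1
  rw [← hΦd] at hup
  have hlog : Tendsto (fun n : ℕ => Real.log n) atTop atTop :=
    Real.tendsto_log_atTop.comp tendsto_natCast_atTop_atTop
  have hexp : Tendsto (fun n : ℕ => Real.exp ((n : ℝ) ^ (-s)) - 1) atTop (𝓝 0) := by
    have e1 : Tendsto (fun n : ℕ => (n : ℝ) ^ (-s)) atTop (𝓝 0) :=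
      (tendsto_rpow_neg_atTop hs0).comp tendsto_natCast_atTop_atTop
    have e2 := (Real.continuous_exp.tendsto 0).comp e1
    rw [Real.exp_zero] at e2
    have e3 := e2.sub_const 1
    rw [sub_self] at e3
    exact e3
  have hδ : ∀ᶠ n : ℕ in atTop, Real.exp ((n : ℝ) ^ (-s)) - 1 ≤ g0 * ε * θ / (4 * M) :=
    hexp.eventually_le_const (by positivity)
  filter_upwards [hup, hδ, eventually_ge_atTop 1, hlog.eventually_ge_atTop 1,
    hlog.eventually_ge_atTop (M / (2 * s))] with n k1 k2 k3 k4 k5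
  have hL : 0 < Real.log n := by linarith
  have hL1n := hL1' n k3
  set T : ℝ := Φ * n / (2 * Real.log n) with hT
  set pA : (Fin n → ℝ) → ℝ := fun x => Pr (fun i j => g (x i) (x j))
    (fun G => (G.chromaticNumber.toNat : ℝ) < (1 - ε) * T) with hpA
  set pU : (Fin n → ℝ) → ℝ := fun x => Pr (fun i j => g (x i) (x j))
    (fun G => (1 + s) * T < (G.chromaticNumber.toNat : ℝ)) with hpU
  have iA : Integrable pA (typ n) := int_Pr g hm h0 _
  have iU : Integrable pU (typ n) := int_Pr g hm h0 _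
  have hM2 : M / (2 * Real.log n) ≤ s := by
    rw [div_le_iff₀ (by positivity)] at k5 ⊢
    linarith
  have hpt : ∀ x : Fin n → ℝ, Fstar (fun i j => g (x i) (x j)) M
      ≤ Φ * (1 + 2 * s) * (1 + s) - Φ * ε * pA x + M * pU x
        + M * (Real.exp ((n : ℝ) ^ (-s)) - 1) := fun x =>
    pointwise hFM hFS _ M ε s s Φ T (fun i j => h0 _ _) hM.le k3 hL hs0 hε hs0 hΦ.le hT hM2
  have i1 : Integrable (fun x => Φ * (1 + 2 * s) * (1 + s) - Φ * ε * pA x) (typ n) :=
    (integrable_const _).sub (iA.const_mul _)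
  have i2 : Integrable (fun x => Φ * (1 + 2 * s) * (1 + s) - Φ * ε * pA x + M * pU x) (typ n) :=
    i1.add (iU.const_mul _)
  have hint : ∫ x, Fstar (fun i j => g (x i) (x j)) M ∂(typ n)
      ≤ Φ * (1 + 2 * s) * (1 + s) - Φ * ε * (∫ x, pA x ∂(typ n)) + M * (∫ x, pU x ∂(typ n))
        + M * (Real.exp ((n : ℝ) ^ (-s)) - 1) := by
    calc ∫ x, Fstar (fun i j => g (x i) (x j)) M ∂(typ n)
        ≤ ∫ x, (Φ * (1 + 2 * s) * (1 + s) - Φ * ε * pA x + M * pU x
          + M * (Real.exp ((n : ℝ) ^ (-s)) - 1)) ∂(typ n) := by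
          refine integral_mono_of_nonneg (Eventually.of_forall fun x => ?_)
            (i2.add (integrable_const _)) (Eventually.of_forall hpt)
          exact Fstar_nonneg _ M (fun i j => h0 _ _) hM.le
      _ = _ := by
          rw [integral_add i2 (integrable_const _), integral_add i1 (iU.const_mul _),
            integral_sub (integrable_const _) (iA.const_mul _), int_c, int_c]
          have e1 : ∫ a, Φ * ε * pA a ∂(typ n) = Φ * ε * ∫ a, pA a ∂(typ n) :=
            integral_const_mul _ _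
          have e2 : ∫ a, M * pU a ∂(typ n) = M * ∫ a, pU a ∂(typ n) :=
            integral_const_mul _ _
          rw [e1, e2]
  have f1 : M * (∫ x, pU x ∂(typ n)) ≤ Φ * (ε * θ / 4) := by
    calc M * (∫ x, pU x ∂(typ n)) ≤ M * (2 * θ1) := by gcongr
      _ = g0 * (ε * θ / 4) := by rw [hθ1d]; field_simp; ring
      _ ≤ Φ * (ε * θ / 4) := by gcongr
  have f2 : M * (Real.exp ((n : ℝ) ^ (-s)) - 1) ≤ Φ * (ε * θ / 4) := by
    calc M * (Real.exp ((n : ℝ) ^ (-s)) - 1) ≤ M * (g0 * ε * θ / (4 * M)) := by gcongr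
      _ = g0 * (ε * θ / 4) := by field_simp
      _ ≤ Φ * (ε * θ / 4) := by gcongr
  have f3 : Φ * (1 + 2 * s) * (1 + s) ≤ Φ * (1 + ε * θ / 4) := by
    rw [mul_assoc]
    refine mul_le_mul_of_nonneg_left ?_ hΦ.le
    nlinarith
  have f4 : Φ * ε * (∫ x, pA x ∂(typ n)) ≤ Φ * ε * θ := by
    have : 0 < Φ * ε * θ := by positivity
    have e : Φ * (1 + ε * θ / 4) = Φ + Φ * (ε * θ / 4) := by ring
    have e' : Φ * (ε * θ / 4) = (Φ * ε * θ) / 4 := by ring
    rw [e, e'] at f3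
    rw [e'] at f1 f2
    linarith
  exact le_of_mul_le_mul_left f4 (by positivity)

/-- the two-sided statement in real form -/
theorem real_form (hV : TaskVertex) (hC : TaskCount) (hJ : TaskJ) (hSt : TaskStep)
    (hCe : TaskCells)
    (hB : TaskBad) (hFM : TaskFM) (hFS : TaskFS) (hL1 : TaskL1) (g : ℝ → ℝ → ℝ) (M g0 : ℝ)
    (hm : Measurable (Function.uncurry g))
    (hs : ∀ x y, g x y = g y x) (hg : ∀ x y, g0 ≤ g x y) (h1 : ∀ x y, g x y ≤ M) (hg0 : 0 < g0)
    (ε : ℝ) (hε : 0 < ε) :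
    Tendsto (fun n : ℕ => ∫ x, Pr (fun i j => g (x i) (x j))
        (fun G => (1 - ε) * (sInf (PhiSet g) * n / (2 * Real.log n))
            ≤ (G.chromaticNumber.toNat : ℝ) ∧
          (G.chromaticNumber.toNat : ℝ)
            ≤ (1 + ε) * (sInf (PhiSet g) * n / (2 * Real.log n))) ∂(typ n)) atTop (𝓝 1) := by
  have h0 : ∀ x y, 0 ≤ g x y := fun x y => hg0.le.trans (hg x y)
  rw [Metric.tendsto_atTop]
  intro θ hθ
  have hE := (upper_int hV hC hJ hSt hCe hB g M g0 hm hs hg h1 hg0 ε (θ / 8) hε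
    (by positivity)).and
    (lower_int hV hC hJ hSt hCe hB hFM hFS hL1 g M g0 hm hs hg h1 hg0 ε (θ / 4) hε (by positivity))
  obtain ⟨N, hN⟩ := eventually_atTop.1 hE
  refine ⟨N, fun n hn => ?_⟩
  obtain ⟨k1, k2⟩ := hN n hn
  set T : ℝ := sInf (PhiSet g) * n / (2 * Real.log n) with hT
  set pE : (Fin n → ℝ) → ℝ := fun x => Pr (fun i j => g (x i) (x j))
    (fun G => (1 - ε) * T ≤ (G.chromaticNumber.toNat : ℝ) ∧
      (G.chromaticNumber.toNat : ℝ) ≤ (1 + ε) * T) with hpE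
  set pA : (Fin n → ℝ) → ℝ := fun x => Pr (fun i j => g (x i) (x j))
    (fun G => (G.chromaticNumber.toNat : ℝ) < (1 - ε) * T) with hpA
  set pU : (Fin n → ℝ) → ℝ := fun x => Pr (fun i j => g (x i) (x j))
    (fun G => (1 + ε) * T < (G.chromaticNumber.toNat : ℝ)) with hpU
  have iE : Integrable pE (typ n) := int_Pr g hm h0 _
  have iA : Integrable pA (typ n) := int_Pr g hm h0 _
  have iU : Integrable pU (typ n) := int_Pr g hm h0 _
  have hpt : ∀ x, 1 - (pA x + pU x) ≤ pE x := by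
    intro x
    have ha : ∀ i j : Fin n, 0 ≤ (fun i j => g (x i) (x j)) i j := fun i j => h0 _ _
    have e1 := Pr_compl (fun i j => g (x i) (x j))
      (fun G : SimpleGraph (Fin n) => (1 - ε) * T ≤ (G.chromaticNumber.toNat : ℝ) ∧
        (G.chromaticNumber.toNat : ℝ) ≤ (1 + ε) * T)
    have e2 := Pr_mono (fun i j => g (x i) (x j)) ha
      (fun G : SimpleGraph (Fin n) => ¬ ((1 - ε) * T ≤ (G.chromaticNumber.toNat : ℝ) ∧
        (G.chromaticNumber.toNat : ℝ) ≤ (1 + ε) * T))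
      (fun G => (G.chromaticNumber.toNat : ℝ) < (1 - ε) * T ∨
        (1 + ε) * T < (G.chromaticNumber.toNat : ℝ)) (fun G hG => by
          by_contra hcon
          push Not at hcon
          exact hG hcon)
    have e3 := Pr_or (fun i j => g (x i) (x j)) ha
      (fun G : SimpleGraph (Fin n) => (G.chromaticNumber.toNat : ℝ) < (1 - ε) * T)
      (fun G => (1 + ε) * T < (G.chromaticNumber.toNat : ℝ))
    have e4 : pE x = Pr (fun i j => g (x i) (x j))
      (fun G : SimpleGraph (Fin n) => (1 - ε) * T ≤ (G.chromaticNumber.toNat : ℝ) ∧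
        (G.chromaticNumber.toNat : ℝ) ≤ (1 + ε) * T) := rfl
    have e5 : pA x = Pr (fun i j => g (x i) (x j))
      (fun G : SimpleGraph (Fin n) => (G.chromaticNumber.toNat : ℝ) < (1 - ε) * T) := rfl
    have e6 : pU x = Pr (fun i j => g (x i) (x j))
      (fun G : SimpleGraph (Fin n) => (1 + ε) * T < (G.chromaticNumber.toNat : ℝ)) := rfl
    rw [e4, e5, e6]
    linarith
  have iAU : Integrable (fun x => pA x + pU x) (typ n) := iA.add iU
  have hlow : 1 - (∫ x, pA x ∂(typ n) + ∫ x, pU x ∂(typ n)) ≤ ∫ x, pE x ∂(typ n) := by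
    calc 1 - (∫ x, pA x ∂(typ n) + ∫ x, pU x ∂(typ n))
        = ∫ x, (1 - (pA x + pU x)) ∂(typ n) := by
          rw [integral_sub (integrable_const _) iAU, integral_add iA iU, int_c]
      _ ≤ _ := integral_mono ((integrable_const _).sub iAU) iE hpt
  have hhi : ∫ x, pE x ∂(typ n) ≤ 1 := by
    calc ∫ x, pE x ∂(typ n) ≤ ∫ _x, (1:ℝ) ∂(typ n) :=
          integral_mono iE (integrable_const _) fun x => Pr_le_one _ (fun i j => h0 _ _) _
      _ = 1 := by simp
  rw [Real.dist_eq, abs_lt]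
  constructor <;> linarith

end Pool.Agent.H452R3.CHI
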