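import Pool.Agent.H452R3.CHI.Up10
import Pool.Agent.H452R3.CHI.TFS
import Pool.Agent.H452R3.CHI.TJ
import Pool.Agent.H452R3.CHI.TCount
import Pool.Agent.H452R3.CHI.TL1
import Pool.Agent.H452R3.CHI.TStep
import Pool.Agent.H452R3.CHI.TVertex
import Pool.Agent.H885R3.CHI.TBad
import Pool.Agent.H339R3.CHI.TCells
import Pool.Agent.H378R3.CHI_GJ
import Pool.Agent.H449R3.CHIJanson

set_option autoImplicit false
open MeasureTheory Filter Topology
open scoped ENNReal

namespace Pool.Agent.H452R3.CHI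

open Classical in
lemma tsum_eq {n : ℕ} (W g : ℝ → ℝ → ℝ) (x : Fin n → ℝ)
    (hW : ∀ i j, Real.exp (- g (x i) (x j)) = 1 - W (x i) (x j))
    (h0 : ∀ i j, 0 ≤ W (x i) (x j)) (h1 : ∀ i j, W (x i) (x j) ≤ 1)
    (A : SimpleGraph (Fin n) → Prop) [inst : DecidablePred A] :
    ∑' G : SimpleGraph (Fin n), (if A G then ∏ i : Fin n, ∏ j : Fin n,
               (if i < j then
                  (if G.Adj i j then ENNReal.ofReal (W (x i) (x j))
                   else ENNReal.ofReal (1 - W (x i) (x j)))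
                else 1) else 0)
      = ENNReal.ofReal (Pr (fun i j => g (x i) (x j)) A) := by
  rw [tsum_fintype]
  unfold Pr
  have hterm : ∀ G : SimpleGraph (Fin n),
      wt (fun i j => g (x i) (x j)) G = ∏ i : Fin n, ∏ j : Fin n,
               (if i < j then
                  (if G.Adj i j then (W (x i) (x j))
                   else (1 - W (x i) (x j)))
                else 1) := by
    intro G
    unfold wt
    refine Finset.prod_congr rfl fun i _ => Finset.prod_congr rfl fun j _ => ?_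
    by_cases hij : i < j
    · rw [if_pos hij, if_pos hij]
      by_cases hA : G.Adj i j
      · rw [if_pos hA, if_pos hA, hW]; ring
      · rw [if_neg hA, if_neg hA, hW]
    · rw [if_neg hij, if_neg hij]
  have hf0 : ∀ (G : SimpleGraph (Fin n)) (i j : Fin n), 0 ≤ (if i < j then
                  (if G.Adj i j then (W (x i) (x j))
                   else (1 - W (x i) (x j)))
                else (1:ℝ)) := by
    intro G i j
    split_ifs
    · exact h0 i j
    · linarith [h1 i j]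
    · exact zero_le_one
  rw [ENNReal.ofReal_sum_of_nonneg]
  · refine Finset.sum_congr rfl fun G _ => ?_
    by_cases hA : A G
    · rw [if_pos hA, if_pos hA, hterm G, ENNReal.ofReal_prod_of_nonneg
        (fun i _ => Finset.prod_nonneg fun j _ => hf0 G i j)]
      refine Finset.prod_congr rfl fun i _ => ?_
      rw [ENNReal.ofReal_prod_of_nonneg (fun j _ => hf0 G i j)]
      refine Finset.prod_congr rfl fun j _ => ?_
      by_cases hij : i < j
      · rw [if_pos hij, if_pos hij]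
        by_cases hA : G.Adj i j
        · rw [if_pos hA, if_pos hA]
        · rw [if_neg hA, if_neg hA]
      · rw [if_neg hij, if_neg hij, ENNReal.ofReal_one]
    · rw [if_neg hA, if_neg hA, ENNReal.ofReal_zero]
  · intro G _
    split_ifs
    · rw [hterm G]
      exact Finset.prod_nonneg fun i _ => Finset.prod_nonneg fun j _ => hf0 G i j
    · exact le_rfl

lemma phi_frozen (W g : ℝ → ℝ → ℝ)
    (hWg : ∀ x ∈ Set.Icc (0:ℝ) 1, ∀ y ∈ Set.Icc (0:ℝ) 1, Real.log (1 / (1 - W x y)) = g x y)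
    (μ : Measure ℝ) (hμ : μ (Set.Icc (0:ℝ) 1)ᶜ = 0) :
    {r : ℝ | ∃ S : Set ℝ, MeasurableSet S ∧ 0 < μ S ∧
        r = (μ S).toReal⁻¹ * ∫ x in S, (∫ y in S, Real.log (1 / (1 - W x y)) ∂μ) ∂μ}
      = phiSet g μ := by
  have hae : ∀ S : Set ℝ, ∀ᵐ x ∂(μ.restrict S), x ∈ Set.Icc (0:ℝ) 1 := by
    intro S
    refine ae_restrict_of_ae ?_
    rw [ae_iff]
    exact hμ
  have key : ∀ S : Set ℝ, ∫ x in S, (∫ y in S, Real.log (1 / (1 - W x y)) ∂μ) ∂μ
      = ∫ x in S, (∫ y in S, g x y ∂μ) ∂μ := by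
    intro S
    refine integral_congr_ae ?_
    filter_upwards [hae S] with x hx
    refine integral_congr_ae ?_
    filter_upwards [hae S] with y hy
    exact hWg x hx y hy
  ext r
  constructor
  · rintro ⟨S, h1, h2, h3⟩
    exact ⟨S, h1, h2, by rw [h3, key]⟩
  · rintro ⟨S, h1, h2, h3⟩
    exact ⟨S, h1, h2, by rw [h3, key]⟩

open Classical in
theorem main (W : ℝ → ℝ → ℝ) (hWm : Measurable (Function.uncurry W))
    (hWs : ∀ x y, W x y = W y x) (c d : ℝ) (hc : 0 < c) (hd : d < 1)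
    (hcd : ∀ x ∈ Set.Icc (0:ℝ) 1, ∀ y ∈ Set.Icc (0:ℝ) 1, c ≤ W x y ∧ W x y ≤ d)
    (φ : Measure ℝ → ℝ)
    (hφ : ∀ μ : Measure ℝ, φ μ = sSup {r : ℝ | ∃ S : Set ℝ, MeasurableSet S ∧ 0 < μ S ∧
        r = (μ S).toReal⁻¹ * ∫ x in S, (∫ y in S, Real.log (1 / (1 - W x y)) ∂μ) ∂μ})
    (Φ : ℝ)
    (hΦ : Φ = sInf {t : ℝ | ∃ k : ℕ, ∃ ν : Fin k → Measure ℝ, ∃ α : Fin k → ℝ,
        (∀ i, IsProbabilityMeasure (ν i)) ∧ (∀ i, ν i (Set.Icc (0:ℝ) 1)ᶜ = 0) ∧
        (∀ i, 0 ≤ α i) ∧ ∑ i, α i = 1 ∧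
        ∑ i, ENNReal.ofReal (α i) • ν i = volume.restrict (Set.Icc (0:ℝ) 1) ∧
        t = ∑ i, α i * φ (ν i)})
    (ε : ℝ) (hε : 0 < ε) :
      Tendsto (fun n : ℕ =>
        ∫⁻ x in Set.univ.pi (fun _ : Fin n => Set.Icc (0:ℝ) 1),
          ∑' G : SimpleGraph (Fin n),
            (if (1 - ε) * (Φ * n / (2 * Real.log n)) ≤ (G.chromaticNumber.toNat : ℝ) ∧
                (G.chromaticNumber.toNat : ℝ) ≤ (1 + ε) * (Φ * n / (2 * Real.log n))
             then ∏ i : Fin n, ∏ j : Fin n,
               (if i < j then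
                  (if G.Adj i j then ENNReal.ofReal (W (x i) (x j))
                   else ENNReal.ofReal (1 - W (x i) (x j)))
                else 1)
             else 0))
        atTop (𝓝 1) := by
  have h00 := hcd 0 (by simp) 0 (by simp)
  have hcd' : c ≤ d := h00.1.trans h00.2
  set W' : ℝ → ℝ → ℝ := fun x y => max c (min d (W x y)) with hW'
  have hW'c : ∀ x y, c ≤ W' x y := fun x y => le_max_left _ _
  have hW'd : ∀ x y, W' x y ≤ d := fun x y => max_le hcd' (min_le_left _ _)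
  set g : ℝ → ℝ → ℝ := fun x y => Real.log (1 / (1 - W' x y)) with hg
  have hge : ∀ x y, g x y = - Real.log (1 - W' x y) := fun x y => by
    rw [hg]; simp only; rw [one_div, Real.log_inv]
  have hgm : Measurable (Function.uncurry g) := by
    have : Function.uncurry g = fun z => Real.log (1 / (1 - max c (min d (Function.uncurry W z)))) := by
      ext z; rfl
    rw [this]
    exact Real.measurable_log.comp (measurable_const.div (measurable_const.sub
      (measurable_const.max (measurable_const.min hWm))))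
  have hgs : ∀ x y, g x y = g y x := fun x y => by
    rw [hge, hge]; simp only [hW']; rw [hWs x y]
  have hgexp : ∀ x y, Real.exp (- g x y) = 1 - W' x y := fun x y => by
    rw [hge, neg_neg, Real.exp_log]
    linarith [hW'd x y]
  set g0 : ℝ := - Real.log (1 - c) with hg0d
  set M : ℝ := - Real.log (1 - d) with hMd
  have hg0 : 0 < g0 := by
    rw [hg0d, neg_pos]
    exact Real.log_neg (by linarith) (by linarith)
  have hgl : ∀ x y, g0 ≤ g x y := fun x y => by
    rw [hge, hg0d, neg_le_neg_iff]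
    exact Real.log_le_log (by linarith [hW'd x y]) (by linarith [hW'c x y])
  have hgu : ∀ x y, g x y ≤ M := fun x y => by
    rw [hge, hMd, neg_le_neg_iff]
    exact Real.log_le_log (by linarith) (by linarith [hW'd x y])
  have hWW' : ∀ x ∈ Set.Icc (0:ℝ) 1, ∀ y ∈ Set.Icc (0:ℝ) 1, W' x y = W x y := by
    intro x hx y hy
    obtain ⟨h1, h2⟩ := hcd x hx y hy
    simp only [hW']
    rw [min_eq_right h2, max_eq_right h1]
  have hWg : ∀ x ∈ Set.Icc (0:ℝ) 1, ∀ y ∈ Set.Icc (0:ℝ) 1,
      Real.log (1 / (1 - W x y)) = g x y := by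
    intro x hx y hy
    rw [hg]; simp only; rw [hWW' x hx y hy]
  have hΦ' : Φ = sInf (PhiSet g) := by
    rw [hΦ]
    congr 1
    ext t
    constructor
    · rintro ⟨k, ν, α, h1, h2, h3, h4, h5, h6⟩
      refine ⟨k, ν, α, h1, h2, h3, h4, h5, ?_⟩
      rw [h6]
      refine Finset.sum_congr rfl fun i _ => ?_
      rw [hφ, phi_frozen W g hWg (ν i) (h2 i)]
    · rintro ⟨k, ν, α, h1, h2, h3, h4, h5, h6⟩
      refine ⟨k, ν, α, h1, h2, h3, h4, h5, ?_⟩
      rw [h6]
      refine Finset.sum_congr rfl fun i _ => ?_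
      rw [hφ, phi_frozen W g hWg (ν i) (h2 i)]
  have hGJ : TaskGJ := Pool.Agent.H378R3.CHIGJ.taskGJ Pool.Agent.H449R3.CHI.taskJanson
  have hreal := real_form TVertex.taskVertex taskCount (taskJ hGJ) taskStep
    Pool.Agent.H339R3.CHI.taskCells Pool.Agent.H885R3.CHI.taskBad taskFM TFS.taskFS
    (taskL1 taskStep TVertex.taskVertex) g M g0 hgm hgs hgl hgu hg0 ε hε
  rw [← hΦ'] at hreal
  have hE := ENNReal.tendsto_ofReal hreal
  rw [ENNReal.ofReal_one] at hE
  refine hE.congr fun n => ?_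
  have hgn : ∀ x y, 0 ≤ g x y := fun x y => hg0.le.trans (hgl x y)
  rw [ofReal_integral_eq_lintegral_ofReal (int_Pr g hgm hgn _)
    (Eventually.of_forall fun x => Pr_nonneg _ (fun i j => hgn _ _) _)]
  have hmeas : typ n = (volume : Measure (Fin n → ℝ)).restrict
      (Set.univ.pi (fun _ : Fin n => Set.Icc (0:ℝ) 1)) := by
    rw [volume_pi, Measure.restrict_pi_pi]
    rfl
  rw [hmeas]
  refine setLIntegral_congr_fun (MeasurableSet.univ_pi fun _ => measurableSet_Icc) ?_
  intro x hx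
  have hxi : ∀ i, x i ∈ Set.Icc (0:ℝ) 1 := fun i => hx i (Set.mem_univ i)
  simp only
  rw [tsum_eq W g x]
  · intro i j
    rw [hgexp, hWW' _ (hxi i) _ (hxi j)]
  · intro i j
    exact hc.le.trans (hcd _ (hxi i) _ (hxi j)).1
  · intro i j
    exact (hcd _ (hxi i) _ (hxi j)).2.trans hd.le

end Pool.Agent.H452R3.CHI
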