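import Pool.Agent.H452R3.CHI.Stmts

set_option autoImplicit false
open MeasureTheory Filter Topology
open scoped ENNReal

namespace Pool.Agent.H452R3.CHI

lemma measurable_cidx (q : ℕ) : Measurable (cidx q) :=
  Nat.measurable_floor.comp (measurable_const.mul measurable_id)

lemma measurable_step (q : ℕ) (γ : ℕ → ℕ → ℝ) :
    Measurable (Function.uncurry (fun x y : ℝ => γ (cidx q x) (cidx q y))) := by
  have h : Measurable (Function.uncurry γ) := measurable_of_countable _
  exact h.comp (((measurable_cidx q).comp measurable_fst).prodMk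
    ((measurable_cidx q).comp measurable_snd))

lemma integrable_bdd {α : Type*} [MeasurableSpace α] (μ : Measure α) [IsFiniteMeasure μ]
    (f : α → ℝ) (M : ℝ) (hf : Measurable f) (h0 : ∀ x, 0 ≤ f x) (h1 : ∀ x, f x ≤ M) :
    Integrable f μ := by
  refine Integrable.of_bound hf.aestronglyMeasurable M (ae_of_all _ fun x => ?_)
  rw [Real.norm_eq_abs, abs_of_nonneg (h0 x)]
  exact h1 x

lemma meas_inner (μ : Measure ℝ) [IsFiniteMeasure μ] (h : ℝ → ℝ → ℝ)
    (hm : Measurable (Function.uncurry h)) : Measurable (fun x => ∫ y, h x y ∂μ) :=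
  (hm.stronglyMeasurable.integral_prod_right (ν := μ)).measurable

lemma ofReal_iter (μ : Measure ℝ) [IsFiniteMeasure μ] (h : ℝ → ℝ → ℝ) (M : ℝ)
    (hm : Measurable (Function.uncurry h)) (h0 : ∀ x y, 0 ≤ h x y) (h1 : ∀ x y, h x y ≤ M) :
    ENNReal.ofReal (∫ x, (∫ y, h x y ∂μ) ∂μ) = ∫⁻ x, (∫⁻ y, ENNReal.ofReal (h x y) ∂μ) ∂μ := by
  have hx : ∀ x, Measurable (h x) := fun x => hm.comp (measurable_prodMk_left)
  have hi : ∀ x, ENNReal.ofReal (∫ y, h x y ∂μ) = ∫⁻ y, ENNReal.ofReal (h x y) ∂μ := fun x =>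
    ofReal_integral_eq_lintegral_ofReal (integrable_bdd μ (h x) M (hx x) (h0 x) (h1 x))
      (ae_of_all _ (h0 x))
  have hb : ∀ x, 0 ≤ ∫ y, h x y ∂μ := fun x => integral_nonneg (h0 x)
  have hb2 : ∀ x, ∫ y, h x y ∂μ ≤ M * μ.real Set.univ := fun x => by
    calc ∫ y, h x y ∂μ ≤ ∫ _y, M ∂μ :=
          integral_mono (integrable_bdd μ (h x) M (hx x) (h0 x) (h1 x)) (integrable_const M) (h1 x)
      _ = M * μ.real Set.univ := by rw [integral_const]; simp [mul_comm]
  rw [ofReal_integral_eq_lintegral_ofReal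
    (integrable_bdd μ _ (M * μ.real Set.univ) (meas_inner μ h hm) hb hb2) (ae_of_all _ hb)]
  exact lintegral_congr hi

lemma integral_cells (ν : Measure ℝ) [IsFiniteMeasure ν] (q : ℕ) (S : Finset ℕ) (f : ℕ → ℝ) :
    ∫ y in {y | cidx q y ∈ S}, f (cidx q y) ∂ν
      = ∑ b ∈ S, ν.real {y | cidx q y = b} * f b := by
  have hset : {y | cidx q y ∈ S} = ⋃ b ∈ S, {y | cidx q y = b} := by
    ext y; simp
  have hmeas : ∀ b, MeasurableSet {y | cidx q y = b} := fun b =>
    measurable_cidx q (measurableSet_singleton b)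
  rw [hset, integral_biUnion_finset S (fun b _ => hmeas b)]
  · refine Finset.sum_congr rfl fun b _ => ?_
    rw [setIntegral_congr_fun (g := fun _ => f b) (hmeas b) (fun y hy => by
      simp only [Set.mem_ofPred_eq] at hy; simp [hy])]
    rw [setIntegral_const, smul_eq_mul]
  · intro a _ b _ hab
    refine Set.disjoint_left.2 fun y hy hy' => hab ?_
    simp only [Set.mem_ofPred_eq] at hy hy'
    rw [← hy, ← hy']
  · intro b _
    refine (IntegrableOn.congr_fun (f := fun _ => f b) ?_ ?_ (hmeas b))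
    · exact integrableOn_const (measure_ne_top _ _)
    · intro y hy
      simp only [Set.mem_ofPred_eq] at hy
      simp [hy]

lemma phi_bdd (g : ℝ → ℝ → ℝ) (M : ℝ) (hm : Measurable (Function.uncurry g))
    (h0 : ∀ x y, 0 ≤ g x y) (h1 : ∀ x y, g x y ≤ M) (ν : Measure ℝ) [IsProbabilityMeasure ν] :
    ∀ r ∈ phiSet g ν, r ≤ M := by
  rintro r ⟨S, hS, hpos, rfl⟩
  have hM : 0 ≤ M := (h0 0 0).trans (h1 0 0)
  have hx : ∀ x, Measurable (g x) := fun x => hm.comp (measurable_prodMk_left)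
  have ht : 0 < (ν S).toReal := ENNReal.toReal_pos hpos.ne' (measure_ne_top _ _)
  have h1' : (ν S).toReal ≤ 1 := by
    have := prob_le_one (μ := ν) (s := S)
    exact ENNReal.toReal_le_of_le_ofReal zero_le_one (by simpa using this)
  have hin : ∀ x, ∫ y in S, g x y ∂ν ≤ M := fun x => by
    calc ∫ y in S, g x y ∂ν ≤ ∫ _y in S, M ∂ν :=
          integral_mono (integrable_bdd _ (g x) M (hx x) (h0 x) (h1 x)) (integrable_const M) (h1 x)
      _ = (ν S).toReal * M := by
          rw [integral_const]; simp [Measure.real]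
      _ ≤ M := by nlinarith
  have hout : ∫ x in S, (∫ y in S, g x y ∂ν) ∂ν ≤ (ν S).toReal * M := by
    calc ∫ x in S, (∫ y in S, g x y ∂ν) ∂ν ≤ ∫ _x in S, M ∂ν := by
          refine integral_mono (integrable_bdd _ _ M (meas_inner _ g hm)
            (fun x => integral_nonneg (h0 x)) hin) (integrable_const M) hin
      _ = (ν S).toReal * M := by
          rw [integral_const]; simp [Measure.real]
  calc (ν S).toReal⁻¹ * ∫ x in S, (∫ y in S, g x y ∂ν) ∂ν
      ≤ (ν S).toReal⁻¹ * ((ν S).toReal * M) :=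
        mul_le_mul_of_nonneg_left hout (inv_nonneg.2 ht.le)
    _ = M := by field_simp

lemma phi_ub (g : ℝ → ℝ → ℝ) (M : ℝ) (hm : Measurable (Function.uncurry g))
    (h0 : ∀ x y, 0 ≤ g x y) (h1 : ∀ x y, g x y ≤ M) (ν : Measure ℝ) [IsProbabilityMeasure ν]
    (S : Set ℝ) (hS : MeasurableSet S) :
    ∫ x in S, (∫ y in S, g x y ∂ν) ∂ν ≤ sSup (phiSet g ν) * (ν S).toReal := by
  rcases eq_or_ne (ν S) 0 with h | h
  · rw [Measure.restrict_eq_zero.2 h]; simp [h]
  · have hpos : 0 < ν S := pos_iff_ne_zero.2 h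
    have ht : 0 < (ν S).toReal := ENNReal.toReal_pos h (measure_ne_top _ _)
    have := le_csSup ⟨M, phi_bdd g M hm h0 h1 ν⟩ (show _ ∈ phiSet g ν from ⟨S, hS, hpos, rfl⟩)
    rw [inv_mul_le_iff₀ ht] at this
    linarith [mul_comm (sSup (phiSet g ν)) (ν S).toReal]

lemma phi_lb (g : ℝ → ℝ → ℝ) (M g0 : ℝ) (hm : Measurable (Function.uncurry g))
    (h0 : ∀ x y, 0 ≤ g x y) (h1 : ∀ x y, g x y ≤ M) (h2 : ∀ x y, g0 ≤ g x y)
    (ν : Measure ℝ) [IsProbabilityMeasure ν] : g0 ≤ sSup (phiSet g ν) := by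
  have hx : ∀ x, Measurable (g x) := fun x => hm.comp (measurable_prodMk_left)
  have := phi_ub g M hm h0 h1 ν Set.univ MeasurableSet.univ
  simp only [Measure.restrict_univ, measure_univ, ENNReal.toReal_one, mul_one] at this
  refine le_trans ?_ this
  have hin : ∀ x, g0 ≤ ∫ y, g x y ∂ν := fun x => by
    have h := integral_mono (μ := ν) (integrable_const g0)
      (integrable_bdd _ (g x) M (hx x) (h0 x) (h1 x)) (h2 x)
    simpa using h
  have hin2 : ∀ x, ∫ y, g x y ∂ν ≤ M := fun x => by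
    have h := integral_mono (μ := ν) (integrable_bdd _ (g x) M (hx x) (h0 x) (h1 x))
      (integrable_const M) (h1 x)
    simpa using h
  have h := integral_mono (μ := ν) (integrable_const g0)
    (integrable_bdd _ _ M (meas_inner _ g hm) (fun x => integral_nonneg (h0 x)) hin2) hin
  simpa using h

/-- the step inequality -/
lemma step_ineq (g : ℝ → ℝ → ℝ) (M : ℝ) (hm : Measurable (Function.uncurry g))
    (h0 : ∀ x y, 0 ≤ g x y) (h1 : ∀ x y, g x y ≤ M) (γ : ℕ → ℕ → ℝ) (q : ℕ)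
    (hγ0 : ∀ i j, 0 ≤ γ i j) (hγ1 : ∀ i j, γ i j ≤ M) (ρ : ℝ)
    (hρ : ∫ x in Set.Icc (0:ℝ) 1, (∫ y in Set.Icc (0:ℝ) 1,
      |g x y - γ (cidx q x) (cidx q y)|) ≤ ρ)
    (ν : Measure ℝ) [IsProbabilityMeasure ν] (α : ℝ) (hα : 0 < α)
    (hν : ENNReal.ofReal α • ν ≤ volume.restrict (Set.Icc (0:ℝ) 1)) (S : Finset ℕ) :
    ∑ a ∈ S, ∑ b ∈ S, ν.real {y | cidx q y = a} * ν.real {y | cidx q y = b} * γ a b
      ≤ sSup (phiSet g ν) * ∑ a ∈ S, ν.real {y | cidx q y = a} + ρ / α ^ 2 := by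
  set A : Set ℝ := {y | cidx q y ∈ S} with hA
  have hAm : MeasurableSet A := measurable_cidx q (Finset.measurableSet S)
  set st : ℝ → ℝ → ℝ := fun x y => γ (cidx q x) (cidx q y) with hst
  set dd : ℝ → ℝ → ℝ := fun x y => |g x y - γ (cidx q x) (cidx q y)| with hdd
  have hstm : Measurable (Function.uncurry st) := measurable_step q γ
  have hddm : Measurable (Function.uncurry dd) := by
    have : Function.uncurry dd = fun z => |Function.uncurry g z - Function.uncurry st z| := by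
      ext z; rfl
    rw [this]
    exact (hm.sub hstm).abs
  have hdd0 : ∀ x y, 0 ≤ dd x y := fun x y => abs_nonneg _
  have hdd1 : ∀ x y, dd x y ≤ M := fun x y => by
    rw [hdd]
    simp only
    rw [abs_le]
    constructor
    · linarith [h0 x y, hγ1 (cidx q x) (cidx q y)]
    · linarith [h1 x y, hγ0 (cidx q x) (cidx q y)]
  have hρ0 : 0 ≤ ρ := le_trans (integral_nonneg fun x => integral_nonneg fun y => hdd0 x y) hρ
  -- left side
  have hL : ∫ x in A, (∫ y in A, st x y ∂ν) ∂ν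
      = ∑ a ∈ S, ∑ b ∈ S, ν.real {y | cidx q y = a} * ν.real {y | cidx q y = b} * γ a b := by
    have : ∀ x, ∫ y in A, st x y ∂ν
        = (fun c => ∑ b ∈ S, ν.real {y | cidx q y = b} * γ c b) (cidx q x) := fun x =>
      integral_cells ν q S (fun b => γ (cidx q x) b)
    simp_rw [this]
    rw [integral_cells ν q S (fun c => ∑ b ∈ S, ν.real {y | cidx q y = b} * γ c b)]
    refine Finset.sum_congr rfl fun a _ => ?_
    rw [Finset.mul_sum]
    refine Finset.sum_congr rfl fun b _ => ?_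
    ring
  have hR1 : (ν A).toReal = ∑ a ∈ S, ν.real {y | cidx q y = a} := by
    have := integral_cells ν q S (fun _ => (1:ℝ))
    rw [setIntegral_const] at this
    simpa [Measure.real, hA] using this
  -- comparison
  have hmain : ENNReal.ofReal (∫ x in A, (∫ y in A, st x y ∂ν) ∂ν)
      ≤ ENNReal.ofReal (∫ x in A, (∫ y in A, g x y ∂ν) ∂ν) + ENNReal.ofReal (ρ / α ^ 2) := by
    rw [ofReal_iter (ν.restrict A) st M hstm (fun x y => hγ0 _ _) (fun x y => hγ1 _ _),
      ofReal_iter (ν.restrict A) g M hm h0 h1]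
    have hgm : ∀ x, Measurable (fun y => ENNReal.ofReal (g x y)) := fun x =>
      ENNReal.measurable_ofReal.comp (hm.comp measurable_prodMk_left)
    have hle : ∀ x, ∫⁻ y in A, ENNReal.ofReal (st x y) ∂ν
        ≤ ∫⁻ y in A, ENNReal.ofReal (g x y) ∂ν + ∫⁻ y in A, ENNReal.ofReal (dd x y) ∂ν := by
      intro x
      rw [← lintegral_add_left (hgm x)]
      refine lintegral_mono fun y => ?_
      rw [← ENNReal.ofReal_add (h0 x y) (hdd0 x y)]
      refine ENNReal.ofReal_le_ofReal ?_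
      have := neg_abs_le (g x y - γ (cidx q x) (cidx q y))
      simp only [hst, hdd]
      linarith
    have hgm2 : Measurable (fun x => ∫⁻ y in A, ENNReal.ofReal (g x y) ∂ν) := by
      have : Measurable (Function.uncurry fun x y => ENNReal.ofReal (g x y)) :=
        ENNReal.measurable_ofReal.comp hm
      exact this.lintegral_prod_right'
    calc ∫⁻ x in A, ∫⁻ y in A, ENNReal.ofReal (st x y) ∂ν ∂ν
        ≤ ∫⁻ x in A, (∫⁻ y in A, ENNReal.ofReal (g x y) ∂ν
            + ∫⁻ y in A, ENNReal.ofReal (dd x y) ∂ν) ∂ν := lintegral_mono hle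
      _ = ∫⁻ x in A, ∫⁻ y in A, ENNReal.ofReal (g x y) ∂ν ∂ν
            + ∫⁻ x in A, ∫⁻ y in A, ENNReal.ofReal (dd x y) ∂ν ∂ν := lintegral_add_left hgm2 _
      _ ≤ _ := by
        gcongr
        -- error term
        set lam := (volume : Measure ℝ).restrict (Set.Icc (0:ℝ) 1) with hlam
        have hν' : ν ≤ (ENNReal.ofReal α)⁻¹ • lam := by
          have h2 : (ENNReal.ofReal α)⁻¹ • (ENNReal.ofReal α • ν) ≤ (ENNReal.ofReal α)⁻¹ • lam := by
            refine Measure.le_iff.2 fun s hs => ?_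
            simp only [Measure.smul_apply, smul_eq_mul]
            gcongr
            have := hν s
            simpa [Measure.smul_apply] using this
          rwa [smul_smul, ENNReal.inv_mul_cancel (by simpa using hα) ENNReal.ofReal_ne_top,
            one_smul] at h2
        have e1 : ∫⁻ x in A, ∫⁻ y in A, ENNReal.ofReal (dd x y) ∂ν ∂ν
            ≤ ∫⁻ x, ∫⁻ y, ENNReal.ofReal (dd x y) ∂ν ∂ν :=
          (lintegral_mono fun x => lintegral_mono' Measure.restrict_le_self le_rfl).trans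
            (lintegral_mono' Measure.restrict_le_self le_rfl)
        have e2 : ∫⁻ x, ∫⁻ y, ENNReal.ofReal (dd x y) ∂ν ∂ν
            ≤ ∫⁻ x, ∫⁻ y, ENNReal.ofReal (dd x y) ∂((ENNReal.ofReal α)⁻¹ • lam)
              ∂((ENNReal.ofReal α)⁻¹ • lam) :=
          (lintegral_mono fun x => lintegral_mono' hν' le_rfl).trans
            (lintegral_mono' hν' le_rfl)
        have e3 : ∫⁻ x, ∫⁻ y, ENNReal.ofReal (dd x y) ∂((ENNReal.ofReal α)⁻¹ • lam)
              ∂((ENNReal.ofReal α)⁻¹ • lam)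
            = (ENNReal.ofReal α)⁻¹ * ((ENNReal.ofReal α)⁻¹ *
              ∫⁻ x, ∫⁻ y, ENNReal.ofReal (dd x y) ∂lam ∂lam) := by
          simp_rw [lintegral_smul_measure, smul_eq_mul]
          rw [lintegral_const_mul']
          simpa using hα
        have e4 : ∫⁻ x, ∫⁻ y, ENNReal.ofReal (dd x y) ∂lam ∂lam ≤ ENNReal.ofReal ρ := by
          rw [← ofReal_iter lam dd M hddm hdd0 hdd1]
          exact ENNReal.ofReal_le_ofReal hρ
        refine e1.trans (e2.trans (e3.le.trans ?_))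
        calc (ENNReal.ofReal α)⁻¹ * ((ENNReal.ofReal α)⁻¹ *
              ∫⁻ x, ∫⁻ y, ENNReal.ofReal (dd x y) ∂lam ∂lam)
            ≤ (ENNReal.ofReal α)⁻¹ * ((ENNReal.ofReal α)⁻¹ * ENNReal.ofReal ρ) := by gcongr
          _ = ENNReal.ofReal (ρ / α ^ 2) := by
            rw [← ENNReal.ofReal_inv_of_pos hα, ← ENNReal.ofReal_mul (by positivity),
              ← ENNReal.ofReal_mul (by positivity)]
            congr 1
            field_simp
  have hgnn : 0 ≤ ∫ x in A, (∫ y in A, g x y ∂ν) ∂ν :=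
    integral_nonneg fun x => integral_nonneg fun y => h0 x y
  rw [← ENNReal.ofReal_add hgnn (by positivity)] at hmain
  have hreal := (ENNReal.ofReal_le_ofReal_iff (by positivity)).1 hmain
  rw [hL] at hreal
  have := phi_ub g M hm h0 h1 ν A hAm
  rw [hR1] at this
  linarith

end Pool.Agent.H452R3.CHI
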