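import Pool.Agent.H452R3.CHI.Stmts

set_option autoImplicit false
open MeasureTheory Filter Topology
open scoped ENNReal

namespace Pool.Agent.H452R3.CHI

open Classical in
/-- the vertices with type in cell `c` -/
noncomputable def VV {n : ℕ} (q : ℕ) (x : Fin n → ℝ) (c : Fin q) : Finset (Fin n) :=
  Finset.univ.filter (fun i => cidx q (x i) = c.1)

open Classical in
/-- the bad pairs -/
noncomputable def BP {n : ℕ} (g : ℝ → ℝ → ℝ) (γ : ℕ → ℕ → ℝ) (q : ℕ) (η : ℝ)
    (x : Fin n → ℝ) : Finset (Fin n × Fin n) :=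
  Finset.univ.filter (fun e : Fin n × Fin n =>
        e.1 ≠ e.2 ∧ η < |g (x e.1) (x e.2) - γ (cidx q (x e.1)) (cidx q (x e.2))|)

lemma VV_disj {n q : ℕ} (x : Fin n → ℝ) (c d : Fin q) (h : c ≠ d) :
    Disjoint (VV q x c) (VV q x d) := by
  classical
  rw [Finset.disjoint_left]
  intro i hi hj
  simp only [VV, Finset.mem_filter, Finset.mem_univ, true_and] at hi hj
  exact h (Fin.ext (hi.symm.trans hj))

lemma two_sm {n : ℕ} (a : Fin n → Fin n → ℝ) (hs : ∀ i j, a i j = a j i) (K : Finset (Fin n)) :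
    2 * sm a K = ∑ i ∈ K, ∑ j ∈ K, if i ≠ j then a i j else 0 := by
  classical
  have h1 : sm a K = ∑ i ∈ K, ∑ j ∈ K, if j < i then a i j else 0 := by
    unfold sm
    rw [Finset.sum_comm]
    refine Finset.sum_congr rfl fun i _ => Finset.sum_congr rfl fun j _ => ?_
    by_cases h : j < i <;> simp [h, hs j i]
  have h2 : 2 * sm a K = sm a K + ∑ i ∈ K, ∑ j ∈ K, (if j < i then a i j else 0) := by
    rw [← h1]; ring
  rw [h2]
  unfold sm
  rw [← Finset.sum_add_distrib]
  refine Finset.sum_congr rfl fun i _ => ?_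
  rw [← Finset.sum_add_distrib]
  refine Finset.sum_congr rfl fun j _ => ?_
  rcases lt_trichotomy i j with h | h | h
  · simp [h, h.ne, h.not_gt]
  · simp [h]
  · simp [h, h.ne', h.not_gt]

open Classical in
lemma sm_bound (hV : TaskVertex) {n q : ℕ} (x : Fin n → ℝ) (g : ℝ → ℝ → ℝ) (M : ℝ)
    (γ : ℕ → ℕ → ℝ) (η : ℝ) (hη : 0 ≤ η)
    (hs : ∀ x y, g x y = g y x) (h0 : ∀ x y, 0 ≤ g x y) (h1 : ∀ x y, g x y ≤ M)
    (hγ0 : ∀ i j, 0 ≤ γ i j) (r : Fin q → ℝ) (hr : ∀ c, 0 ≤ r c) (φ ρ : ℝ)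
    (hst : ∀ S : Finset (Fin q), ∑ a ∈ S, ∑ b ∈ S, r a * r b * γ a b ≤ φ * ∑ a ∈ S, r a + ρ)
    (m : ℝ) (hm : 0 < m) (K : Finset (Fin n)) (hK : K ⊆ Finset.univ.biUnion (VV q x))
    (hKc : ∀ c, ((K ∩ VV q x c).card : ℝ) ≤ r c * m) :
    sm (fun i j => g (x i) (x j)) K ≤ (1 / 2) * (m * φ * K.card + m ^ 2 * ρ
      + η * (K.card : ℝ) ^ 2 + M * (((BP g γ q η x).filter (fun e => e.1 ∈ K ∧ e.2 ∈ K)).card : ℝ)) := by
  set a : Fin n → Fin n → ℝ := fun i j => g (x i) (x j) with ha
  have hM : 0 ≤ M := (h0 0 0).trans (h1 0 0)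
  have e1 : 2 * sm a K ≤ ∑ i ∈ K, ∑ j ∈ K, (γ (cidx q (x i)) (cidx q (x j)) + η
      + M * (if (i, j) ∈ BP g γ q η x then 1 else 0)) := by
    rw [two_sm a (fun i j => hs _ _)]
    refine Finset.sum_le_sum fun i _ => Finset.sum_le_sum fun j _ => ?_
    have hg := hγ0 (cidx q (x i)) (cidx q (x j))
    by_cases hij : i = j
    · simp only [hij, ne_eq, not_true_eq_false, if_false]
      split_ifs <;> nlinarith [hγ0 (cidx q (x j)) (cidx q (x j))]
    · simp only [ne_eq, hij, not_false_eq_true, if_true]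
      by_cases hb : (i, j) ∈ BP g γ q η x
      · simp only [hb, if_true]
        have := h1 (x i) (x j)
        simp only [ha]
        nlinarith
      · simp only [hb, if_false, mul_zero, add_zero]
        simp only [BP, Finset.mem_filter, Finset.mem_univ, true_and, not_and, not_lt] at hb
        have := hb hij
        have := le_abs_self (g (x i) (x j) - γ (cidx q (x i)) (cidx q (x j)))
        simp only [ha]
        linarith
  have e2 : ∑ i ∈ K, ∑ j ∈ K, (γ (cidx q (x i)) (cidx q (x j)) + η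
      + M * (if (i, j) ∈ BP g γ q η x then (1:ℝ) else 0))
      = ∑ i ∈ K, ∑ j ∈ K, γ (cidx q (x i)) (cidx q (x j)) + η * (K.card : ℝ) ^ 2
        + M * (((BP g γ q η x).filter (fun e => e.1 ∈ K ∧ e.2 ∈ K)).card : ℝ) := by
    simp_rw [Finset.sum_add_distrib, Finset.sum_const, nsmul_eq_mul, ← Finset.mul_sum]
    have : ∑ i ∈ K, ∑ j ∈ K, (if (i, j) ∈ BP g γ q η x then (1:ℝ) else 0)
        = (((BP g γ q η x).filter (fun e => e.1 ∈ K ∧ e.2 ∈ K)).card : ℝ) := by
      rw [← Finset.sum_product', ← Finset.sum_filter, Finset.sum_const, nsmul_eq_mul, mul_one]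
      congr 2
      ext e
      simp only [Finset.mem_filter, Finset.mem_product]
      tauto
    rw [this]
    ring
  -- decomposition over cells
  have hcell : ∀ f : ℕ → ℝ, ∑ i ∈ K, f (cidx q (x i))
      = ∑ c : Fin q, ((K ∩ VV q x c).card : ℝ) * f c.1 := by
    intro f
    have hpart : K = Finset.univ.biUnion (fun c => K ∩ VV q x c) := by
      ext i
      simp only [Finset.mem_biUnion, Finset.mem_univ, true_and, Finset.mem_inter]
      constructor
      · intro hi
        obtain ⟨c, hc⟩ := by simpa using hK hi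
        exact ⟨c, hi, hc⟩
      · rintro ⟨c, hi, _⟩; exact hi
    conv_lhs => rw [hpart]
    rw [Finset.sum_biUnion]
    · refine Finset.sum_congr rfl fun c _ => ?_
      rw [Finset.sum_congr rfl (g := fun _ => f c.1), Finset.sum_const, nsmul_eq_mul]
      intro i hi
      have : cidx q (x i) = c.1 := by
        have := (Finset.mem_inter.1 hi).2
        simpa [VV] using this
      rw [this]
    · intro c _ d _ hcd
      exact (VV_disj x c d hcd).mono Finset.inter_subset_right Finset.inter_subset_right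
  set k : Fin q → ℝ := fun c => ((K ∩ VV q x c).card : ℝ) with hk
  have e3 : ∑ i ∈ K, ∑ j ∈ K, γ (cidx q (x i)) (cidx q (x j))
      = ∑ c : Fin q, ∑ d : Fin q, k c * k d * γ c d := by
    have : ∀ i, ∑ j ∈ K, γ (cidx q (x i)) (cidx q (x j))
        = (fun c => ∑ d : Fin q, k d * γ c d.1) (cidx q (x i)) := fun i =>
      hcell (fun d => γ (cidx q (x i)) d)
    simp_rw [this]
    rw [hcell (fun c => ∑ d : Fin q, k d * γ c d.1)]
    refine Finset.sum_congr rfl fun c _ => ?_
    rw [Finset.mul_sum]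
    refine Finset.sum_congr rfl fun d _ => ?_
    ring
  have e4 : ∑ c : Fin q, k c = K.card := by
    have := hcell (fun _ => 1)
    simpa using this.symm
  -- vertex inequality
  set s : Fin q → ℝ := fun c => if r c = 0 then 0 else k c / (r c * m) with hsd
  have hk0 : ∀ c, 0 ≤ k c := fun c => by positivity
  have hsr : ∀ c, s c * r c = k c / m := fun c => by
    simp only [hsd]
    by_cases h : r c = 0
    · have : k c ≤ 0 := by
        have h' := hKc c
        rw [h, zero_mul] at h'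
        exact h'
      have : k c = 0 := le_antisymm this (hk0 c)
      simp [h, this]
    · simp only [h, if_false]
      field_simp
  have hs0 : ∀ c, 0 ≤ s c := fun c => by
    simp only [hsd]
    split_ifs
    · exact le_rfl
    · exact div_nonneg (hk0 c) (mul_nonneg (hr c) hm.le)
  have hs1 : ∀ c, s c ≤ 1 := fun c => by
    simp only [hsd]
    split_ifs with h
    · exact zero_le_one
    · have : 0 < r c * m := mul_pos (lt_of_le_of_ne (hr c) (Ne.symm h)) hm
      rw [div_le_one this]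
      exact hKc c
  have e5 := hV (Fin q) r (fun a b => γ a b) φ ρ hr (fun i => hγ0 _ _) hst s hs0 hs1
  have e6 : ∑ c : Fin q, ∑ d : Fin q, k c * k d * γ c d
      = m ^ 2 * ∑ c : Fin q, ∑ d : Fin q, s c * s d * (r c * r d * γ c d) := by
    rw [Finset.mul_sum]
    refine Finset.sum_congr rfl fun c _ => ?_
    rw [Finset.mul_sum]
    refine Finset.sum_congr rfl fun d _ => ?_
    have h1 := hsr c
    have h2 := hsr d
    have : s c * s d * (r c * r d * γ c d) = (s c * r c) * (s d * r d) * γ c d := by ring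
    rw [this, h1, h2]
    field_simp
  have e7 : ∑ c : Fin q, s c * r c = K.card / m := by
    simp_rw [hsr]
    rw [← Finset.sum_div, e4]
  rw [e7] at e5
  have e8 : m ^ 2 * ∑ c : Fin q, ∑ d : Fin q, s c * s d * (r c * r d * γ c d)
      ≤ m * φ * K.card + m ^ 2 * ρ := by
    calc m ^ 2 * ∑ c : Fin q, ∑ d : Fin q, s c * s d * (r c * r d * γ c d)
        ≤ m ^ 2 * (φ * (K.card / m) + ρ) := mul_le_mul_of_nonneg_left e5 (by positivity)
      _ = m * φ * K.card + m ^ 2 * ρ := by field_simp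
  rw [e2, e3, e6] at e1
  linarith

open Classical in
/-- the good family -/
lemma family (hV : TaskVertex) (hC : TaskCount) {n q : ℕ} (x : Fin n → ℝ) (g : ℝ → ℝ → ℝ) (M : ℝ)
    (γ : ℕ → ℕ → ℝ) (η : ℝ) (hη : 0 ≤ η)
    (hs : ∀ x y, g x y = g y x) (h0 : ∀ x y, 0 ≤ g x y) (h1 : ∀ x y, g x y ≤ M)
    (hγ0 : ∀ i j, 0 ≤ γ i j) (r : Fin q → ℝ) (hr : ∀ c, 0 ≤ r c) (φ ρ : ℝ)
    (hst : ∀ S : Finset (Fin q), ∑ a ∈ S, ∑ b ∈ S, r a * r b * γ a b ≤ φ * ∑ a ∈ S, r a + ρ)
    (hr1 : ∑ c, r c = 1)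
    (m : ℝ) (hm : 0 < m) (U : Finset (Fin n)) (θ : ℝ) (hθ0 : 0 ≤ θ) (hθ1 : θ ≤ 1)
    (hU : ∀ c, r c * m ≤ θ * ((U ∩ VV q x c).card : ℝ)) :
    ∃ 𝓕 : Finset (Finset (Fin n)), 𝓕.Nonempty ∧
      (∀ I ∈ 𝓕, I ⊆ U ∧ (∀ c, ((I ∩ VV q x c).card : ℝ) ≤ r c * m) ∧ m - q ≤ (I.card : ℝ) ∧
        (I.card : ℝ) ≤ m ∧
        ∀ K ⊆ I, sm (fun i j => g (x i) (x j)) K ≤ (1 / 2) * (m * φ * K.card + m ^ 2 * ρ
          + η * (K.card : ℝ) ^ 2 + M * (2 * θ ^ 2 * ((BP g γ q η x).card : ℝ)))) ∧
      ∀ K : Finset (Fin n), ((𝓕.filter (fun J => K ⊆ J)).card : ℝ) ≤ 2 * θ ^ K.card * 𝓕.card := by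
  have hM : 0 ≤ M := (h0 0 0).trans (h1 0 0)
  set Uc : Fin q → Finset (Fin n) := fun c => U ∩ VV q x c with hUc
  set mc : Fin q → ℕ := fun c => ⌊r c * m⌋₊ with hmc
  have hmc1 : ∀ c, (mc c : ℝ) ≤ r c * m := fun c =>
    Nat.floor_le (mul_nonneg (hr c) hm.le)
  have hmc2 : ∀ c, r c * m - 1 ≤ (mc c : ℝ) := fun c => by
    have := Nat.lt_floor_add_one (r c * m)
    simp only [hmc]
    linarith
  have hdis : ∀ c d, c ≠ d → Disjoint (Uc c) (Uc d) := fun c d hcd =>
    (VV_disj x c d hcd).mono Finset.inter_subset_right Finset.inter_subset_right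
  have hle1 : ∀ c, (mc c : ℝ) ≤ θ * (Uc c).card := fun c => (hmc1 c).trans (hU c)
  have hle2 : ∀ c, mc c ≤ (Uc c).card := fun c => by
    have h : (mc c : ℝ) ≤ (Uc c).card := by
      refine (hle1 c).trans ?_
      have : (0:ℝ) ≤ (Uc c).card := by positivity
      nlinarith
    exact_mod_cast h
  obtain ⟨hne, hcount⟩ := hC n q Uc mc θ hdis hle2 hle1 hθ0
  set 𝓐 := fam Uc mc with h𝓐
  set B := BP g γ q η x with hB
  set bc : Finset (Fin n) → ℝ := fun I => ((B.filter (fun e => e.1 ∈ I ∧ e.2 ∈ I)).card : ℝ) with hbc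
  have hApos : 0 < (𝓐.card : ℝ) := by exact_mod_cast hne.card_pos
  -- expected number of bad pairs
  have hsum : ∑ I ∈ 𝓐, bc I ≤ θ ^ 2 * B.card * 𝓐.card := by
    have : ∑ I ∈ 𝓐, bc I = ∑ e ∈ B, ((𝓐.filter (fun I => e.1 ∈ I ∧ e.2 ∈ I)).card : ℝ) := by
      simp only [hbc, Finset.card_filter, Nat.cast_sum]
      exact Finset.sum_comm
    rw [this]
    calc ∑ e ∈ B, ((𝓐.filter (fun I => e.1 ∈ I ∧ e.2 ∈ I)).card : ℝ)
        ≤ ∑ e ∈ B, θ ^ 2 * 𝓐.card := by
          refine Finset.sum_le_sum fun e he => ?_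
          have hne' : e.1 ≠ e.2 := by
            simp only [hB, BP, Finset.mem_filter] at he
            exact he.2.1
          have h2 := hcount {e.1, e.2}
          rw [Finset.card_pair hne'] at h2
          refine le_trans ?_ h2
          refine le_of_eq ?_
          congr 2
          ext I
          simp [Finset.insert_subset_iff]
      _ = θ ^ 2 * B.card * 𝓐.card := by
          rw [Finset.sum_const, nsmul_eq_mul]; ring
  set 𝓕 := 𝓐.filter (fun I => bc I ≤ 2 * θ ^ 2 * B.card) with h𝓕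
  have hhalf : (𝓐.card : ℝ) ≤ 2 * 𝓕.card := by
    set T := θ ^ 2 * (B.card : ℝ) with hT
    have hT0 : 0 ≤ T := by positivity
    have hsplit : (𝓐.card : ℝ) = 𝓕.card + (𝓐.filter (fun I => ¬ bc I ≤ 2 * θ ^ 2 * B.card)).card := by
      have := Finset.card_filter_add_card_filter_not (s := 𝓐) (fun I => bc I ≤ 2 * θ ^ 2 * B.card)
      rw [← this]
      push_cast
      rfl
    set 𝓖 := 𝓐.filter (fun I => ¬ bc I ≤ 2 * θ ^ 2 * B.card) with h𝓖
    have hG : 2 * T * 𝓖.card ≤ T * 𝓐.card := by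
      calc 2 * T * 𝓖.card = ∑ I ∈ 𝓖, 2 * T := by rw [Finset.sum_const, nsmul_eq_mul]; ring
        _ ≤ ∑ I ∈ 𝓖, bc I := by
            refine Finset.sum_le_sum fun I hI => ?_
            have := (Finset.mem_filter.1 hI).2
            push Not at this
            rw [hT]
            linarith
        _ ≤ ∑ I ∈ 𝓐, bc I := Finset.sum_le_sum_of_subset_of_nonneg (Finset.filter_subset _ _)
            (fun I _ _ => by positivity)
        _ ≤ T * 𝓐.card := by rw [hT]; exact hsum
    rcases hT0.eq_or_lt with h | h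
    · -- no bad pairs
      have hz : ∑ I ∈ 𝓐, bc I ≤ 0 := by
        refine hsum.trans (le_of_eq ?_)
        rw [← h]; ring
      have hG0 : 𝓖 = ∅ := by
        rw [Finset.eq_empty_iff_forall_notMem]
        intro I hI
        have hI2 := (Finset.mem_filter.1 hI)
        have h3 : bc I ≤ ∑ I ∈ 𝓐, bc I :=
          Finset.single_le_sum (f := bc) (fun J _ => by positivity) hI2.1
        refine hI2.2 ?_
        have : 2 * θ ^ 2 * (B.card : ℝ) = 2 * T := by rw [hT]; ring
        rw [this, ← h]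
        linarith
      rw [hG0] at hsplit
      simp only [Finset.card_empty, Nat.cast_zero, add_zero] at hsplit
      have : (0:ℝ) ≤ 𝓕.card := by positivity
      linarith
    · have : 2 * (𝓖.card : ℝ) ≤ 𝓐.card := by
        have h5 : T * (2 * 𝓖.card) ≤ T * 𝓐.card := by linarith
        exact le_of_mul_le_mul_left h5 h
      linarith
  have hFpos : 0 < (𝓕.card : ℝ) := by linarith
  have hFne : 𝓕.Nonempty := by
    rw [← Finset.card_pos]
    exact_mod_cast hFpos
  refine ⟨𝓕, hFne, ?_, ?_⟩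
  · intro I hI
    obtain ⟨hIA, hIb⟩ := Finset.mem_filter.1 hI
    have hIf : (∀ c, (I ∩ Uc c).card = mc c) ∧ I ⊆ Finset.univ.biUnion Uc := by
      simpa [h𝓐, fam] using hIA
    obtain ⟨hI1, hI2⟩ := hIf
    have hIU : I ⊆ U := by
      intro v hv
      have := hI2 hv
      simp only [hUc, Finset.mem_biUnion, Finset.mem_univ, true_and, Finset.mem_inter] at this
      obtain ⟨_, h, _⟩ := this
      exact h
    have hIc : ∀ c, I ∩ VV q x c = I ∩ Uc c := fun c => by
      ext v
      simp only [hUc, Finset.mem_inter]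
      constructor
      · rintro ⟨h1, h2⟩; exact ⟨h1, hIU h1, h2⟩
      · rintro ⟨h1, _, h2⟩; exact ⟨h1, h2⟩
    have hIcard : (I.card : ℝ) = ∑ c, (mc c : ℝ) := by
      have hp : I = Finset.univ.biUnion (fun c => I ∩ Uc c) := by
        ext v
        simp only [Finset.mem_biUnion, Finset.mem_univ, true_and, Finset.mem_inter]
        constructor
        · intro hv
          have := hI2 hv
          simp only [Finset.mem_biUnion, Finset.mem_univ, true_and] at this
          obtain ⟨c, hc⟩ := this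
          exact ⟨c, hv, hc⟩
        · rintro ⟨_, h, _⟩; exact h
      conv_lhs => rw [hp]
      rw [Finset.card_biUnion]
      · push_cast
        exact Finset.sum_congr rfl fun c _ => by rw [hI1 c]
      · intro c _ d _ hcd
        exact (hdis c d hcd).mono Finset.inter_subset_right Finset.inter_subset_right
    refine ⟨hIU, ?_, ?_, ?_, ?_⟩
    · intro c
      rw [hIc c, hI1 c]
      exact hmc1 c
    · rw [hIcard]
      calc m - q = ∑ c : Fin q, (r c * m - 1) := by
            rw [Finset.sum_sub_distrib, ← Finset.sum_mul, hr1]; simp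
        _ ≤ ∑ c, (mc c : ℝ) := Finset.sum_le_sum fun c _ => hmc2 c
    · rw [hIcard]
      calc ∑ c, (mc c : ℝ) ≤ ∑ c, r c * m := Finset.sum_le_sum fun c _ => hmc1 c
        _ = m := by rw [← Finset.sum_mul, hr1, one_mul]
    · intro K hK
      have hKU : K ⊆ Finset.univ.biUnion (VV q x) := by
        intro v hv
        have := hI2 (hK hv)
        simp only [hUc, Finset.mem_biUnion, Finset.mem_univ, true_and, Finset.mem_inter] at this ⊢
        obtain ⟨c, _, h⟩ := this
        exact ⟨c, h⟩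
      have hb := sm_bound hV x g M γ η hη hs h0 h1 hγ0 r hr φ ρ hst m hm K hKU (fun c => by
        refine le_trans ?_ (hmc1 c)
        rw [← hI1 c, ← hIc c]
        exact_mod_cast Finset.card_le_card (Finset.inter_subset_inter_right hK))
      refine hb.trans ?_
      have hbK : (((BP g γ q η x).filter (fun e => e.1 ∈ K ∧ e.2 ∈ K)).card : ℝ)
          ≤ 2 * θ ^ 2 * B.card := by
        refine le_trans ?_ hIb
        simp only [hbc]
        norm_cast
        refine Finset.card_le_card ?_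
        intro e he
        rw [Finset.mem_filter] at he ⊢
        exact ⟨he.1, hK he.2.1, hK he.2.2⟩
      have := mul_le_mul_of_nonneg_left hbK hM
      linarith
  · intro K
    have h2 : ((𝓕.filter (fun J => K ⊆ J)).card : ℝ) ≤ ((𝓐.filter (fun J => K ⊆ J)).card : ℝ) := by
      norm_cast
      exact Finset.card_le_card (Finset.filter_subset_filter _ (Finset.filter_subset _ _))
    refine h2.trans ((hcount K).trans ?_)
    have : 0 ≤ θ ^ K.card := by positivity
    calc θ ^ K.card * (𝓐.card : ℝ) ≤ θ ^ K.card * (2 * 𝓕.card) := by gcongr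
      _ = 2 * θ ^ K.card * 𝓕.card := by ring

end Pool.Agent.H452R3.CHI
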