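import Pool.Agent.H452R3.CHI.Up1
import Pool.Agent.H452R3.CHI.Up2
import Pool.Agent.H452R3.CHI.Up3

set_option autoImplicit false
open MeasureTheory Filter Topology
open scoped ENNReal

namespace Pool.Agent.H452R3.CHI

lemma wt_nonneg {n : ℕ} (a : Fin n → Fin n → ℝ) (ha : ∀ i j, 0 ≤ a i j)
    (G : SimpleGraph (Fin n)) : 0 ≤ wt a G := by
  classical
  unfold wt
  refine Finset.prod_nonneg fun i _ => Finset.prod_nonneg fun j _ => ?_
  split_ifs
  · have : Real.exp (- a i j) ≤ 1 := Real.exp_le_one_iff.2 (by linarith [ha i j])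
    linarith
  · exact (Real.exp_pos _).le
  · exact zero_le_one

lemma Pr_mono {n : ℕ} (a : Fin n → Fin n → ℝ) (ha : ∀ i j, 0 ≤ a i j)
    (A B : SimpleGraph (Fin n) → Prop) (h : ∀ G, A G → B G) : Pr a A ≤ Pr a B := by
  classical
  unfold Pr
  refine Finset.sum_le_sum fun G _ => ?_
  by_cases hA : A G
  · simp [hA, h G hA]
  · simp only [hA, if_false]
    split_ifs
    · exact wt_nonneg a ha G
    · exact le_rfl

lemma Pr_exists {n : ℕ} (a : Fin n → Fin n → ℝ) (ha : ∀ i j, 0 ≤ a i j) {ι : Type*}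
    (s : Finset ι) (A : ι → SimpleGraph (Fin n) → Prop) :
    Pr a (fun G => ∃ i ∈ s, A i G) ≤ ∑ i ∈ s, Pr a (A i) := by
  classical
  unfold Pr
  rw [Finset.sum_comm]
  refine Finset.sum_le_sum fun G _ => ?_
  by_cases hA : ∃ i ∈ s, A i G
  · obtain ⟨i, hi, hAi⟩ := hA
    rw [if_pos ⟨i, hi, hAi⟩]
    calc wt a G = if A i G then wt a G else 0 := by rw [if_pos hAi]
      _ ≤ _ := Finset.single_le_sum (f := fun i => if A i G then wt a G else 0)
        (fun j _ => by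
          split_ifs
          · exact wt_nonneg a ha G
          · exact le_rfl) hi
  · rw [if_neg hA]
    exact Finset.sum_nonneg fun j _ => by
      split_ifs
      · exact wt_nonneg a ha G
      · exact le_rfl

lemma Pr_or {n : ℕ} (a : Fin n → Fin n → ℝ) (ha : ∀ i j, 0 ≤ a i j)
    (A B : SimpleGraph (Fin n) → Prop) : Pr a (fun G => A G ∨ B G) ≤ Pr a A + Pr a B := by
  classical
  unfold Pr
  rw [← Finset.sum_add_distrib]
  refine Finset.sum_le_sum fun G _ => ?_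
  have := wt_nonneg a ha G
  by_cases hA : A G <;> by_cases hB : B G <;> simp [hA, hB, this]

lemma sm_le {n : ℕ} (a : Fin n → Fin n → ℝ) (M : ℝ) (hs : ∀ i j, a i j = a j i)
    (hM : 0 ≤ M) (h1 : ∀ i j, a i j ≤ M) (K : Finset (Fin n)) :
    sm a K ≤ (1 / 2) * M * (K.card : ℝ) ^ 2 := by
  classical
  have h2 := two_sm a hs K
  have : ∑ i ∈ K, ∑ j ∈ K, (if i ≠ j then a i j else 0) ≤ ∑ i ∈ K, ∑ j ∈ K, M := by
    refine Finset.sum_le_sum fun i _ => Finset.sum_le_sum fun j _ => ?_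
    split_ifs
    · exact h1 i j
    · exact hM
  simp only [Finset.sum_const, nsmul_eq_mul] at this
  nlinarith

/-- the type families -/
lemma typeProb (hV : TaskVertex) (hC : TaskCount) {n q : ℕ} (L0 εJ : ℝ)
    (M g0 ε1 CL β η ρ φ m : ℝ)
    (hJ : ∀ (a : Fin n → Fin n → ℝ), (∀ i j, 0 ≤ a i j) → (∀ i j, a i j ≤ M) →
      ∀ (𝓕 : Finset (Finset (Fin n))) (Λ : ℝ) (m : ℕ), 𝓕.Nonempty → 1 ≤ Λ →
        (m : ℝ) * Λ ≤ (Real.log n) ^ 6 →
        (∀ I ∈ 𝓕, 4 / (ε1 / 4) ≤ (I.card : ℝ)) → (∀ I ∈ 𝓕, I.card ≤ m) →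
        (∀ I ∈ 𝓕, ∀ K ⊆ I, sm a K ≤ (1 - ε1 / 4) * K.card * Real.log n) →
        (∀ K : Finset (Fin n), ((Finset.card (Finset.filter (fun J => K ⊆ J) 𝓕)) : ℝ)
          ≤ 2 * (Λ / n) ^ K.card * 𝓕.card) →
        Pr a (fun G => ∀ I ∈ 𝓕, ¬ indep G I) ≤ Real.exp (- (n : ℝ) ^ (8 / 5 : ℝ) / 2))
    (x : Fin n → ℝ) (g : ℝ → ℝ → ℝ) (γ : ℕ → ℕ → ℝ)
    (hs : ∀ x y, g x y = g y x) (h0 : ∀ x y, 0 ≤ g x y) (h1 : ∀ x y, g x y ≤ M)
    (hγ0 : ∀ i j, 0 ≤ γ i j) (r : Fin q → ℝ) (hr : ∀ c, 0 ≤ r c)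
    (hst : ∀ S : Finset (Fin q), ∑ a ∈ S, ∑ b ∈ S, r a * r b * γ a b ≤ φ * ∑ a ∈ S, r a + ρ)
    (hr1 : ∑ c, r c = 1) (hM : 0 < M) (hg0 : 0 < g0) (hε1 : 0 < ε1) (hε1' : ε1 ≤ 1)
    (hη : 0 ≤ η) (hρ : 0 ≤ ρ) (hβ : 0 ≤ β) (hn : 1 ≤ n)
    (hL : 0 < Real.log n) (hmφ : m * φ = (2 - ε1) * Real.log n) (hmL : m ≤ 2 * Real.log n / g0)
    (hm0 : 0 < m) (hCL : 1 ≤ CL * Real.log n) (hCLn : CL * Real.log n ≤ n)
    (hmq : 4 / (ε1 / 4) ≤ m - q)
    (hsix : 2 * Real.log n / g0 * (CL * Real.log n) ≤ (Real.log n) ^ 6)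
    (hBP : ((BP g γ q η x).card : ℝ) ≤ β * (n : ℝ) ^ 2)
    (hpar : (2 / g0 ^ 2) * (ρ + η) + M * β * CL ^ 2 ≤ ε1 / (4 * M))
    (U : Finset (Fin n))
    (hU : ∀ c, r c * m ≤ (CL * Real.log n / n) * ((U ∩ VV q x c).card : ℝ)) :
    Pr (fun i j => g (x i) (x j)) (fun G => ¬ ∃ I ⊆ U, indep G I ∧
      (∀ c, ((I ∩ VV q x c).card : ℝ) ≤ r c * m) ∧ m - q ≤ (I.card : ℝ))
      ≤ Real.exp (- (n : ℝ) ^ (8 / 5 : ℝ) / 2) := by
  classical
  have hnpos : (0:ℝ) < n := by exact_mod_cast hn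
  set L := Real.log n with hLd
  obtain ⟨𝓕, hne, hprop, hspread⟩ := family hV hC x g M γ η hη hs h0 h1 hγ0 r hr φ ρ hst hr1 m hm0
    U (CL * L / n) (by positivity) (by rw [div_le_one hnpos]; exact hCLn) hU
  have hmain := hJ (fun i j => g (x i) (x j)) (fun i j => h0 _ _) (fun i j => h1 _ _) 𝓕
    (CL * L) ⌊2 * L / g0⌋₊ hne hCL ?_ ?_ ?_ ?_ ?_
  · refine le_trans (Pr_mono _ (fun i j => h0 _ _) _ _ ?_) hmain
    intro G hG I hI hind
    exact hG ⟨I, (hprop I hI).1, hind, (hprop I hI).2.1, (hprop I hI).2.2.1⟩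
  · refine le_trans ?_ hsix
    have h2 : ((⌊2 * L / g0⌋₊ : ℕ) : ℝ) ≤ 2 * L / g0 := Nat.floor_le (by positivity)
    have h3 : 0 ≤ CL * L := by linarith
    exact mul_le_mul_of_nonneg_right h2 h3
  · intro I hI
    exact hmq.trans (hprop I hI).2.2.1
  · intro I hI
    refine Nat.le_floor ?_
    exact (hprop I hI).2.2.2.1.trans hmL
  · intro I hI K hK
    have hb := (hprop I hI).2.2.2.2 K hK
    have hKm : (K.card : ℝ) ≤ 2 * L / g0 := by
      refine le_trans ?_ ((hprop I hI).2.2.2.1.trans hmL)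
      exact_mod_cast Finset.card_le_card hK
    have hKn : (0:ℝ) ≤ K.card := by positivity
    rcases lt_or_ge (K.card : ℝ) (L / M) with hK1 | hK1
    · have h2 := sm_le (fun i j => g (x i) (x j)) M (fun i j => hs _ _) hM.le (fun i j => h1 _ _) K
      refine h2.trans ?_
      have h3 : M * (K.card : ℝ) ≤ L := by
        rw [lt_div_iff₀ hM] at hK1
        linarith [mul_comm M (K.card : ℝ)]
      have h4 : (1 / 2) * M * (K.card : ℝ) ^ 2 ≤ (1 / 2) * K.card * L := by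
        have := mul_le_mul_of_nonneg_right h3 hKn
        nlinarith
      refine h4.trans ?_
      have : 0 ≤ (K.card : ℝ) * L := by positivity
      nlinarith
    · refine hb.trans ?_
      have e1 : (CL * L / n) ^ 2 * ((BP g γ q η x).card : ℝ) ≤ β * (CL * L) ^ 2 := by
        calc (CL * L / n) ^ 2 * ((BP g γ q η x).card : ℝ)
            ≤ (CL * L / n) ^ 2 * (β * (n : ℝ) ^ 2) := by gcongr
          _ = β * (CL * L) ^ 2 := by field_simp
      have e2 : m ^ 2 * ρ ≤ (2 * L / g0) ^ 2 * ρ := by gcongr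
      have e3 : η * (K.card : ℝ) ^ 2 ≤ (2 * L / g0) ^ 2 * η := by
        rw [mul_comm]
        gcongr
      have e4 : (1 / 2) * (m ^ 2 * ρ + η * (K.card : ℝ) ^ 2
          + M * (2 * (CL * L / n) ^ 2 * ((BP g γ q η x).card : ℝ)))
          ≤ ((2 / g0 ^ 2) * (ρ + η) + M * β * CL ^ 2) * L ^ 2 := by
        have h5 : M * (2 * (CL * L / n) ^ 2 * ((BP g γ q η x).card : ℝ))
            ≤ M * (2 * (β * (CL * L) ^ 2)) := by
          have := mul_le_mul_of_nonneg_left e1 hM.le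
          nlinarith
        have h6 : (1 / 2) * ((2 * L / g0) ^ 2 * ρ + (2 * L / g0) ^ 2 * η
            + M * (2 * (β * (CL * L) ^ 2)))
            = ((2 / g0 ^ 2) * (ρ + η) + M * β * CL ^ 2) * L ^ 2 := by
          field_simp
        linarith
      have e5 : ((2 / g0 ^ 2) * (ρ + η) + M * β * CL ^ 2) * L ^ 2 ≤ (ε1 / (4 * M)) * L ^ 2 := by
        gcongr
      have e6 : (ε1 / (4 * M)) * L ^ 2 ≤ (ε1 / 4) * K.card * L := by
        have : (ε1 / (4 * M)) * L ^ 2 = (ε1 / 4) * (L / M) * L := by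
          field_simp
        rw [this]
        gcongr
      have e7 : (1 / 2) * (m * φ * K.card) = (1 - ε1 / 2) * K.card * L := by
        rw [hmφ]; ring
      have e8 : (1 - ε1 / 2) * K.card * L + (ε1 / 4) * K.card * L
          = (1 - ε1 / 4) * K.card * L := by ring
      have e9 : (1 / 2) * (m * φ * K.card + m ^ 2 * ρ + η * (K.card : ℝ) ^ 2
          + M * (2 * (CL * L / n) ^ 2 * ((BP g γ q η x).card : ℝ)))
          = (1 / 2) * (m * φ * K.card) + (1 / 2) * (m ^ 2 * ρ + η * (K.card : ℝ) ^ 2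
          + M * (2 * (CL * L / n) ^ 2 * ((BP g γ q η x).card : ℝ))) := by ring
      rw [e9, e7, ← e8]
      linarith only [e4, e5, e6]
  · exact hspread

/-- the crude families -/
lemma crudeProb (hC : TaskCount) {n : ℕ} (M ε1 : ℝ)
    (hJ : ∀ (a : Fin n → Fin n → ℝ), (∀ i j, 0 ≤ a i j) → (∀ i j, a i j ≤ M) →
      ∀ (𝓕 : Finset (Finset (Fin n))) (Λ : ℝ) (m : ℕ), 𝓕.Nonempty → 1 ≤ Λ →
        (m : ℝ) * Λ ≤ (Real.log n) ^ 6 →
        (∀ I ∈ 𝓕, 4 / (ε1 / 4) ≤ (I.card : ℝ)) → (∀ I ∈ 𝓕, I.card ≤ m) →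
        (∀ I ∈ 𝓕, ∀ K ⊆ I, sm a K ≤ (1 - ε1 / 4) * K.card * Real.log n) →
        (∀ K : Finset (Fin n), ((Finset.card (Finset.filter (fun J => K ⊆ J) 𝓕)) : ℝ)
          ≤ 2 * (Λ / n) ^ K.card * 𝓕.card) →
        Pr a (fun G => ∀ I ∈ 𝓕, ¬ indep G I) ≤ Real.exp (- (n : ℝ) ^ (8 / 5 : ℝ) / 2))
    (a : Fin n → Fin n → ℝ) (hs : ∀ i j, a i j = a j i) (h0 : ∀ i j, 0 ≤ a i j)
    (h1 : ∀ i j, a i j ≤ M) (hM : 0 < M) (hε1 : 0 < ε1) (hε1' : ε1 ≤ 1) (hn : 1 ≤ n)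
    (hL : 1 ≤ Real.log n) (m : ℕ) (hm1 : 1 ≤ m) (hm : (m : ℝ) ≤ Real.log n / M)
    (hm4 : 4 / (ε1 / 4) ≤ (m : ℝ)) (hL2 : (1 / M) ^ 2 ≤ (Real.log n) ^ 2)
    (U : Finset (Fin n)) (hU : (n : ℝ) / (Real.log n) ^ 2 ≤ U.card) (hUm : m ≤ U.card) :
    Pr a (fun G => ¬ ∃ I ⊆ U, indep G I ∧ I.card = m)
      ≤ Real.exp (- (n : ℝ) ^ (8 / 5 : ℝ) / 2) := by
  classical
  have hnpos : (0:ℝ) < n := by exact_mod_cast hn
  set L := Real.log n with hLd
  have hLpos : 0 < L := by linarith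
  have hUpos : (0:ℝ) < U.card := lt_of_lt_of_le (by positivity) hU
  obtain ⟨hne, hcount⟩ := hC n 1 (fun _ => U) (fun _ => m) ((m * L ^ 2) / n)
    (fun c d hcd => absurd (Subsingleton.elim c d) hcd) (fun _ => hUm)
    (fun _ => by
      calc (m : ℝ) = (m * L ^ 2) / n * (n / L ^ 2) := by field_simp
        _ ≤ (m * L ^ 2) / n * U.card := by gcongr) (by positivity)
  have hmem : ∀ I ∈ fam (fun _ : Fin 1 => U) (fun _ => m), I ⊆ U ∧ I.card = m := by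
    intro I hI
    simp only [fam, Finset.mem_filter, Finset.mem_univ, true_and, forall_const] at hI
    obtain ⟨h1, h2⟩ := hI
    have hIU : I ⊆ U := by
      intro v hv
      have := h2 hv
      simpa using this
    refine ⟨hIU, ?_⟩
    rwa [Finset.inter_eq_left.2 hIU] at h1
  have hmain := hJ a h0 h1 (fam (fun _ : Fin 1 => U) (fun _ => m)) (m * L ^ 2) m hne ?_ ?_ ?_ ?_ ?_ ?_
  · refine le_trans (Pr_mono _ h0 _ _ ?_) hmain
    intro G hG I hI hind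
    exact hG ⟨I, (hmem I hI).1, hind, (hmem I hI).2⟩
  · have h2 : (1:ℝ) ≤ m := by exact_mod_cast hm1
    have h3 : (1:ℝ) ≤ L ^ 2 := by nlinarith
    nlinarith
  · calc (m : ℝ) * (m * L ^ 2) = (m:ℝ) ^ 2 * L ^ 2 := by ring
      _ ≤ (L / M) ^ 2 * L ^ 2 := by gcongr
      _ = (1 / M) ^ 2 * L ^ 4 := by field_simp
      _ ≤ L ^ 2 * L ^ 4 := by gcongr
      _ = L ^ 6 := by ring
  · intro I hI
    rw [(hmem I hI).2]; exact hm4
  · intro I hI
    exact (hmem I hI).2.le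
  · intro I hI K hK
    refine (sm_le a M hs hM.le h1 K).trans ?_
    have hKn : (0:ℝ) ≤ K.card := by positivity
    have hK1 : (K.card : ℝ) ≤ m := by
      rw [← (hmem I hI).2]
      exact_mod_cast Finset.card_le_card hK
    have h3 : M * (K.card : ℝ) ≤ L := by
      have := hK1.trans hm
      rw [le_div_iff₀ hM] at this
      linarith [mul_comm M (K.card : ℝ)]
    have h4 : (1 / 2) * M * (K.card : ℝ) ^ 2 ≤ (1 / 2) * K.card * L := by
      have := mul_le_mul_of_nonneg_right h3 hKn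
      nlinarith
    refine h4.trans ?_
    have : 0 ≤ (K.card : ℝ) * L := by positivity
    nlinarith
  · intro K
    refine (hcount K).trans ?_
    have : 0 ≤ ((m * L ^ 2) / n) ^ K.card := by positivity
    have h5 : (0:ℝ) ≤ (fam (fun _ : Fin 1 => U) (fun _ => m)).card := by positivity
    nlinarith [mul_nonneg this h5]

end Pool.Agent.H452R3.CHI
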