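import Pool.Agent.H452R3.CHI.Up4

set_option autoImplicit false
open MeasureTheory Filter Topology
open scoped ENNReal

namespace Pool.Agent.H452R3.CHI

lemma ms_sum {k : ℕ} (t : Fin k → ℕ) (f : Fin k → ℝ) :
    (((∑ i, Multiset.replicate (t i) i : Multiset (Fin k))).map f).sum = ∑ i, (t i : ℝ) * f i := by
  classical
  have : ∀ s : Finset (Fin k), (((∑ i ∈ s, Multiset.replicate (t i) i : Multiset (Fin k))).map f).sum
      = ∑ i ∈ s, (t i : ℝ) * f i := by
    intro s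
    induction s using Finset.induction_on with
    | empty => simp
    | insert a s ha ih =>
      rw [Finset.sum_insert ha, Finset.sum_insert ha, Multiset.map_add, Multiset.sum_add, ih]
      simp
  exact this _

lemma ms_card {k : ℕ} (t : Fin k → ℕ) :
    Multiset.card (∑ i, Multiset.replicate (t i) i : Multiset (Fin k)) = ∑ i, t i := by
  classical
  have : ∀ s : Finset (Fin k),
      Multiset.card (∑ i ∈ s, Multiset.replicate (t i) i : Multiset (Fin k)) = ∑ i ∈ s, t i := by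
    intro s
    induction s using Finset.induction_on with
    | empty => simp
    | insert a s ha ih =>
      rw [Finset.sum_insert ha, Finset.sum_insert ha, Multiset.card_add, ih]
      simp
  exact this _

lemma ms_mem {k : ℕ} (t : Fin k → ℕ) (i : Fin k)
    (h : i ∈ (∑ i, Multiset.replicate (t i) i : Multiset (Fin k))) : 0 < t i := by
  classical
  rw [Multiset.mem_sum] at h
  obtain ⟨j, _, hj⟩ := h
  obtain ⟨h1, rfl⟩ := Multiset.mem_replicate.1 hj
  exact Nat.pos_of_ne_zero h1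

lemma colour_bound {n q k : ℕ} (G : SimpleGraph (Fin n)) (V : Fin q → Finset (Fin n))
    (m : Fin k → ℝ) (r : Fin k → Fin q → ℝ) (α : Fin k → ℝ) (δ : ℝ) (s j m' : ℕ)
    (hr : ∀ i c, 0 ≤ r i c) (hm : ∀ i, 0 < m i) (hδ : 0 < δ) (hδ1 : δ < 1)
    (h : ∀ i, 0 < α i → ∀ U : Finset (Fin n), (∀ c, δ * n / (2 * q) ≤ ((U ∩ V c).card : ℝ)) →
      ∃ I ⊆ U, indep G I ∧ (∀ c, ((I ∩ V c).card : ℝ) ≤ r i c * m i) ∧ m i - q ≤ (I.card : ℝ))
    (h2 : ∀ U : Finset (Fin n), s ≤ U.card → ∃ I ⊆ U, indep G I ∧ I.card = m')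
    (hα : ∀ i, 0 ≤ α i) (hαr : ∀ c, ∑ i, α i * r i c = 1 / q)
    (hVc : ∀ c, (1 - δ / 2) * n / q ≤ ((V c).card : ℝ))
    (hleft : (n : ℝ) - ∑ i, (⌊(1 - δ) * α i * n / m i⌋₊ : ℝ) * (m i - q) ≤ (s : ℝ) + j * m') :
    G.chromaticNumber.toNat ≤ s + j + ∑ i, ⌊(1 - δ) * α i * n / m i⌋₊ := by
  classical
  set t : Fin k → ℕ := fun i => ⌊(1 - δ) * α i * n / m i⌋₊ with ht
  have hnn : ∀ i, 0 ≤ (1 - δ) * α i * n / m i := fun i =>
    div_nonneg (mul_nonneg (mul_nonneg (by linarith) (hα i)) (by positivity)) (hm i).le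
  have htle : ∀ i, (t i : ℝ) ≤ (1 - δ) * α i * n / m i := fun i => Nat.floor_le (hnn i)
  obtain ⟨U, hU1, hU2, _⟩ := phase1 G V m r (δ * n / (2 * q)) q hr (fun i => (hm i).le)
    (fun i => 0 < α i) h (∑ i, Multiset.replicate (t i) i) (fun i hi => by
      have hti := ms_mem t i hi
      by_contra hneg
      have hz : α i = 0 := le_antisymm (not_lt.1 hneg) (hα i)
      simp [ht, hz] at hti) (fun c => by
      rw [ms_sum]
      calc ∑ i, (t i : ℝ) * (r i c * m i) ≤ ∑ i, ((1 - δ) * α i * n / m i) * (r i c * m i) := by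
            refine Finset.sum_le_sum fun i _ => ?_
            exact mul_le_mul_of_nonneg_right (htle i) (mul_nonneg (hr i c) (hm i).le)
        _ = ∑ i, (1 - δ) * n * (α i * r i c) := by
            refine Finset.sum_congr rfl fun i _ => ?_
            have := (hm i).ne'
            field_simp
        _ = (1 - δ) * n / q := by
            rw [← Finset.mul_sum, hαr]; ring
        _ ≤ ((V c).card : ℝ) - δ * n / (2 * q) := by
            have h3 := hVc c
            have h4 : (1 - δ / 2) * n / q = (1 - δ) * n / q + δ * n / (2 * q) := by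
              rcases Nat.eq_zero_or_pos q with h0 | h0
              · exact absurd c.2 (by omega)
              · have : (0:ℝ) < q := by exact_mod_cast h0
                field_simp
                ring
            linarith)
  rw [ms_sum] at hU2
  have hUc : U.card ≤ s + j * m' := by
    have : (U.card : ℝ) ≤ (s : ℝ) + j * m' := hU2.trans hleft
    exact_mod_cast this
  have hcol := hU1 _ (phase2 G s m' h2 j U hUc)
  rw [ms_card] at hcol
  exact chrom_le hcol

/-- numeric bound for the number of colours -/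
lemma num_bound {k : ℕ} (α φ : Fin k → ℝ) (n L δ ε ε1 M g0 Φ t : ℝ) (hα : ∀ i, 0 ≤ α i)
    (hn : 1 ≤ n) (hL : 0 < L) (hM : 0 < M) (hg0 : 0 < g0) (hδ : 0 < δ) (hδ1 : δ < 1)
    (hε : 0 < ε) (hε1 : 0 < ε1) (hε1' : ε1 ≤ 1)
    (ht : t = ∑ i, α i * φ i) (ht2 : t ≤ Φ + ε * g0 / 8) (htM : t ≤ M) (ht0 : 0 ≤ t)
    (hΦ : g0 ≤ Φ) (h1 : ε1 * M ≤ ε * g0 / 8) (h2 : 8 * δ * M ≤ ε * g0 / 8)
    (h3 : 2 / L ≤ ε * g0 / 8) (h4 : 4 * L / n ≤ ε * g0 / 8) (hφ : ∀ i, 0 < φ i) :
    (n / L ^ 2 + 1) + (4 * δ * M * n / L + 1)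
      + ∑ i, (1 - δ) * α i * n / ((2 - ε1) * L / φ i) ≤ (1 + ε) * (Φ * n / (2 * L)) := by
  have hn0 : 0 < n := by linarith
  have e1 : ∑ i, (1 - δ) * α i * n / ((2 - ε1) * L / φ i)
      = (1 - δ) * n / ((2 - ε1) * L) * t := by
    rw [ht, Finset.mul_sum]
    refine Finset.sum_congr rfl fun i _ => ?_
    have h5 := (hφ i).ne'
    have h6 : (2 - ε1) ≠ 0 := by linarith
    field_simp
  have e2 : (1 - δ) * n / ((2 - ε1) * L) * t ≤ (n / (2 * L)) * ((1 + ε1) * t) := by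
    have h5 : (1 - δ) / (2 - ε1) ≤ (1 + ε1) / 2 := by
      rw [div_le_div_iff₀ (by linarith) (by norm_num)]
      nlinarith
    calc (1 - δ) * n / ((2 - ε1) * L) * t = ((1 - δ) / (2 - ε1)) * (n / L * t) := by
          have h6 : (2 - ε1) ≠ 0 := by linarith
          field_simp
      _ ≤ ((1 + ε1) / 2) * (n / L * t) := by
          refine mul_le_mul_of_nonneg_right h5 ?_
          positivity
      _ = _ := by field_simp
  have e3 : (1 + ε1) * t ≤ Φ + 2 * (ε * g0 / 8) := by nlinarith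
  have e4 : (n / (2 * L)) * ((1 + ε1) * t) ≤ (n / (2 * L)) * (Φ + 2 * (ε * g0 / 8)) := by gcongr
  have e5 : (n / L ^ 2 + 1) + (4 * δ * M * n / L + 1)
      = (n / (2 * L)) * (2 / L + 8 * δ * M + 4 * L / n) := by
    field_simp
    ring
  rw [e1, e5]
  have e6 : (n / (2 * L)) * (2 / L + 8 * δ * M + 4 * L / n)
      ≤ (n / (2 * L)) * (3 * (ε * g0 / 8)) := by
    have : 2 / L + 8 * δ * M + 4 * L / n ≤ 3 * (ε * g0 / 8) := by linarith
    gcongr
  have e7 : (n / (2 * L)) * (3 * (ε * g0 / 8)) + (n / (2 * L)) * (Φ + 2 * (ε * g0 / 8))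
      ≤ (1 + ε) * (Φ * n / (2 * L)) := by
    have : 3 * (ε * g0 / 8) + (Φ + 2 * (ε * g0 / 8)) ≤ (1 + ε) * Φ := by nlinarith
    calc _ = (n / (2 * L)) * (3 * (ε * g0 / 8) + (Φ + 2 * (ε * g0 / 8))) := by ring
      _ ≤ (n / (2 * L)) * ((1 + ε) * Φ) := by gcongr
      _ = _ := by field_simp
  linarith

/-- leftover bound -/
lemma left_bound {k : ℕ} (α m : Fin k → ℝ) (n L δ M g0 q : ℝ) (hα : ∀ i, 0 ≤ α i)
    (hα1 : ∑ i, α i = 1) (hn : 1 ≤ n) (hL : 0 < L) (hM : 0 < M) (hg0 : 0 < g0) (hδ : 0 < δ)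
    (hδ1 : δ < 1) (hq : 0 ≤ q) (hm1 : ∀ i, L / M ≤ m i) (hm2 : ∀ i, m i ≤ 2 * L / g0)
    (hmq : ∀ i, q ≤ m i) (h1 : q * M / L ≤ δ / 2) (h2 : 2 * k * L / g0 ≤ δ * n / 2) :
    n - ∑ i, (⌊(1 - δ) * α i * n / m i⌋₊ : ℝ) * (m i - q) ≤ 2 * δ * n := by
  have hLM : 0 < L / M := by positivity
  have hmpos : ∀ i, 0 < m i := fun i => lt_of_lt_of_le hLM (hm1 i)
  have e1 : ∀ i, (1 - δ) * α i * n - α i * (δ / 2 * n) - 2 * L / g0
      ≤ (⌊(1 - δ) * α i * n / m i⌋₊ : ℝ) * (m i - q) := by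
    intro i
    have hf := (Nat.lt_floor_add_one ((1 - δ) * α i * n / m i)).le
    have h3 : (1 - δ) * α i * n / m i - 1 ≤ (⌊(1 - δ) * α i * n / m i⌋₊ : ℝ) := by linarith
    have h4 : ((1 - δ) * α i * n / m i - 1) * (m i - q)
        ≤ (⌊(1 - δ) * α i * n / m i⌋₊ : ℝ) * (m i - q) :=
      mul_le_mul_of_nonneg_right h3 (by linarith [hmq i])
    refine le_trans ?_ h4
    have h5 : ((1 - δ) * α i * n / m i - 1) * (m i - q)
        = (1 - δ) * α i * n - (1 - δ) * α i * n * (q / m i) - m i + q := by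
      have := (hmpos i).ne'
      field_simp
      ring
    rw [h5]
    have h6 : q / m i ≤ δ / 2 := by
      calc q / m i ≤ q / (L / M) := by
            exact div_le_div_of_nonneg_left hq hLM (hm1 i)
        _ = q * M / L := by field_simp
        _ ≤ δ / 2 := h1
    have h7 : (1 - δ) * α i * n * (q / m i) ≤ α i * (δ / 2 * n) := by
      calc (1 - δ) * α i * n * (q / m i) ≤ (1 - δ) * α i * n * (δ / 2) := by
            refine mul_le_mul_of_nonneg_left h6 ?_
            exact mul_nonneg (mul_nonneg (by linarith) (hα i)) (by linarith)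
        _ ≤ 1 * α i * n * (δ / 2) := by
            have : 0 ≤ α i := hα i
            gcongr
            linarith
        _ = _ := by ring
    have := hm2 i
    linarith
  have e2 : ∑ i, ((1 - δ) * α i * n - α i * (δ / 2 * n) - 2 * L / g0)
      ≤ ∑ i, (⌊(1 - δ) * α i * n / m i⌋₊ : ℝ) * (m i - q) := Finset.sum_le_sum fun i _ => e1 i
  have e3 : ∑ i, ((1 - δ) * α i * n - α i * (δ / 2 * n) - 2 * L / g0)
      = (1 - δ) * n - δ / 2 * n - k * (2 * L / g0) := by
    rw [Finset.sum_sub_distrib, Finset.sum_sub_distrib, ← Finset.sum_mul, ← Finset.sum_mul,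
      ← Finset.mul_sum, hα1]
    simp
  rw [e3] at e2
  have e4 : k * (2 * L / g0) = 2 * k * L / g0 := by ring
  rw [e4] at e2
  linarith

end Pool.Agent.H452R3.CHI
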