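import Pool.Agent.H452R3.CHI.Up2

set_option autoImplicit false
open MeasureTheory Filter Topology
open scoped ENNReal

namespace Pool.Agent.H452R3.CHI

lemma cell_set (q : ℕ) (hq : 1 ≤ q) (c : ℕ) (hc : c < q) :
    {y : ℝ | cidx q y = c} ∩ Set.Icc (0:ℝ) 1 = Set.Ico ((c:ℝ) / q) (((c:ℝ) + 1) / q) := by
  have hq0 : (0:ℝ) < q := by exact_mod_cast hq
  have hcq : ((c:ℝ) + 1) ≤ q := by exact_mod_cast hc
  ext y
  simp only [Set.mem_inter_iff, Set.mem_ofPred_eq, Set.mem_Icc, Set.mem_Ico, cidx]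
  constructor
  · rintro ⟨h1, h2, h3⟩
    rw [Nat.floor_eq_iff (by positivity)] at h1
    rw [div_le_iff₀ hq0, lt_div_iff₀ hq0]
    constructor <;> nlinarith [h1.1, h1.2]
  · rintro ⟨h1, h2⟩
    rw [div_le_iff₀ hq0] at h1
    rw [lt_div_iff₀ hq0] at h2
    have h0 : 0 ≤ y := by
      by_contra h
      push Not at h
      have : (0:ℝ) ≤ c := by positivity
      nlinarith
    refine ⟨?_, h0, ?_⟩
    · rw [Nat.floor_eq_iff (by positivity)]
      constructor <;> nlinarith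
    · by_contra h
      push Not at h
      nlinarith

lemma meas_cell (q c : ℕ) : MeasurableSet {y : ℝ | cidx q y = c} :=
  measurable_cidx q (measurableSet_singleton c)

lemma fam_le {k : ℕ} (ν : Fin k → Measure ℝ) (α : Fin k → ℝ)
    (h : ∑ i, ENNReal.ofReal (α i) • ν i = volume.restrict (Set.Icc (0:ℝ) 1)) (i : Fin k) :
    ENNReal.ofReal (α i) • ν i ≤ volume.restrict (Set.Icc (0:ℝ) 1) := by
  rw [← h, Measure.le_iff]
  intro s _
  rw [Measure.finsetSum_apply]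
  exact Finset.single_le_sum (f := fun i => (ENNReal.ofReal (α i) • ν i) s)
    (fun j _ => zero_le) (Finset.mem_univ i)

lemma fam_cell {k : ℕ} (ν : Fin k → Measure ℝ) (α : Fin k → ℝ) [∀ i, IsProbabilityMeasure (ν i)]
    (hα : ∀ i, 0 ≤ α i)
    (h : ∑ i, ENNReal.ofReal (α i) • ν i = volume.restrict (Set.Icc (0:ℝ) 1)) (q : ℕ) (hq : 1 ≤ q)
    (c : ℕ) (hc : c < q) : ∑ i, α i * (ν i).real {y | cidx q y = c} = 1 / q := by
  have hq0 : (0:ℝ) < q := by exact_mod_cast hq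
  have h1 : (∑ i, ENNReal.ofReal (α i) • ν i) {y | cidx q y = c}
      = (volume.restrict (Set.Icc (0:ℝ) 1)) {y | cidx q y = c} := by rw [h]
  rw [Measure.finsetSum_apply, Measure.restrict_apply (meas_cell q c), cell_set q hq c hc,
    Real.volume_Ico] at h1
  have h2 := congrArg ENNReal.toReal h1
  rw [ENNReal.toReal_sum (fun i _ => by
    simp only [Measure.smul_apply, smul_eq_mul]
    exact ENNReal.mul_ne_top ENNReal.ofReal_ne_top (measure_ne_top _ _))] at h2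
  simp only [Measure.smul_apply, smul_eq_mul, ENNReal.toReal_mul] at h2
  have h3 : ((c:ℝ) + 1) / q - c / q = 1 / q := by field_simp; ring
  rw [h3, ENNReal.toReal_ofReal (by positivity)] at h2
  rw [← h2]
  refine Finset.sum_congr rfl fun i _ => ?_
  rw [ENNReal.toReal_ofReal (hα i)]
  rfl

lemma fam_total (ν : Measure ℝ) [IsProbabilityMeasure ν] (hν0 : ν (Set.Icc (0:ℝ) 1)ᶜ = 0)
    (α : ℝ) (hα : 0 < α) (hν : ENNReal.ofReal α • ν ≤ volume.restrict (Set.Icc (0:ℝ) 1))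
    (q : ℕ) (hq : 1 ≤ q) : ∑ c : Fin q, ν.real {y | cidx q y = c.1} = 1 := by
  have hq0 : (0:ℝ) < q := by exact_mod_cast hq
  have h1 := integral_cells ν q (Finset.range q) (fun _ => (1:ℝ))
  rw [setIntegral_const] at h1
  simp only [smul_eq_mul, mul_one] at h1
  rw [Finset.sum_range] at h1
  rw [← h1]
  have hone : ν {(1:ℝ)} = 0 := by
    have h2 := hν {(1:ℝ)}
    simp only [Measure.smul_apply, smul_eq_mul] at h2
    have h3 : (volume.restrict (Set.Icc (0:ℝ) 1)) {(1:ℝ)} = 0 := by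
      refine le_antisymm ((Measure.restrict_le_self _).trans ?_) (zero_le)
      simp
    rw [h3] at h2
    have h4 := le_antisymm h2 (zero_le)
    rcases mul_eq_zero.1 h4 with h5 | h5
    · simp at h5; linarith
    · exact h5
  have hcomp : ν {y | cidx q y ∈ Finset.range q}ᶜ = 0 := by
    refine measure_mono_null (t := (Set.Icc (0:ℝ) 1)ᶜ ∪ {(1:ℝ)}) ?_ (measure_union_null hν0 hone)
    intro y hy
    by_cases h : y ∈ Set.Icc (0:ℝ) 1
    · right
      by_contra h1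
      have h1' : y ≠ 1 := fun hh => h1 (by simp [hh])
      have hlt : y < 1 := lt_of_le_of_ne h.2 h1'
      refine hy ?_
      show cidx q y ∈ Finset.range q
      rw [Finset.mem_range, cidx, Nat.floor_lt (mul_nonneg hq0.le h.1)]
      nlinarith
    · exact Or.inl h
  have hm : MeasurableSet {y : ℝ | cidx q y ∈ Finset.range q} :=
    measurable_cidx q (Finset.measurableSet _)
  have := prob_compl_eq_zero_iff (μ := ν) hm
  have h5 := this.1 hcomp
  rw [Measure.real, h5]; simp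

lemma step_fin (g : ℝ → ℝ → ℝ) (M : ℝ) (hm : Measurable (Function.uncurry g))
    (h0 : ∀ x y, 0 ≤ g x y) (h1 : ∀ x y, g x y ≤ M) (γ : ℕ → ℕ → ℝ) (q : ℕ)
    (hγ0 : ∀ i j, 0 ≤ γ i j) (hγ1 : ∀ i j, γ i j ≤ M) (ρ : ℝ)
    (hρ : ∫ x in Set.Icc (0:ℝ) 1, (∫ y in Set.Icc (0:ℝ) 1,
      |g x y - γ (cidx q x) (cidx q y)|) ≤ ρ)
    (ν : Measure ℝ) [IsProbabilityMeasure ν] (α : ℝ) (hα : 0 < α)
    (hν : ENNReal.ofReal α • ν ≤ volume.restrict (Set.Icc (0:ℝ) 1)) (S : Finset (Fin q)) :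
    ∑ a ∈ S, ∑ b ∈ S, ν.real {y | cidx q y = a.1} * ν.real {y | cidx q y = b.1} * γ a b
      ≤ sSup (phiSet g ν) * ∑ a ∈ S, ν.real {y | cidx q y = a.1} + ρ / α ^ 2 := by
  have := step_ineq g M hm h0 h1 γ q hγ0 hγ1 ρ hρ ν α hα hν (S.map Fin.valEmbedding)
  simpa [Finset.sum_map] using this

end Pool.Agent.H452R3.CHI
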