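import Pool.Agent.H452R3.CHI.Up5
import Pool.Agent.H452R3.CHI.Up6

set_option autoImplicit false
open MeasureTheory Filter Topology
open scoped ENNReal

namespace Pool.Agent.H452R3.CHI

lemma r_le {k : ℕ} (ν : Fin k → Measure ℝ) (α : Fin k → ℝ) [∀ i, IsProbabilityMeasure (ν i)]
    (hα : ∀ i, 0 ≤ α i)
    (h : ∑ i, ENNReal.ofReal (α i) • ν i = volume.restrict (Set.Icc (0:ℝ) 1)) (q : ℕ) (hq : 1 ≤ q)
    (c : ℕ) (hc : c < q) (α0 : ℝ) (hα0 : 0 < α0) (i : Fin k) (hi : α0 ≤ α i) :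
    (ν i).real {y | cidx q y = c} ≤ 1 / (α0 * q) := by
  have hq0 : (0:ℝ) < q := by exact_mod_cast hq
  have h1 := fam_cell ν α hα h q hq c hc
  have h2 : α i * (ν i).real {y | cidx q y = c} ≤ 1 / q := by
    rw [← h1]
    exact Finset.single_le_sum (f := fun i => α i * (ν i).real {y | cidx q y = c})
      (fun j _ => mul_nonneg (hα j) measureReal_nonneg) (Finset.mem_univ i)
  have h3 : α0 * (ν i).real {y | cidx q y = c} ≤ 1 / q := by
    refine le_trans ?_ h2
    exact mul_le_mul_of_nonneg_right hi measureReal_nonneg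
  rw [le_div_iff₀ (by positivity)]
  rw [le_div_iff₀ hq0] at h3
  linarith

/-- deterministic core for a fixed good type vector -/
lemma fixed_x (hV : TaskVertex) (hC : TaskCount) {n q k : ℕ}
    (g : ℝ → ℝ → ℝ) (M g0 : ℝ) (hm : Measurable (Function.uncurry g))
    (hs : ∀ x y, g x y = g y x) (hg : ∀ x y, g0 ≤ g x y) (h1 : ∀ x y, g x y ≤ M) (hg0 : 0 < g0)
    (ν : Fin k → Measure ℝ) [∀ i, IsProbabilityMeasure (ν i)] (α : Fin k → ℝ)
    (hν0 : ∀ i, ν i (Set.Icc (0:ℝ) 1)ᶜ = 0) (hα : ∀ i, 0 ≤ α i) (hα1 : ∑ i, α i = 1)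
    (hsum : ∑ i, ENNReal.ofReal (α i) • ν i = volume.restrict (Set.Icc (0:ℝ) 1))
    (γ : ℕ → ℕ → ℝ) (hq : 1 ≤ q) (hγ0 : ∀ i j, 0 ≤ γ i j) (hγ1 : ∀ i j, γ i j ≤ M) (ρ : ℝ)
    (hρ : ∫ x in Set.Icc (0:ℝ) 1, (∫ y in Set.Icc (0:ℝ) 1,
      |g x y - γ (cidx q x) (cidx q y)|) ≤ ρ)
    (α0 : ℝ) (hα0 : 0 < α0) (hα0' : ∀ i, 0 < α i → α0 ≤ α i)
    (ε ε1 δ η β Φ : ℝ) (hε : 0 < ε) (hε1 : 0 < ε1) (hε1' : ε1 ≤ 1) (hδ : 0 < δ) (hδ1 : δ < 1)
    (hη : 0 ≤ η) (hβ : 0 ≤ β) (hΦ : g0 ≤ Φ)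
    (ht2 : ∑ i, α i * sSup (phiSet g (ν i)) ≤ Φ + ε * g0 / 8)
    (hp1 : ε1 * M ≤ ε * g0 / 8) (hp2 : 8 * δ * M ≤ ε * g0 / 8)
    (hpar : (2 / g0 ^ 2) * (ρ / α0 ^ 2 + η) + M * β * (4 / (α0 * g0 * δ)) ^ 2 ≤ ε1 / (4 * M))
    (hn : 1 ≤ n) (hL1 : 1 ≤ Real.log n)
    (hJ : ∀ (a : Fin n → Fin n → ℝ), (∀ i j, 0 ≤ a i j) → (∀ i j, a i j ≤ M) →
      ∀ (𝓕 : Finset (Finset (Fin n))) (Λ : ℝ) (m : ℕ), 𝓕.Nonempty → 1 ≤ Λ →
        (m : ℝ) * Λ ≤ (Real.log n) ^ 6 →
        (∀ I ∈ 𝓕, 4 / (ε1 / 4) ≤ (I.card : ℝ)) → (∀ I ∈ 𝓕, I.card ≤ m) →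
        (∀ I ∈ 𝓕, ∀ K ⊆ I, sm a K ≤ (1 - ε1 / 4) * K.card * Real.log n) →
        (∀ K : Finset (Fin n), ((Finset.card (Finset.filter (fun J => K ⊆ J) 𝓕)) : ℝ)
          ≤ 2 * (Λ / n) ^ K.card * 𝓕.card) →
        Pr a (fun G => ∀ I ∈ 𝓕, ¬ indep G I) ≤ Real.exp (- (n : ℝ) ^ (8 / 5 : ℝ) / 2))
    (c1 : 1 ≤ 4 / (α0 * g0 * δ) * Real.log n) (c2 : 4 / (α0 * g0 * δ) * Real.log n ≤ n)
    (c3 : 4 / (ε1 / 4) + q ≤ Real.log n / M)
    (c4 : 2 * Real.log n / g0 * (4 / (α0 * g0 * δ) * Real.log n) ≤ (Real.log n) ^ 6)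
    (c5 : 1 / M ≤ Real.log n) (c6 : q * M / Real.log n ≤ δ / 2)
    (c7 : 2 * k * Real.log n / g0 ≤ δ * n / 2) (c8 : 2 / Real.log n ≤ ε * g0 / 8)
    (c9 : 4 * Real.log n / n ≤ ε * g0 / 8) (c10 : Real.log n / M ≤ n / (Real.log n) ^ 2)
    (x : Fin n → ℝ) (hx1 : ∀ c : Fin q, (1 - δ / 2) * n / q ≤ ((VV q x c).card : ℝ))
    (hx2 : ((BP g γ q η x).card : ℝ) ≤ β * (n : ℝ) ^ 2) :
    Pr (fun i j => g (x i) (x j))
      (fun G => (1 + ε) * (Φ * n / (2 * Real.log n)) < (G.chromaticNumber.toNat : ℝ))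
      ≤ (k + 1) * 2 ^ n * Real.exp (- (n : ℝ) ^ (8 / 5 : ℝ) / 2) := by
  classical
  have hnpos : (0:ℝ) < n := by exact_mod_cast hn
  have hn1 : (1:ℝ) ≤ n := by exact_mod_cast hn
  have hq0 : (0:ℝ) < q := by exact_mod_cast hq
  set L := Real.log n with hLd
  have hL : 0 < L := by linarith
  have h0 : ∀ x y, 0 ≤ g x y := fun x y => hg0.le.trans (hg x y)
  have hM : 0 < M := lt_of_lt_of_le hg0 ((hg 0 0).trans (h1 0 0))
  have hρ0 : 0 ≤ ρ := le_trans (integral_nonneg fun x => integral_nonneg fun y => abs_nonneg _) hρ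
  set φ : Fin k → ℝ := fun i => sSup (phiSet g (ν i)) with hφd
  have hφ0 : ∀ i, g0 ≤ φ i := fun i => phi_lb g M g0 hm h0 h1 hg (ν i)
  have hφM : ∀ i, φ i ≤ M := fun i => by
    refine csSup_le ?_ (phi_bdd g M hm h0 h1 (ν i))
    exact ⟨_, Set.univ, MeasurableSet.univ, by simp, rfl⟩
  have hφpos : ∀ i, 0 < φ i := fun i => lt_of_lt_of_le hg0 (hφ0 i)
  set m : Fin k → ℝ := fun i => (2 - ε1) * L / φ i with hmd
  have hmpos : ∀ i, 0 < m i := fun i => by
    have := hφpos i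
    have h2 : 0 < 2 - ε1 := by linarith
    positivity
  have hmlo : ∀ i, L / M ≤ m i := fun i => by
    rw [hmd]
    simp only
    rw [div_le_div_iff₀ hM (hφpos i)]
    have := hφM i
    have h2 : 1 ≤ 2 - ε1 := by linarith
    have h3 : L * φ i ≤ L * M := by gcongr
    have h4 : 0 ≤ L * M := by positivity
    nlinarith
  have hmhi : ∀ i, m i ≤ 2 * L / g0 := fun i => by
    rw [hmd]
    simp only
    rw [div_le_div_iff₀ (hφpos i) hg0]
    have := hφ0 i
    have h3 : L * g0 ≤ L * φ i := by gcongr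
    have h4 : 0 ≤ L * g0 := by positivity
    nlinarith
  set r : Fin k → Fin q → ℝ := fun i c => (ν i).real {y | cidx q y = c.1} with hrd
  have hr : ∀ i c, 0 ≤ r i c := fun i c => measureReal_nonneg
  set CL := 4 / (α0 * g0 * δ) with hCLd
  have hCL0 : 0 < CL := by positivity
  set s : ℕ := ⌈(n:ℝ) / L ^ 2⌉₊ with hsd
  set m' : ℕ := ⌊L / M⌋₊ with hm'd
  have h16 : 16 ≤ L / M := by
    have : 16 ≤ 4 / (ε1 / 4) := by
      rw [le_div_iff₀ (by positivity)]; linarith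
    linarith
  have hm'le : (m' : ℝ) ≤ L / M := Nat.floor_le (by positivity)
  have hm'ge : L / M - 1 ≤ (m' : ℝ) := by
    have := Nat.lt_floor_add_one (L / M)
    rw [hm'd]; linarith
  have hm'1 : 1 ≤ m' := by
    have : (1:ℝ) ≤ m' := by linarith
    exact_mod_cast this
  have hq1 : (1:ℝ) ≤ q := by exact_mod_cast hq
  have hsge : (n:ℝ) / L ^ 2 ≤ s := Nat.le_ceil _
  have hsle : (s:ℝ) ≤ n / L ^ 2 + 1 := (Nat.ceil_lt_add_one (by positivity)).le
  have hm's : m' ≤ s := by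
    have : (m' : ℝ) ≤ s := by linarith
    exact_mod_cast this
  set j : ℕ := ⌈2 * δ * n / m'⌉₊ with hjd
  have hm'pos : (0:ℝ) < m' := by exact_mod_cast hm'1
  have hjge : 2 * δ * n ≤ j * m' := by
    have : 2 * δ * n / m' ≤ j := Nat.le_ceil _
    rwa [div_le_iff₀ hm'pos] at this
  have hjle : (j : ℝ) ≤ 4 * δ * M * n / L + 1 := by
    refine (Nat.ceil_lt_add_one (by positivity)).le.trans ?_
    have h2 : L / (2 * M) ≤ m' := by
      have : L / (2 * M) = (L / M) / 2 := by field_simp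
      rw [this]; linarith
    have h3 : 2 * δ * n / m' ≤ 2 * δ * n / (L / (2 * M)) := by
      gcongr
    have h4 : 2 * δ * n / (L / (2 * M)) = 4 * δ * M * n / L := by
      field_simp
      ring
    linarith
  -- the events
  set B1 : Finset (Fin k × Finset (Fin n)) := Finset.univ.filter (fun z => 0 < α z.1 ∧
    ∀ c, δ * n / (2 * q) ≤ ((z.2 ∩ VV q x c).card : ℝ)) with hB1
  set B2 : Finset (Finset (Fin n)) := Finset.univ.filter (fun U => s ≤ U.card) with hB2
  set E1 : Fin k × Finset (Fin n) → SimpleGraph (Fin n) → Prop := fun z G =>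
    ¬ ∃ I ⊆ z.2, indep G I ∧ (∀ c, ((I ∩ VV q x c).card : ℝ) ≤ r z.1 c * m z.1) ∧
      m z.1 - q ≤ (I.card : ℝ) with hE1
  set E2 : Finset (Fin n) → SimpleGraph (Fin n) → Prop := fun U G =>
    ¬ ∃ I ⊆ U, indep G I ∧ I.card = m' with hE2
  have ha0 : ∀ i j : Fin n, 0 ≤ (fun i j => g (x i) (x j)) i j := fun i j => h0 _ _
  have hincl : Pr (fun i j => g (x i) (x j))
      (fun G => (1 + ε) * (Φ * n / (2 * L)) < (G.chromaticNumber.toNat : ℝ))
      ≤ Pr (fun i j => g (x i) (x j)) (fun G => (∃ z ∈ B1, E1 z G) ∨ (∃ U ∈ B2, E2 U G)) := by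
    refine Pr_mono _ ha0 _ _ ?_
    intro G hG
    by_contra hcon
    have hcon1 : ∀ z ∈ B1, ¬ E1 z G := fun z hz h => hcon (Or.inl ⟨z, hz, h⟩)
    have hcon2 : ∀ U ∈ B2, ¬ E2 U G := fun U hU h => hcon (Or.inr ⟨U, hU, h⟩)
    have hbound : G.chromaticNumber.toNat ≤ s + j + ∑ i, ⌊(1 - δ) * α i * n / m i⌋₊ := by
      refine colour_bound G (VV q x) m r α δ s j m' hr hmpos hδ hδ1 ?_ ?_ hα ?_ hx1 ?_
      · intro i hi U hU
        have := hcon1 (i, U) (by simp only [hB1, Finset.mem_filter, Finset.mem_univ, true_and]; exact ⟨hi, hU⟩)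
        simp only [hE1, not_not] at this
        exact this
      · intro U hU
        have := hcon2 U (by simp only [hB2, Finset.mem_filter, Finset.mem_univ, true_and]; exact hU)
        simp only [hE2, not_not] at this
        exact this
      · intro c
        exact fam_cell ν α hα hsum q hq c.1 c.2
      · have h2 := left_bound α m n L δ M g0 q hα hα1 hn1 hL hM hg0 hδ hδ1 hq0.le hmlo hmhi
          (fun i => by
            have := hmlo i
            have h3 : 0 < 4 / (ε1 / 4) := by positivity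
            linarith) c6 c7
        have h3 : (0:ℝ) ≤ s := by positivity
        linarith
    have hb2 : (G.chromaticNumber.toNat : ℝ) ≤ s + j + ∑ i, (⌊(1 - δ) * α i * n / m i⌋₊ : ℝ) := by
      exact_mod_cast hbound
    have hb3 : ∑ i, (⌊(1 - δ) * α i * n / m i⌋₊ : ℝ)
        ≤ ∑ i, (1 - δ) * α i * n / ((2 - ε1) * L / φ i) := by
      refine Finset.sum_le_sum fun i _ => ?_
      refine Nat.floor_le ?_
      have h2 : 0 ≤ 1 - δ := by linarith
      have h3 := hα i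
      have h4 := hmpos i
      exact div_nonneg (mul_nonneg (mul_nonneg h2 h3) hnpos.le) h4.le
    have htM : ∑ i, α i * φ i ≤ M := by
      calc ∑ i, α i * φ i ≤ ∑ i, α i * M := by
            refine Finset.sum_le_sum fun i _ => ?_
            exact mul_le_mul_of_nonneg_left (hφM i) (hα i)
        _ = M := by rw [← Finset.sum_mul, hα1, one_mul]
    have ht0 : 0 ≤ ∑ i, α i * φ i :=
      Finset.sum_nonneg fun i _ => mul_nonneg (hα i) (hφpos i).le
    have hb4 := num_bound α φ n L δ ε ε1 M g0 Φ _ hα hn1 hL hM hg0 hδ hδ1 hε hε1 hε1' rfl ht2 htM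
      ht0 hΦ hp1 hp2 c8 c9 hφpos
    linarith
  refine hincl.trans ((Pr_or _ ha0 _ _).trans ?_)
  set E := Real.exp (- (n : ℝ) ^ (8 / 5 : ℝ) / 2) with hEd
  have hE0 : 0 ≤ E := (Real.exp_pos _).le
  have hcardU : Fintype.card (Finset (Fin n)) = 2 ^ n := by simp
  have hP1 : Pr (fun i j => g (x i) (x j)) (fun G => ∃ z ∈ B1, E1 z G) ≤ k * 2 ^ n * E := by
    refine (Pr_exists _ ha0 B1 E1).trans ?_
    calc ∑ z ∈ B1, Pr (fun i j => g (x i) (x j)) (E1 z) ≤ ∑ z ∈ B1, E := by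
          refine Finset.sum_le_sum fun z hz => ?_
          simp only [hB1, Finset.mem_filter, Finset.mem_univ, true_and] at hz
          obtain ⟨hz1, hz2⟩ := hz
          have hφM' := hφM z.1
          refine typeProb hV hC 0 0 M g0 ε1 CL β η (ρ / α0 ^ 2) (φ z.1) (m z.1) hJ x g γ hs h0 h1
            hγ0 (r z.1) (hr z.1) ?_ ?_ hM hg0 hε1 hε1' hη (by positivity) hβ hn hL ?_ (hmhi z.1)
            (hmpos z.1) c1 c2 ?_ c4 hx2 hpar z.2 ?_
          · intro S
            have h2 := step_fin g M hm h0 h1 γ q hγ0 hγ1 ρ hρ (ν z.1) (α z.1) hz1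
              (fam_le ν α hsum z.1) S
            refine h2.trans ?_
            have h3 : ρ / (α z.1) ^ 2 ≤ ρ / α0 ^ 2 := by
              have := hα0' z.1 hz1
              gcongr
            have h4 : sSup (phiSet g (ν z.1)) = φ z.1 := rfl
            rw [h4]
            linarith
          · exact fam_total (ν z.1) (hν0 z.1) (α z.1) hz1 (fam_le ν α hsum z.1) q hq
          · show (2 - ε1) * L / φ z.1 * φ z.1 = (2 - ε1) * L
            exact div_mul_cancel₀ _ (hφpos z.1).ne'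
          · have := hmlo z.1
            linarith
          · intro c
            have h2 := r_le ν α hα hsum q hq c.1 c.2 α0 hα0 z.1 (hα0' z.1 hz1)
            have h3 := hz2 c
            calc r z.1 c * m z.1 ≤ (1 / (α0 * q)) * (2 * L / g0) := by
                  have h4 := hmhi z.1
                  have h5 := (hmpos z.1).le
                  have h6 := hr z.1 c
                  exact mul_le_mul h2 h4 h5 (by positivity)
              _ = (CL * L / n) * (δ * n / (2 * q)) := by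
                  rw [hCLd]
                  field_simp
                  ring
              _ ≤ (CL * L / n) * ((z.2 ∩ VV q x c).card : ℝ) := by
                  gcongr
      _ = (B1.card : ℝ) * E := by simp
      _ ≤ (k * 2 ^ n) * E := by
          refine mul_le_mul_of_nonneg_right ?_ hE0
          have : B1.card ≤ k * 2 ^ n := by
            refine (Finset.card_le_univ _).trans ?_
            simp
          exact_mod_cast this
  have hP2 : Pr (fun i j => g (x i) (x j)) (fun G => ∃ U ∈ B2, E2 U G) ≤ 2 ^ n * E := by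
    refine (Pr_exists _ ha0 B2 E2).trans ?_
    calc ∑ U ∈ B2, Pr (fun i j => g (x i) (x j)) (E2 U) ≤ ∑ U ∈ B2, E := by
          refine Finset.sum_le_sum fun U hU => ?_
          simp only [hB2, Finset.mem_filter, Finset.mem_univ, true_and] at hU
          have hUr : (s : ℝ) ≤ U.card := by exact_mod_cast hU
          refine crudeProb hC M ε1 hJ _ (fun i j => hs _ _) ha0 (fun i j => h1 _ _) hM hε1 hε1' hn
            hL1 m' hm'1 hm'le ?_ ?_ U (hsge.trans hUr) (hm's.trans hU)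
          · linarith
          · gcongr
      _ = (B2.card : ℝ) * E := by simp
      _ ≤ (2 ^ n) * E := by
          refine mul_le_mul_of_nonneg_right ?_ hE0
          have : B2.card ≤ 2 ^ n := by
            refine (Finset.card_le_univ _).trans ?_
            simp
          exact_mod_cast this
  calc _ ≤ k * 2 ^ n * E + 2 ^ n * E := add_le_add hP1 hP2
    _ = (k + 1) * 2 ^ n * E := by ring

end Pool.Agent.H452R3.CHI
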