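import Pool.Agent.H452R3.CHI.Up7

set_option autoImplicit false
open MeasureTheory Filter Topology
open scoped ENNReal

namespace Pool.Agent.H452R3.CHI

lemma exp_small (K θ : ℝ) (hK : 0 < K) (hθ : 0 < θ) :
    ∀ᶠ n : ℕ in atTop, K * 2 ^ n * Real.exp (- (n : ℝ) ^ (8 / 5 : ℝ) / 2) ≤ θ := by
  have h1 : Tendsto (fun n : ℕ => (n : ℝ) ^ (3 / 5 : ℝ)) atTop atTop :=
    (tendsto_rpow_atTop (by norm_num)).comp tendsto_natCast_atTop_atTop
  filter_upwards [h1.eventually_ge_atTop (2 * (Real.log 2 + 1)),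
    tendsto_natCast_atTop_atTop.eventually_ge_atTop (Real.log (K / θ)), eventually_ge_atTop 1]
    with n hn1 hn2 hn3
  have hnpos : (0:ℝ) < n := by exact_mod_cast hn3
  have h2 : (n : ℝ) ^ (8 / 5 : ℝ) = n * (n : ℝ) ^ (3 / 5 : ℝ) := by
    have : (8 / 5 : ℝ) = 1 + 3 / 5 := by norm_num
    rw [this, Real.rpow_add hnpos, Real.rpow_one]
  have h3 : (2:ℝ) ^ n = Real.exp (n * Real.log 2) := by
    rw [mul_comm, ← Real.rpow_def_of_pos (by norm_num), Real.rpow_natCast]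
  have h4 : K = Real.exp (Real.log (K / θ)) * θ := by
    rw [Real.exp_log (by positivity)]; field_simp
  rw [mul_assoc, h3, ← Real.exp_add]
  have h5 : n * Real.log 2 + - (n : ℝ) ^ (8 / 5 : ℝ) / 2 ≤ - n := by
    rw [h2]
    have : (n : ℝ) * (2 * (Real.log 2 + 1)) ≤ n * (n : ℝ) ^ (3 / 5 : ℝ) := by gcongr
    linarith
  calc K * Real.exp (n * Real.log 2 + - (n : ℝ) ^ (8 / 5 : ℝ) / 2)
      ≤ K * Real.exp (- n) := by
        gcongr
    _ ≤ K * Real.exp (- Real.log (K / θ)) := by gcongr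
    _ = θ := by
        rw [Real.exp_neg, Real.exp_log (by positivity)]
        field_simp

lemma log_pow (C : ℝ) : ∀ᶠ n : ℕ in atTop, C * Real.log n ^ 3 ≤ n := by
  have h := (Real.isLittleO_pow_log_id_atTop (n := 3)).bound (c := 1 / (|C| + 1)) (by positivity)
  have h2 := tendsto_natCast_atTop_atTop (R := ℝ) |>.eventually h
  filter_upwards [h2, eventually_ge_atTop 1] with n hn hn1
  have hnpos : (1:ℝ) ≤ n := by exact_mod_cast hn1
  have hl : 0 ≤ Real.log n := Real.log_nonneg hnpos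
  simp only [id, Real.norm_eq_abs] at hn
  rw [abs_of_nonneg (pow_nonneg hl 3), abs_of_nonneg (show (0:ℝ) ≤ (n:ℝ) by positivity)] at hn
  have h3 : C * Real.log n ^ 3 ≤ (|C| + 1) * Real.log n ^ 3 := by
    have := le_abs_self C
    gcongr
    linarith
  refine h3.trans ?_
  calc (|C| + 1) * Real.log n ^ 3 ≤ (|C| + 1) * (1 / (|C| + 1) * n) := by gcongr
    _ = n := by
      have : |C| + 1 ≠ 0 := by positivity
      field_simp

lemma PhiSet_nonempty (g : ℝ → ℝ → ℝ) : (PhiSet g).Nonempty := by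
  refine ⟨_, 1, fun _ => volume.restrict (Set.Icc (0:ℝ) 1), fun _ => 1, ?_, ?_, ?_, ?_, ?_, rfl⟩
  · intro i
    exact ⟨by simp⟩
  · intro i
    rw [Measure.restrict_apply measurableSet_Icc.compl]
    simp
  · intro i; norm_num
  · simp
  · simp

lemma PhiSet_lb (g : ℝ → ℝ → ℝ) (M g0 : ℝ) (hm : Measurable (Function.uncurry g))
    (h0 : ∀ x y, 0 ≤ g x y) (h1 : ∀ x y, g x y ≤ M) (h2 : ∀ x y, g0 ≤ g x y) :
    ∀ t ∈ PhiSet g, g0 ≤ t := by
  rintro t ⟨k, ν, α, hp, h3, h4, h5, h6, rfl⟩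
  calc g0 = ∑ i, α i * g0 := by rw [← Finset.sum_mul, h5, one_mul]
    _ ≤ ∑ i, α i * sSup (phiSet g (ν i)) := by
      refine Finset.sum_le_sum fun i _ => ?_
      have := hp i
      exact mul_le_mul_of_nonneg_left (phi_lb g M g0 hm h0 h1 h2 (ν i)) (h4 i)

lemma Phi_ge (g : ℝ → ℝ → ℝ) (M g0 : ℝ) (hm : Measurable (Function.uncurry g))
    (h0 : ∀ x y, 0 ≤ g x y) (h1 : ∀ x y, g x y ≤ M) (h2 : ∀ x y, g0 ≤ g x y) :
    g0 ≤ sInf (PhiSet g) :=
  le_csInf (PhiSet_nonempty g) (PhiSet_lb g M g0 hm h0 h1 h2)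

lemma Phi_le (g : ℝ → ℝ → ℝ) (M : ℝ) (hm : Measurable (Function.uncurry g))
    (h0 : ∀ x y, 0 ≤ g x y) (h1 : ∀ x y, g x y ≤ M) : sInf (PhiSet g) ≤ M := by
  obtain ⟨t, k, ν, α, hp, h3, h4, h5, h6, rfl⟩ := PhiSet_nonempty g
  refine (csInf_le ⟨0, PhiSet_lb g M 0 hm h0 h1 h0⟩ ⟨k, ν, α, hp, h3, h4, h5, h6, rfl⟩).trans ?_
  calc ∑ i, α i * sSup (phiSet g (ν i)) ≤ ∑ i, α i * M := by
        refine Finset.sum_le_sum fun i _ => ?_
        have := hp i
        refine mul_le_mul_of_nonneg_left ?_ (h4 i)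
        refine csSup_le ?_ (phi_bdd g M hm h0 h1 (ν i))
        exact ⟨_, Set.univ, MeasurableSet.univ, by simp, rfl⟩
    _ = M := by rw [← Finset.sum_mul, h5, one_mul]

theorem upper (hV : TaskVertex) (hC : TaskCount) (hJ : TaskJ) (hSt : TaskStep) (hCe : TaskCells)
    (hB : TaskBad) (g : ℝ → ℝ → ℝ) (M g0 : ℝ) (hm : Measurable (Function.uncurry g))
    (hs : ∀ x y, g x y = g y x) (hg : ∀ x y, g0 ≤ g x y) (h1 : ∀ x y, g x y ≤ M) (hg0 : 0 < g0)
    (ε θ : ℝ) (hε : 0 < ε) (hθ : 0 < θ) :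
    ∀ᶠ n : ℕ in atTop, ∃ X : Set (Fin n → ℝ), typ n X ≤ ENNReal.ofReal θ ∧ ∀ x ∉ X,
      Pr (fun i j => g (x i) (x j))
        (fun G => (1 + ε) * (sInf (PhiSet g) * n / (2 * Real.log n))
          < (G.chromaticNumber.toNat : ℝ)) ≤ θ := by
  classical
  have h0 : ∀ x y, 0 ≤ g x y := fun x y => hg0.le.trans (hg x y)
  have hM : 0 < M := lt_of_lt_of_le hg0 ((hg 0 0).trans (h1 0 0))
  set Φ := sInf (PhiSet g) with hΦd
  have hΦ : g0 ≤ Φ := Phi_ge g M g0 hm h0 h1 hg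
  obtain ⟨t, ⟨k, ν, α, hp, hν0, hα, hα1, hsum, rfl⟩, ht⟩ :=
    exists_lt_of_csInf_lt (PhiSet_nonempty g) (show sInf (PhiSet g) < Φ + ε * g0 / 8 by
      have : 0 < ε * g0 / 8 := by positivity
      linarith)
  have := hp
  obtain ⟨α0, hα0, hα0'⟩ : ∃ α0 : ℝ, 0 < α0 ∧ ∀ i, 0 < α i → α0 ≤ α i := by
    rcases (Finset.univ.filter (fun i => 0 < α i)).eq_empty_or_nonempty with he | hne
    · refine ⟨1, one_pos, fun i hi => ?_⟩
      exact absurd (Finset.mem_filter.2 ⟨Finset.mem_univ i, hi⟩) (by rw [he]; simp)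
    · obtain ⟨i0, hi0, hmin⟩ := Finset.exists_min_image _ α hne
      refine ⟨α i0, (Finset.mem_filter.1 hi0).2, fun i hi => ?_⟩
      exact hmin i (Finset.mem_filter.2 ⟨Finset.mem_univ i, hi⟩)
  set ε1 : ℝ := min 1 (ε * g0 / (8 * M)) with hε1d
  have hε1 : 0 < ε1 := lt_min one_pos (by positivity)
  have hε1' : ε1 ≤ 1 := min_le_left _ _
  have hp1 : ε1 * M ≤ ε * g0 / 8 := by
    calc ε1 * M ≤ (ε * g0 / (8 * M)) * M := by
          have : ε1 ≤ ε * g0 / (8 * M) := min_le_right _ _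
          gcongr
      _ = ε * g0 / 8 := by field_simp
  set δ : ℝ := min (1 / 2) (ε * g0 / (64 * M)) with hδd
  have hδ : 0 < δ := lt_min (by norm_num) (by positivity)
  have hδ1 : δ < 1 := lt_of_le_of_lt (min_le_left _ _) (by norm_num)
  have hp2 : 8 * δ * M ≤ ε * g0 / 8 := by
    calc 8 * δ * M ≤ 8 * (ε * g0 / (64 * M)) * M := by
          have : δ ≤ ε * g0 / (64 * M) := min_le_right _ _
          gcongr
      _ = ε * g0 / 8 := by field_simp; ring
  set CL : ℝ := 4 / (α0 * g0 * δ) with hCLd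
  have hCL : 0 < CL := by positivity
  set η : ℝ := ε1 * g0 ^ 2 / (64 * M) with hηd
  have hη : 0 < η := by positivity
  set β : ℝ := ε1 / (32 * M ^ 2 * CL ^ 2) with hβd
  have hβ : 0 < β := by positivity
  set ρ : ℝ := min (ε1 * g0 ^ 2 * α0 ^ 2 / (64 * M)) (η * β * (θ / 2)) with hρd
  have hρ : 0 < ρ := lt_min (by positivity) (by positivity)
  have hρ1 : ρ ≤ ε1 * g0 ^ 2 * α0 ^ 2 / (64 * M) := min_le_left _ _
  have hρ2 : ρ ≤ η * β * (θ / 2) := min_le_right _ _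
  have hpar : (2 / g0 ^ 2) * (ρ / α0 ^ 2 + η) + M * β * CL ^ 2 ≤ ε1 / (4 * M) := by
    have e1 : (2 / g0 ^ 2) * (ρ / α0 ^ 2) ≤ ε1 / (32 * M) := by
      calc (2 / g0 ^ 2) * (ρ / α0 ^ 2)
          ≤ (2 / g0 ^ 2) * ((ε1 * g0 ^ 2 * α0 ^ 2 / (64 * M)) / α0 ^ 2) := by gcongr
        _ = ε1 / (32 * M) := by field_simp; ring
    have e2 : (2 / g0 ^ 2) * η = ε1 / (32 * M) := by
      rw [hηd]; field_simp; ring
    have e3 : M * β * CL ^ 2 = ε1 / (32 * M) := by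
      rw [hβd]; field_simp
    have e4 : (2 / g0 ^ 2) * (ρ / α0 ^ 2 + η) + M * β * CL ^ 2 ≤ 3 * (ε1 / (32 * M)) := by
      rw [mul_add]; linarith
    refine e4.trans ?_
    have e5 : ε1 / (4 * M) = 8 * (ε1 / (32 * M)) := by field_simp; norm_num
    rw [e5]
    have : 0 < ε1 / (32 * M) := by positivity
    linarith
  obtain ⟨q, hq, γ, hγs, hγ0, hγ1, hγρ⟩ := hSt g M hm hs h0 h1 ρ hρ
  obtain ⟨n1, hn1⟩ := hCe q (δ / 2) (θ / 2) hq (by positivity) (by positivity)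
  obtain ⟨L0, hL0⟩ := hJ M (ε1 / 4) hM (by positivity) (by linarith)
  have hlog : Tendsto (fun n : ℕ => Real.log n) atTop atTop :=
    Real.tendsto_log_atTop.comp tendsto_natCast_atTop_atTop
  filter_upwards [eventually_ge_atTop n1, eventually_ge_atTop 1, hlog.eventually_ge_atTop L0,
    hlog.eventually_ge_atTop 1, hlog.eventually_ge_atTop (1 / CL), log_pow CL,
    hlog.eventually_ge_atTop (M * (4 / (ε1 / 4) + q)), hlog.eventually_ge_atTop (2 * CL / g0),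
    hlog.eventually_ge_atTop (1 / M), hlog.eventually_ge_atTop (2 * q * M / δ),
    log_pow (4 * k / (g0 * δ)), hlog.eventually_ge_atTop (16 / (ε * g0)),
    log_pow (32 / (ε * g0)), log_pow (1 / M), exp_small (k + 1) θ (by positivity) hθ]
    with n k1 k2 k3 k4 k5 k6 k7 k8 k9 k10 k11 k12 k13 k14 k15
  set L := Real.log n with hLd
  have hL : 0 < L := by linarith
  have hnpos : (0:ℝ) < n := by exact_mod_cast k2
  have hq0 : (0:ℝ) < q := by exact_mod_cast hq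
  have hL3 : L ≤ L ^ 3 := by
    calc L = L ^ 1 := (pow_one L).symm
      _ ≤ L ^ 3 := pow_le_pow_right₀ k4 (by norm_num)
  set X1 : Set (Fin n → ℝ) := {x | ∃ c : Fin q,
      ((Finset.univ.filter (fun i => cidx q (x i) = c.1)).card : ℝ) < (1 - δ / 2) * n / q} with hX1
  set X2 : Set (Fin n → ℝ) := {x | β * (n : ℝ) ^ 2 < ((Finset.univ.filter
    (fun e : Fin n × Fin n =>
        e.1 ≠ e.2 ∧ η < |g (x e.1) (x e.2) - γ (cidx q (x e.1)) (cidx q (x e.2))|)).card : ℝ)}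
    with hX2
  refine ⟨X1 ∪ X2, ?_, ?_⟩
  · have e1 : typ n X1 ≤ ENNReal.ofReal (θ / 2) := hn1 n k1
    have e2 : typ n X2 ≤ ENNReal.ofReal (θ / 2) := by
      refine (hB g M γ q ρ η β hm h0 h1 hγ0 hγ1 hγρ hη hβ n k2).trans ?_
      refine ENNReal.ofReal_le_ofReal ?_
      rw [div_le_iff₀ (by positivity)]
      linarith
    calc typ n (X1 ∪ X2) ≤ typ n X1 + typ n X2 := measure_union_le _ _
      _ ≤ ENNReal.ofReal (θ / 2) + ENNReal.ofReal (θ / 2) := add_le_add e1 e2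
      _ = ENNReal.ofReal θ := by
        rw [← ENNReal.ofReal_add (by positivity) (by positivity)]
        congr 1; ring
  · intro x hx
    have hxa : x ∉ X1 := fun h => hx (Or.inl h)
    have hxb : x ∉ X2 := fun h => hx (Or.inr h)
    refine (fixed_x hV hC g M g0 hm hs hg h1 hg0 ν α hν0 hα hα1 hsum γ hq hγ0 hγ1 ρ hγρ α0 hα0
      hα0' ε ε1 δ η β Φ hε hε1 hε1' hδ hδ1 hη.le hβ.le hΦ ht.le hp1 hp2 hpar k2 k4 (hL0 n k3)
      ?_ ?_ ?_ ?_ k9 ?_ ?_ ?_ ?_ ?_ x ?_ ?_).trans ?_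
    · rw [div_le_iff₀ hCL] at k5
      linarith
    · calc CL * L ≤ CL * L ^ 3 := by gcongr
        _ ≤ n := k6
    · rw [le_div_iff₀ hM]
      linarith
    · calc 2 * L / g0 * (CL * L) = (2 * CL / g0) * L ^ 2 := by field_simp
        _ ≤ L * L ^ 2 := by gcongr
        _ = L ^ 3 := by ring
        _ ≤ L ^ 6 := pow_le_pow_right₀ k4 (by norm_num)
    · rw [div_le_iff₀ hL]
      rw [div_le_iff₀ hδ] at k10
      linarith
    · have : 4 * k / (g0 * δ) * L ≤ n := by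
        refine le_trans ?_ k11
        gcongr
      rw [div_mul_eq_mul_div, div_le_iff₀ (by positivity)] at this
      rw [div_le_iff₀ hg0]
      linarith
    · rw [div_le_iff₀ (by positivity)] at k12
      rw [div_le_iff₀ hL]
      linarith
    · have : 32 / (ε * g0) * L ≤ n := by
        refine le_trans ?_ k13
        gcongr
      rw [div_mul_eq_mul_div, div_le_iff₀ (by positivity)] at this
      rw [div_le_iff₀ hnpos]
      linarith
    · rw [le_div_iff₀ (by positivity)]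
      calc L / M * L ^ 2 = 1 / M * L ^ 3 := by ring
        _ ≤ (n : ℝ) := k14
    · intro c
      by_contra hcon
      push Not at hcon
      exact hxa ⟨c, hcon⟩
    · exact not_lt.1 hxb
    · exact k15

end Pool.Agent.H452R3.CHI
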