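import Pool.Agent.H452R3.CHI.Up8
import Pool.Agent.H452R3.CHI.TFM

set_option autoImplicit false
open MeasureTheory Filter Topology
open scoped ENNReal

namespace Pool.Agent.H452R3.CHI

lemma wt_sum {n : ℕ} (a : Fin n → Fin n → ℝ) : ∑ G : SimpleGraph (Fin n), wt a G = 1 := by
  classical
  have h := FM.pr_indep a ∅
  have h2 : sm a ∅ = 0 := by simp [sm]
  rw [h2, neg_zero, Real.exp_zero] at h
  rw [← h]
  unfold Pr
  refine Finset.sum_congr rfl fun G _ => ?_
  rw [if_pos]
  intro i hi
  simp at hi

lemma Pr_nonneg {n : ℕ} (a : Fin n → Fin n → ℝ) (ha : ∀ i j, 0 ≤ a i j)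
    (A : SimpleGraph (Fin n) → Prop) : 0 ≤ Pr a A := by
  classical
  unfold Pr
  refine Finset.sum_nonneg fun G _ => ?_
  split_ifs
  · exact wt_nonneg a ha G
  · exact le_rfl

lemma Pr_le_one {n : ℕ} (a : Fin n → Fin n → ℝ) (ha : ∀ i j, 0 ≤ a i j)
    (A : SimpleGraph (Fin n) → Prop) : Pr a A ≤ 1 := by
  classical
  rw [← wt_sum a]
  unfold Pr
  refine Finset.sum_le_sum fun G _ => ?_
  split_ifs
  · exact le_rfl
  · exact wt_nonneg a ha G

lemma Pr_compl {n : ℕ} (a : Fin n → Fin n → ℝ) (A : SimpleGraph (Fin n) → Prop) :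
    Pr a A + Pr a (fun G => ¬ A G) = 1 := by
  classical
  rw [← wt_sum a]
  unfold Pr
  rw [← Finset.sum_add_distrib]
  refine Finset.sum_congr rfl fun G _ => ?_
  by_cases h : A G <;> simp [h]

lemma meas_Pr {n : ℕ} (g : ℝ → ℝ → ℝ) (hm : Measurable (Function.uncurry g))
    (A : SimpleGraph (Fin n) → Prop) :
    Measurable (fun x : Fin n → ℝ => Pr (fun i j => g (x i) (x j)) A) := by
  classical
  unfold Pr wt
  refine Finset.measurable_sum _ fun G _ => ?_
  by_cases hA : A G
  · simp only [hA, if_true]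
    refine Finset.measurable_prod _ fun i _ => Finset.measurable_prod _ fun j _ => ?_
    have h1 : Measurable (fun x : Fin n → ℝ => Real.exp (- g (x i) (x j))) := by
      have : Measurable (fun x : Fin n → ℝ => g (x i) (x j)) :=
        Measurable.comp (g := Function.uncurry g) (f := fun x : Fin n → ℝ => (x i, x j)) hm
          ((measurable_pi_apply i).prodMk (measurable_pi_apply j))
      exact Real.measurable_exp.comp this.neg
    split_ifs
    · exact measurable_const.sub h1
    · exact h1
    · exact measurable_const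
  · simp only [hA, if_false]
    exact measurable_const

instance typ_prob (n : ℕ) : IsProbabilityMeasure (typ n) := by
  unfold typ
  have : IsProbabilityMeasure ((volume : Measure ℝ).restrict (Set.Icc (0:ℝ) 1)) := ⟨by simp⟩
  infer_instance

lemma int_Pr {n : ℕ} (g : ℝ → ℝ → ℝ) (hm : Measurable (Function.uncurry g))
    (h0 : ∀ x y, 0 ≤ g x y) (A : SimpleGraph (Fin n) → Prop) :
    Integrable (fun x : Fin n → ℝ => Pr (fun i j => g (x i) (x j)) A) (typ n) :=
  Integrable.of_bound (meas_Pr g hm A).aestronglyMeasurable 1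
    (Eventually.of_forall fun x => by
      rw [Real.norm_eq_abs, abs_of_nonneg (Pr_nonneg _ (fun i j => h0 _ _) A)]
      exact Pr_le_one _ (fun i j => h0 _ _) A)

lemma sm_nonneg {n : ℕ} (a : Fin n → Fin n → ℝ) (ha : ∀ i j, 0 ≤ a i j) (K : Finset (Fin n)) :
    0 ≤ sm a K := by
  classical
  unfold sm
  refine Finset.sum_nonneg fun i _ => Finset.sum_nonneg fun j _ => ?_
  split_ifs
  · exact ha i j
  · exact le_rfl

lemma Bv_nonneg {n : ℕ} (a : Fin n → Fin n → ℝ) (ha : ∀ i j, 0 ≤ a i j) (I : Finset (Fin n)) :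
    0 ≤ Bv a I := by
  unfold Bv
  refine Real.iSup_nonneg fun J => ?_
  have := sm_nonneg a ha J.1
  positivity

lemma Fp_nonneg {n : ℕ} (a : Fin n → Fin n → ℝ) (M : ℝ) (ha : ∀ i j, 0 ≤ a i j) (hM : 0 ≤ M)
    (p : Fin n → Fin n) : 0 ≤ Fp a M p := by
  classical
  unfold Fp
  refine mul_nonneg (by positivity) (Finset.sum_nonneg fun l _ => ?_)
  split_ifs
  · exact add_nonneg hM (Bv_nonneg a ha _)
  · exact le_rfl

lemma Fstar_nonneg {n : ℕ} (a : Fin n → Fin n → ℝ) (M : ℝ) (ha : ∀ i j, 0 ≤ a i j)
    (hM : 0 ≤ M) : 0 ≤ Fstar a M :=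
  Real.iInf_nonneg fun p => Fp_nonneg a M ha hM p

lemma Fstar_le {n : ℕ} (a : Fin n → Fin n → ℝ) (M : ℝ) (hM : 0 ≤ M) :
    Fstar a M ≤ M := by
  classical
  refine (ciInf_le (Set.finite_range _).bddBelow (id : Fin n → Fin n)).trans ?_
  unfold Fp
  have : ∀ l : Fin n, (if (Finset.univ.filter (fun i : Fin n => id i = l)).Nonempty then
      M + Bv a (Finset.univ.filter (fun i : Fin n => id i = l)) else 0) ≤ M := by
    intro l
    split_ifs with h
    · have hB : Bv a (Finset.univ.filter (fun i : Fin n => id i = l)) ≤ 0 := by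
        unfold Bv
        refine Real.iSup_le (fun J => ?_) le_rfl
        have hJ : J.1 ⊆ {l} := by
          intro i hi
          have := J.2.1 hi
          simpa using this
        have hs : sm a J.1 = 0 := by
          unfold sm
          refine Finset.sum_eq_zero fun i hi => Finset.sum_eq_zero fun j hj => ?_
          have h1 := Finset.mem_singleton.1 (hJ hi)
          have h2 := Finset.mem_singleton.1 (hJ hj)
          rw [h1, h2]
          simp
        rw [hs]; simp
      linarith
    · exact hM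
  calc (1 / (n : ℝ)) * ∑ l : Fin n, _ ≤ (1 / (n : ℝ)) * ∑ _l : Fin n, M :=
        mul_le_mul_of_nonneg_left (Finset.sum_le_sum fun l _ => this l) (by positivity)
    _ = (1 / (n : ℝ)) * (n * M) := by simp
    _ ≤ M := by
      rcases Nat.eq_zero_or_pos n with h | h
      · subst h; simpa using hM
      · have : (0:ℝ) < n := by exact_mod_cast h
        field_simp
        exact le_rfl

/-- pointwise inequality -/
lemma pointwise (hFM : TaskFM) (hFS : TaskFS) {n : ℕ} (a : Fin n → Fin n → ℝ)
    (M ε ε1 ε' Φ T : ℝ) (ha : ∀ i j, 0 ≤ a i j) (hM : 0 ≤ M) (hn : 1 ≤ n) (hL : 0 < Real.log n)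
    (hε' : 0 < ε') (hε : 0 < ε) (hε1 : 0 < ε1) (hΦ : 0 ≤ Φ)
    (hT : T = Φ * n / (2 * Real.log n)) (hM2 : M / (2 * Real.log n) ≤ ε') :
    Fstar a M ≤ Φ * (1 + 2 * ε') * (1 + ε1)
      - Φ * ε * Pr a (fun G => (G.chromaticNumber.toNat : ℝ) < (1 - ε) * T)
      + M * Pr a (fun G => (1 + ε1) * T < (G.chromaticNumber.toNat : ℝ))
      + M * (Real.exp ((n : ℝ) ^ (-ε')) - 1) := by
  classical
  have hnpos : (0:ℝ) < n := by exact_mod_cast hn
  set L := Real.log n with hLd
  set FB : SimpleGraph (Fin n) → Prop := fun G => ∃ J : Finset (Fin n), J.Nonempty ∧ indep G J ∧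
      (1 + ε') * J.card * Real.log n < sm a J with hFB
  have h1 := hFM n a ε' hn hε' ha
  have h2 : M * Pr a FB ≤ M * (Real.exp ((n : ℝ) ^ (-ε')) - 1) :=
    mul_le_mul_of_nonneg_left h1 hM
  set κ : ℝ := (2 * ((1 + ε') * L) + M) / n * T with hκ
  have hκe : κ = Φ * (1 + ε' + M / (2 * L)) := by
    rw [hκ, hT]; field_simp
  have hκ1 : Φ ≤ κ := by
    rw [hκe]
    have : 0 ≤ M / (2 * L) := by positivity
    nlinarith [mul_nonneg hΦ this, mul_nonneg hΦ hε'.le]
  have hκ2 : κ ≤ Φ * (1 + 2 * ε') := by
    rw [hκe]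
    refine mul_le_mul_of_nonneg_left ?_ hΦ
    linarith
  have hκ0 : 0 ≤ κ := hΦ.trans hκ1
  have hFle := Fstar_le a M hM
  have hF0 := Fstar_nonneg a M ha hM
  have hcoef : 0 ≤ (2 * ((1 + ε') * L) + M) / n := by positivity
  -- key pointwise bound in `G`
  have key : ∀ G : SimpleGraph (Fin n), Fstar a M ≤
      κ * (1 + ε1) - κ * (ε + ε1) * (if (G.chromaticNumber.toNat : ℝ) < (1 - ε) * T then 1 else 0)
      + M * (if (1 + ε1) * T < (G.chromaticNumber.toNat : ℝ) then 1 else 0)
      + M * (if FB G then 1 else 0) := by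
    intro G
    by_cases hF : FB G
    · -- Fstar ≤ M
      have h3 : 0 ≤ κ * (1 + ε1) - κ * (ε + ε1) *
          (if (G.chromaticNumber.toNat : ℝ) < (1 - ε) * T then 1 else 0) := by
        split_ifs with hA
        · have h4 : (0:ℝ) ≤ (G.chromaticNumber.toNat : ℝ) := by positivity
          have h5 : 0 < (1 - ε) * T := lt_of_le_of_lt h4 hA
          have hT0 : 0 ≤ T := by rw [hT]; positivity
          have h6 : 0 < 1 - ε := by
            by_contra hcon
            push Not at hcon
            have := mul_nonneg (neg_nonneg.2 hcon) hT0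
            linarith
          have := mul_nonneg hκ0 h6.le
          linarith
        · have : 0 ≤ κ * (1 + ε1) := by positivity
          linarith
      have h4 : 0 ≤ M * (if (1 + ε1) * T < (G.chromaticNumber.toNat : ℝ) then (1:ℝ) else 0) := by
        split_ifs <;> simp [hM]
      simp only [hF, if_true]
      linarith
    · have hS : Fstar a M ≤ (2 * ((1 + ε') * L) + M) * (G.chromaticNumber.toNat : ℝ) / n := by
        refine hFS n a M ((1 + ε') * L) G hn ha hM (by positivity) ?_
        intro J hJ hJi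
        by_contra hcon
        push Not at hcon
        refine hF ⟨J, hJ, hJi, ?_⟩
        calc (1 + ε') * J.card * Real.log n = (1 + ε') * L * J.card := by rw [hLd]; ring
          _ < sm a J := hcon
      have hS' : Fstar a M ≤ (2 * ((1 + ε') * L) + M) / n * (G.chromaticNumber.toNat : ℝ) := by
        refine hS.trans (le_of_eq ?_)
        ring
      simp only [hF, if_false, mul_zero, add_zero]
      by_cases hA : (G.chromaticNumber.toNat : ℝ) < (1 - ε) * T
      · simp only [hA, if_true]
        have h3 : Fstar a M ≤ κ * (1 - ε) := by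
          refine hS'.trans ?_
          calc _ ≤ (2 * ((1 + ε') * L) + M) / n * ((1 - ε) * T) :=
                mul_le_mul_of_nonneg_left hA.le hcoef
            _ = κ * (1 - ε) := by rw [hκ]; ring
        have h4 : 0 ≤ M * (if (1 + ε1) * T < (G.chromaticNumber.toNat : ℝ) then (1:ℝ) else 0) := by
          split_ifs <;> simp [hM]
        linarith
      · simp only [hA, if_false, mul_zero, sub_zero]
        by_cases hU : (1 + ε1) * T < (G.chromaticNumber.toNat : ℝ)
        · simp only [hU, if_true]
          have : 0 ≤ κ * (1 + ε1) := by positivity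
          linarith
        · simp only [hU, if_false, mul_zero, add_zero]
          refine hS'.trans ?_
          calc _ ≤ (2 * ((1 + ε') * L) + M) / n * ((1 + ε1) * T) :=
                mul_le_mul_of_nonneg_left (not_lt.1 hU) hcoef
            _ = κ * (1 + ε1) := by rw [hκ]; ring
  have hsum : Fstar a M ≤ κ * (1 + ε1)
      - κ * (ε + ε1) * Pr a (fun G => (G.chromaticNumber.toNat : ℝ) < (1 - ε) * T)
      + M * Pr a (fun G => (1 + ε1) * T < (G.chromaticNumber.toNat : ℝ))
      + M * Pr a FB := by
    calc Fstar a M = ∑ G : SimpleGraph (Fin n), wt a G * Fstar a M := by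
          rw [← Finset.sum_mul, wt_sum, one_mul]
      _ ≤ ∑ G : SimpleGraph (Fin n), wt a G * (κ * (1 + ε1) - κ * (ε + ε1) *
            (if (G.chromaticNumber.toNat : ℝ) < (1 - ε) * T then 1 else 0)
          + M * (if (1 + ε1) * T < (G.chromaticNumber.toNat : ℝ) then 1 else 0)
          + M * (if FB G then 1 else 0)) :=
          Finset.sum_le_sum fun G _ => mul_le_mul_of_nonneg_left (key G) (wt_nonneg a ha G)
      _ = _ := by
          have e : ∀ A : SimpleGraph (Fin n) → Prop,
              Pr a A = ∑ G : SimpleGraph (Fin n), wt a G * (if A G then 1 else 0) := by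
            intro A
            unfold Pr
            refine Finset.sum_congr rfl fun G _ => ?_
            by_cases h : A G <;> simp [h]
          rw [e, e, e, Finset.mul_sum, Finset.mul_sum, Finset.mul_sum]
          have e2 : κ * (1 + ε1) = ∑ G : SimpleGraph (Fin n), wt a G * (κ * (1 + ε1)) := by
            rw [← Finset.sum_mul, wt_sum, one_mul]
          conv_rhs => rw [e2]
          rw [← Finset.sum_sub_distrib, ← Finset.sum_add_distrib, ← Finset.sum_add_distrib]
          refine Finset.sum_congr rfl fun G _ => ?_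
          ring
  have hPA := Pr_nonneg a ha (fun G => (G.chromaticNumber.toNat : ℝ) < (1 - ε) * T)
  have h5 : κ * (1 + ε1) ≤ Φ * (1 + 2 * ε') * (1 + ε1) := by gcongr
  have h6 : Φ * ε * Pr a (fun G => (G.chromaticNumber.toNat : ℝ) < (1 - ε) * T)
      ≤ κ * (ε + ε1) * Pr a (fun G => (G.chromaticNumber.toNat : ℝ) < (1 - ε) * T) := by
    refine mul_le_mul_of_nonneg_right ?_ hPA
    calc Φ * ε ≤ κ * ε := by gcongr
      _ ≤ κ * (ε + ε1) := by gcongr; linarith
  linarith

end Pool.Agent.H452R3.CHI
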